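import Pool.Agent.H57.QX.Fam

/-!
# Exact families: `k = 18 t + 1`, `t ≥ 5` (found by helper58)
-/

set_option autoImplicit false

namespace Pool.Agent.H57.QX.D1

def ctx : Ctx := ⟨5, 18, 1, 3⟩

def base : List Arc := [
    ⟨⟨0, 0⟩, ⟨18, 1⟩, 0, ⟨0, 0⟩⟩,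
    ⟨⟨0, 1⟩, ⟨18, 1⟩, 0, ⟨0, 4⟩⟩,
    ⟨⟨0, 2⟩, ⟨18, 1⟩, 0, ⟨0, 5⟩⟩]

def fam0 : Fam where
  ints := [(⟨12, 7⟩, ⟨18, 1⟩)]
  arcs := [
    ⟨⟨0, 0⟩, ⟨0, 1⟩, 1, ⟨18, 1⟩⟩,
    ⟨⟨0, 3⟩, ⟨0, 1⟩, 1, ⟨18, 7⟩⟩,
    ⟨⟨0, 6⟩, ⟨1, 0⟩, 0, ⟨0, 12⟩⟩,
    ⟨⟨3, 6⟩, ⟨1, 0⟩, 2, ⟨42, 14⟩⟩,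
    ⟨⟨6, 6⟩, ⟨1, 0⟩, 1, ⟨30, 13⟩⟩,
    ⟨⟨9, 6⟩, ⟨1, 0⟩, 0, ⟨18, 12⟩⟩,
    ⟨⟨12, 6⟩, ⟨1, 0⟩, 2, ⟨60, 14⟩⟩,
    ⟨⟨15, 6⟩, ⟨1, 0⟩, 1, ⟨48, 13⟩⟩,
    ⟨⟨18, 6⟩, ⟨1, 0⟩, 0, ⟨36, 12⟩⟩,
    ⟨⟨21, 6⟩, ⟨1, 0⟩, 2, ⟨78, 14⟩⟩,
    ⟨⟨24, 6⟩, ⟨1, 0⟩, 1, ⟨66, 13⟩⟩,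
    ⟨⟨27, 6⟩, ⟨1, 0⟩, 0, ⟨54, 12⟩⟩,
    ⟨⟨30, 6⟩, ⟨1, 0⟩, 2, ⟨96, 14⟩⟩,
    ⟨⟨33, 6⟩, ⟨1, 0⟩, 1, ⟨84, 13⟩⟩,
    ⟨⟨36, 6⟩, ⟨1, 0⟩, 0, ⟨72, 12⟩⟩,
    ⟨⟨39, 6⟩, ⟨1, 0⟩, 2, ⟨114, 14⟩⟩,
    ⟨⟨42, 6⟩, ⟨1, 0⟩, 1, ⟨102, 13⟩⟩,
    ⟨⟨45, 6⟩, ⟨1, 0⟩, 0, ⟨90, 12⟩⟩,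
    ⟨⟨48, 6⟩, ⟨1, 0⟩, 2, ⟨132, 14⟩⟩,
    ⟨⟨51, 6⟩, ⟨1, -1⟩, 1, ⟨120, 13⟩⟩,
    ⟨⟨0, 1⟩, ⟨0, 1⟩, 2, ⟨36, 6⟩⟩,
    ⟨⟨0, 4⟩, ⟨1, 0⟩, 1, ⟨18, 11⟩⟩,
    ⟨⟨3, 4⟩, ⟨1, 0⟩, 0, ⟨6, 10⟩⟩,
    ⟨⟨6, 4⟩, ⟨1, 0⟩, 2, ⟨48, 12⟩⟩,
    ⟨⟨9, 4⟩, ⟨1, 0⟩, 1, ⟨36, 11⟩⟩,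
    ⟨⟨12, 4⟩, ⟨1, 0⟩, 0, ⟨24, 10⟩⟩,
    ⟨⟨15, 4⟩, ⟨1, 0⟩, 2, ⟨66, 12⟩⟩,
    ⟨⟨18, 4⟩, ⟨1, 0⟩, 1, ⟨54, 11⟩⟩,
    ⟨⟨21, 4⟩, ⟨1, 0⟩, 0, ⟨42, 10⟩⟩,
    ⟨⟨24, 4⟩, ⟨1, 0⟩, 2, ⟨84, 12⟩⟩,
    ⟨⟨27, 4⟩, ⟨1, 0⟩, 1, ⟨72, 11⟩⟩,
    ⟨⟨30, 4⟩, ⟨1, 0⟩, 0, ⟨60, 10⟩⟩,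
    ⟨⟨33, 4⟩, ⟨1, 0⟩, 2, ⟨102, 12⟩⟩,
    ⟨⟨36, 4⟩, ⟨1, 0⟩, 1, ⟨90, 11⟩⟩,
    ⟨⟨39, 4⟩, ⟨1, 0⟩, 0, ⟨78, 10⟩⟩,
    ⟨⟨42, 4⟩, ⟨0, 1⟩, 2, ⟨120, 12⟩⟩,
    ⟨⟨42, 7⟩, ⟨1, 0⟩, 2, ⟨120, 18⟩⟩,
    ⟨⟨45, 7⟩, ⟨1, 0⟩, 1, ⟨108, 17⟩⟩,
    ⟨⟨48, 7⟩, ⟨1, 0⟩, 0, ⟨96, 16⟩⟩,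
    ⟨⟨51, 7⟩, ⟨1, -1⟩, 2, ⟨138, 18⟩⟩,
    ⟨⟨0, 2⟩, ⟨0, 1⟩, 0, ⟨0, 5⟩⟩,
    ⟨⟨0, 5⟩, ⟨1, 0⟩, 2, ⟨36, 13⟩⟩,
    ⟨⟨3, 5⟩, ⟨1, 0⟩, 1, ⟨24, 12⟩⟩,
    ⟨⟨6, 5⟩, ⟨1, 0⟩, 0, ⟨12, 11⟩⟩,
    ⟨⟨9, 5⟩, ⟨1, 0⟩, 2, ⟨54, 13⟩⟩,
    ⟨⟨12, 5⟩, ⟨1, 0⟩, 1, ⟨42, 12⟩⟩,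
    ⟨⟨15, 5⟩, ⟨1, 0⟩, 0, ⟨30, 11⟩⟩,
    ⟨⟨18, 5⟩, ⟨1, 0⟩, 2, ⟨72, 13⟩⟩,
    ⟨⟨21, 5⟩, ⟨1, 0⟩, 1, ⟨60, 12⟩⟩,
    ⟨⟨24, 5⟩, ⟨1, 0⟩, 0, ⟨48, 11⟩⟩,
    ⟨⟨27, 5⟩, ⟨1, 0⟩, 2, ⟨90, 13⟩⟩,
    ⟨⟨30, 5⟩, ⟨1, 0⟩, 1, ⟨78, 12⟩⟩,
    ⟨⟨33, 5⟩, ⟨1, 0⟩, 0, ⟨66, 11⟩⟩,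
    ⟨⟨36, 5⟩, ⟨1, 0⟩, 2, ⟨108, 13⟩⟩,
    ⟨⟨39, 5⟩, ⟨1, 0⟩, 1, ⟨96, 12⟩⟩,
    ⟨⟨42, 5⟩, ⟨0, 1⟩, 0, ⟨84, 11⟩⟩,
    ⟨⟨42, 8⟩, ⟨1, -1⟩, 0, ⟨84, 17⟩⟩,
    ⟨⟨45, 5⟩, ⟨0, 1⟩, 1, ⟨108, 12⟩⟩,
    ⟨⟨45, 8⟩, ⟨1, -1⟩, 2, ⟨126, 19⟩⟩,
    ⟨⟨48, 5⟩, ⟨0, 1⟩, 0, ⟨96, 11⟩⟩,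
    ⟨⟨48, 8⟩, ⟨1, -1⟩, 1, ⟨114, 18⟩⟩,
    ⟨⟨51, 5⟩, ⟨0, 1⟩, 2, ⟨138, 13⟩⟩,
    ⟨⟨51, 8⟩, ⟨1, -1⟩, 0, ⟨102, 17⟩⟩]

theorem ok0 : famOK ctx base fam0 = true := by decide +kernel

def fam1 : Fam where
  ints := [(⟨0, 0⟩, ⟨0, 23⟩)]
  arcs := [
    ⟨⟨0, 0⟩, ⟨0, 4⟩, 1, ⟨18, 1⟩⟩,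
    ⟨⟨0, 12⟩, ⟨0, 1⟩, 1, ⟨18, 25⟩⟩,
    ⟨⟨0, 15⟩, ⟨1, 0⟩, 0, ⟨0, 30⟩⟩,
    ⟨⟨3, 15⟩, ⟨1, 0⟩, 2, ⟨42, 32⟩⟩,
    ⟨⟨6, 15⟩, ⟨1, 0⟩, 1, ⟨30, 31⟩⟩,
    ⟨⟨9, 15⟩, ⟨1, 0⟩, 0, ⟨18, 30⟩⟩,
    ⟨⟨12, 15⟩, ⟨1, 0⟩, 2, ⟨60, 32⟩⟩,
    ⟨⟨15, 15⟩, ⟨1, 0⟩, 1, ⟨48, 31⟩⟩,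
    ⟨⟨18, 15⟩, ⟨1, 0⟩, 0, ⟨36, 30⟩⟩,
    ⟨⟨21, 15⟩, ⟨1, 0⟩, 2, ⟨78, 32⟩⟩,
    ⟨⟨24, 15⟩, ⟨1, 0⟩, 1, ⟨66, 31⟩⟩,
    ⟨⟨27, 15⟩, ⟨1, 0⟩, 0, ⟨54, 30⟩⟩,
    ⟨⟨30, 15⟩, ⟨1, 0⟩, 2, ⟨96, 32⟩⟩,
    ⟨⟨33, 15⟩, ⟨1, 0⟩, 1, ⟨84, 31⟩⟩,
    ⟨⟨36, 15⟩, ⟨1, 0⟩, 0, ⟨72, 30⟩⟩,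
    ⟨⟨39, 15⟩, ⟨1, 0⟩, 2, ⟨114, 32⟩⟩,
    ⟨⟨42, 15⟩, ⟨1, 0⟩, 1, ⟨102, 31⟩⟩,
    ⟨⟨45, 15⟩, ⟨1, 0⟩, 0, ⟨90, 30⟩⟩,
    ⟨⟨48, 15⟩, ⟨1, 0⟩, 2, ⟨132, 32⟩⟩,
    ⟨⟨51, 15⟩, ⟨1, -4⟩, 1, ⟨120, 31⟩⟩,
    ⟨⟨0, 1⟩, ⟨0, 4⟩, 2, ⟨36, 6⟩⟩,
    ⟨⟨0, 13⟩, ⟨1, 0⟩, 1, ⟨18, 29⟩⟩,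
    ⟨⟨3, 13⟩, ⟨1, 0⟩, 0, ⟨6, 28⟩⟩,
    ⟨⟨6, 13⟩, ⟨1, 0⟩, 2, ⟨48, 30⟩⟩,
    ⟨⟨9, 13⟩, ⟨1, 0⟩, 1, ⟨36, 29⟩⟩,
    ⟨⟨12, 13⟩, ⟨1, 0⟩, 0, ⟨24, 28⟩⟩,
    ⟨⟨15, 13⟩, ⟨1, 0⟩, 2, ⟨66, 30⟩⟩,
    ⟨⟨18, 13⟩, ⟨1, 0⟩, 1, ⟨54, 29⟩⟩,
    ⟨⟨21, 13⟩, ⟨1, 0⟩, 0, ⟨42, 28⟩⟩,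
    ⟨⟨24, 13⟩, ⟨1, 0⟩, 2, ⟨84, 30⟩⟩,
    ⟨⟨27, 13⟩, ⟨1, 0⟩, 1, ⟨72, 29⟩⟩,
    ⟨⟨30, 13⟩, ⟨1, 0⟩, 0, ⟨60, 28⟩⟩,
    ⟨⟨33, 13⟩, ⟨1, 0⟩, 2, ⟨102, 30⟩⟩,
    ⟨⟨36, 13⟩, ⟨1, 0⟩, 1, ⟨90, 29⟩⟩,
    ⟨⟨39, 13⟩, ⟨1, 0⟩, 0, ⟨78, 28⟩⟩,
    ⟨⟨42, 13⟩, ⟨0, 1⟩, 2, ⟨120, 30⟩⟩,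
    ⟨⟨42, 16⟩, ⟨1, 0⟩, 2, ⟨120, 36⟩⟩,
    ⟨⟨45, 16⟩, ⟨1, 0⟩, 1, ⟨108, 35⟩⟩,
    ⟨⟨48, 16⟩, ⟨1, 0⟩, 0, ⟨96, 34⟩⟩,
    ⟨⟨51, 16⟩, ⟨1, -4⟩, 2, ⟨138, 36⟩⟩,
    ⟨⟨0, 2⟩, ⟨0, 3⟩, 0, ⟨0, 5⟩⟩,
    ⟨⟨0, 11⟩, ⟨0, 1⟩, 0, ⟨0, 23⟩⟩,
    ⟨⟨0, 14⟩, ⟨1, 0⟩, 2, ⟨36, 31⟩⟩,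
    ⟨⟨3, 14⟩, ⟨1, 0⟩, 1, ⟨24, 30⟩⟩,
    ⟨⟨6, 14⟩, ⟨1, 0⟩, 0, ⟨12, 29⟩⟩,
    ⟨⟨9, 14⟩, ⟨1, 0⟩, 2, ⟨54, 31⟩⟩,
    ⟨⟨12, 14⟩, ⟨1, 0⟩, 1, ⟨42, 30⟩⟩,
    ⟨⟨15, 14⟩, ⟨1, 0⟩, 0, ⟨30, 29⟩⟩,
    ⟨⟨18, 14⟩, ⟨1, 0⟩, 2, ⟨72, 31⟩⟩,
    ⟨⟨21, 14⟩, ⟨1, 0⟩, 1, ⟨60, 30⟩⟩,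
    ⟨⟨24, 14⟩, ⟨1, 0⟩, 0, ⟨48, 29⟩⟩,
    ⟨⟨27, 14⟩, ⟨1, 0⟩, 2, ⟨90, 31⟩⟩,
    ⟨⟨30, 14⟩, ⟨1, 0⟩, 1, ⟨78, 30⟩⟩,
    ⟨⟨33, 14⟩, ⟨1, 0⟩, 0, ⟨66, 29⟩⟩,
    ⟨⟨36, 14⟩, ⟨1, 0⟩, 2, ⟨108, 31⟩⟩,
    ⟨⟨39, 14⟩, ⟨1, 0⟩, 1, ⟨96, 30⟩⟩,
    ⟨⟨42, 14⟩, ⟨0, 1⟩, 0, ⟨84, 29⟩⟩,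
    ⟨⟨42, 17⟩, ⟨1, -1⟩, 0, ⟨84, 35⟩⟩,
    ⟨⟨45, 14⟩, ⟨0, 1⟩, 1, ⟨108, 30⟩⟩,
    ⟨⟨45, 17⟩, ⟨1, -1⟩, 2, ⟨126, 37⟩⟩,
    ⟨⟨48, 14⟩, ⟨0, 1⟩, 0, ⟨96, 29⟩⟩,
    ⟨⟨48, 17⟩, ⟨1, -1⟩, 1, ⟨114, 36⟩⟩,
    ⟨⟨51, 14⟩, ⟨0, 1⟩, 2, ⟨138, 31⟩⟩,
    ⟨⟨51, 17⟩, ⟨1, -4⟩, 0, ⟨102, 35⟩⟩]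

theorem ok1 : famOK ctx base fam1 = true := by decide +kernel

def fam2 : Fam where
  ints := [(⟨0, 18⟩, ⟨6, 17⟩)]
  arcs := [
    ⟨⟨0, 0⟩, ⟨0, 3⟩, 2, ⟨36, 2⟩⟩,
    ⟨⟨0, 9⟩, ⟨1, 0⟩, 1, ⟨18, 19⟩⟩,
    ⟨⟨3, 9⟩, ⟨0, 1⟩, 1, ⟨24, 19⟩⟩,
    ⟨⟨3, 12⟩, ⟨1, 0⟩, 0, ⟨6, 24⟩⟩,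
    ⟨⟨6, 12⟩, ⟨1, 0⟩, 2, ⟨48, 26⟩⟩,
    ⟨⟨9, 12⟩, ⟨1, 0⟩, 1, ⟨36, 25⟩⟩,
    ⟨⟨12, 12⟩, ⟨1, 0⟩, 0, ⟨24, 24⟩⟩,
    ⟨⟨15, 12⟩, ⟨1, 0⟩, 2, ⟨66, 26⟩⟩,
    ⟨⟨18, 12⟩, ⟨1, 0⟩, 1, ⟨54, 25⟩⟩,
    ⟨⟨21, 12⟩, ⟨1, 0⟩, 0, ⟨42, 24⟩⟩,
    ⟨⟨24, 12⟩, ⟨1, 0⟩, 2, ⟨84, 26⟩⟩,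
    ⟨⟨27, 12⟩, ⟨1, 0⟩, 1, ⟨72, 25⟩⟩,
    ⟨⟨30, 12⟩, ⟨1, 0⟩, 0, ⟨60, 24⟩⟩,
    ⟨⟨33, 12⟩, ⟨1, 0⟩, 2, ⟨102, 26⟩⟩,
    ⟨⟨36, 12⟩, ⟨1, 0⟩, 1, ⟨90, 25⟩⟩,
    ⟨⟨39, 12⟩, ⟨1, 0⟩, 0, ⟨78, 24⟩⟩,
    ⟨⟨42, 12⟩, ⟨1, 0⟩, 2, ⟨120, 26⟩⟩,
    ⟨⟨45, 12⟩, ⟨1, 0⟩, 1, ⟨108, 25⟩⟩,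
    ⟨⟨48, 12⟩, ⟨1, 0⟩, 0, ⟨96, 24⟩⟩,
    ⟨⟨51, 12⟩, ⟨1, -3⟩, 2, ⟨138, 26⟩⟩,
    ⟨⟨0, 1⟩, ⟨0, 3⟩, 0, ⟨0, 4⟩⟩,
    ⟨⟨0, 10⟩, ⟨1, 0⟩, 2, ⟨36, 24⟩⟩,
    ⟨⟨3, 10⟩, ⟨1, 0⟩, 1, ⟨24, 23⟩⟩,
    ⟨⟨6, 10⟩, ⟨1, 0⟩, 0, ⟨12, 22⟩⟩,
    ⟨⟨9, 10⟩, ⟨1, 0⟩, 2, ⟨54, 24⟩⟩,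
    ⟨⟨12, 10⟩, ⟨1, 0⟩, 1, ⟨42, 23⟩⟩,
    ⟨⟨15, 10⟩, ⟨1, 0⟩, 0, ⟨30, 22⟩⟩,
    ⟨⟨18, 10⟩, ⟨1, 0⟩, 2, ⟨72, 24⟩⟩,
    ⟨⟨21, 10⟩, ⟨1, 0⟩, 1, ⟨60, 23⟩⟩,
    ⟨⟨24, 10⟩, ⟨1, 0⟩, 0, ⟨48, 22⟩⟩,
    ⟨⟨27, 10⟩, ⟨1, 0⟩, 2, ⟨90, 24⟩⟩,
    ⟨⟨30, 10⟩, ⟨1, 0⟩, 1, ⟨78, 23⟩⟩,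
    ⟨⟨33, 10⟩, ⟨1, 0⟩, 0, ⟨66, 22⟩⟩,
    ⟨⟨36, 10⟩, ⟨1, 0⟩, 2, ⟨108, 24⟩⟩,
    ⟨⟨39, 10⟩, ⟨1, 0⟩, 1, ⟨96, 23⟩⟩,
    ⟨⟨42, 10⟩, ⟨1, 0⟩, 0, ⟨84, 22⟩⟩,
    ⟨⟨45, 10⟩, ⟨0, 1⟩, 2, ⟨126, 24⟩⟩,
    ⟨⟨45, 13⟩, ⟨1, 0⟩, 2, ⟨126, 30⟩⟩,
    ⟨⟨48, 13⟩, ⟨1, 0⟩, 1, ⟨114, 29⟩⟩,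
    ⟨⟨51, 13⟩, ⟨1, -3⟩, 0, ⟨102, 28⟩⟩,
    ⟨⟨0, 2⟩, ⟨0, 2⟩, 1, ⟨18, 6⟩⟩,
    ⟨⟨0, 8⟩, ⟨0, 1⟩, 2, ⟨36, 19⟩⟩,
    ⟨⟨0, 11⟩, ⟨1, -1⟩, 0, ⟨0, 23⟩⟩,
    ⟨⟨3, 8⟩, ⟨0, 1⟩, 0, ⟨6, 17⟩⟩,
    ⟨⟨3, 11⟩, ⟨1, 0⟩, 2, ⟨42, 25⟩⟩,
    ⟨⟨6, 11⟩, ⟨1, 0⟩, 1, ⟨30, 24⟩⟩,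
    ⟨⟨9, 11⟩, ⟨1, 0⟩, 0, ⟨18, 23⟩⟩,
    ⟨⟨12, 11⟩, ⟨1, 0⟩, 2, ⟨60, 25⟩⟩,
    ⟨⟨15, 11⟩, ⟨1, 0⟩, 1, ⟨48, 24⟩⟩,
    ⟨⟨18, 11⟩, ⟨1, 0⟩, 0, ⟨36, 23⟩⟩,
    ⟨⟨21, 11⟩, ⟨1, 0⟩, 2, ⟨78, 25⟩⟩,
    ⟨⟨24, 11⟩, ⟨1, 0⟩, 1, ⟨66, 24⟩⟩,
    ⟨⟨27, 11⟩, ⟨1, 0⟩, 0, ⟨54, 23⟩⟩,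
    ⟨⟨30, 11⟩, ⟨1, 0⟩, 2, ⟨96, 25⟩⟩,
    ⟨⟨33, 11⟩, ⟨1, 0⟩, 1, ⟨84, 24⟩⟩,
    ⟨⟨36, 11⟩, ⟨1, 0⟩, 0, ⟨72, 23⟩⟩,
    ⟨⟨39, 11⟩, ⟨1, 0⟩, 2, ⟨114, 25⟩⟩,
    ⟨⟨42, 11⟩, ⟨1, 0⟩, 1, ⟨102, 24⟩⟩,
    ⟨⟨45, 11⟩, ⟨0, 1⟩, 0, ⟨90, 23⟩⟩,
    ⟨⟨45, 14⟩, ⟨1, -1⟩, 0, ⟨90, 29⟩⟩,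
    ⟨⟨48, 11⟩, ⟨0, 1⟩, 1, ⟨114, 24⟩⟩,
    ⟨⟨48, 14⟩, ⟨1, -1⟩, 2, ⟨132, 31⟩⟩,
    ⟨⟨51, 11⟩, ⟨0, 1⟩, 0, ⟨102, 23⟩⟩,
    ⟨⟨51, 14⟩, ⟨1, -3⟩, 1, ⟨120, 30⟩⟩]

theorem ok2 : famOK ctx base fam2 = true := by decide +kernel

def fam3 : Fam where
  ints := [(⟨6, 12⟩, ⟨12, 11⟩)]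
  arcs := [
    ⟨⟨0, 0⟩, ⟨0, 2⟩, 0, ⟨0, 0⟩⟩,
    ⟨⟨0, 6⟩, ⟨1, 0⟩, 2, ⟨36, 14⟩⟩,
    ⟨⟨3, 6⟩, ⟨1, 0⟩, 1, ⟨24, 13⟩⟩,
    ⟨⟨6, 6⟩, ⟨0, 1⟩, 1, ⟨30, 13⟩⟩,
    ⟨⟨6, 9⟩, ⟨1, 0⟩, 0, ⟨12, 18⟩⟩,
    ⟨⟨9, 9⟩, ⟨1, 0⟩, 2, ⟨54, 20⟩⟩,
    ⟨⟨12, 9⟩, ⟨1, 0⟩, 1, ⟨42, 19⟩⟩,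
    ⟨⟨15, 9⟩, ⟨1, 0⟩, 0, ⟨30, 18⟩⟩,
    ⟨⟨18, 9⟩, ⟨1, 0⟩, 2, ⟨72, 20⟩⟩,
    ⟨⟨21, 9⟩, ⟨1, 0⟩, 1, ⟨60, 19⟩⟩,
    ⟨⟨24, 9⟩, ⟨1, 0⟩, 0, ⟨48, 18⟩⟩,
    ⟨⟨27, 9⟩, ⟨1, 0⟩, 2, ⟨90, 20⟩⟩,
    ⟨⟨30, 9⟩, ⟨1, 0⟩, 1, ⟨78, 19⟩⟩,
    ⟨⟨33, 9⟩, ⟨1, 0⟩, 0, ⟨66, 18⟩⟩,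
    ⟨⟨36, 9⟩, ⟨1, 0⟩, 2, ⟨108, 20⟩⟩,
    ⟨⟨39, 9⟩, ⟨1, 0⟩, 1, ⟨96, 19⟩⟩,
    ⟨⟨42, 9⟩, ⟨1, 0⟩, 0, ⟨84, 18⟩⟩,
    ⟨⟨45, 9⟩, ⟨1, 0⟩, 2, ⟨126, 20⟩⟩,
    ⟨⟨48, 9⟩, ⟨1, 0⟩, 1, ⟨114, 19⟩⟩,
    ⟨⟨51, 9⟩, ⟨1, -2⟩, 0, ⟨102, 18⟩⟩,
    ⟨⟨0, 1⟩, ⟨0, 2⟩, 1, ⟨18, 5⟩⟩,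
    ⟨⟨0, 7⟩, ⟨1, 0⟩, 0, ⟨0, 16⟩⟩,
    ⟨⟨3, 7⟩, ⟨1, 0⟩, 2, ⟨42, 18⟩⟩,
    ⟨⟨6, 7⟩, ⟨1, 0⟩, 1, ⟨30, 17⟩⟩,
    ⟨⟨9, 7⟩, ⟨1, 0⟩, 0, ⟨18, 16⟩⟩,
    ⟨⟨12, 7⟩, ⟨1, 0⟩, 2, ⟨60, 18⟩⟩,
    ⟨⟨15, 7⟩, ⟨1, 0⟩, 1, ⟨48, 17⟩⟩,
    ⟨⟨18, 7⟩, ⟨1, 0⟩, 0, ⟨36, 16⟩⟩,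
    ⟨⟨21, 7⟩, ⟨1, 0⟩, 2, ⟨78, 18⟩⟩,
    ⟨⟨24, 7⟩, ⟨1, 0⟩, 1, ⟨66, 17⟩⟩,
    ⟨⟨27, 7⟩, ⟨1, 0⟩, 0, ⟨54, 16⟩⟩,
    ⟨⟨30, 7⟩, ⟨1, 0⟩, 2, ⟨96, 18⟩⟩,
    ⟨⟨33, 7⟩, ⟨1, 0⟩, 1, ⟨84, 17⟩⟩,
    ⟨⟨36, 7⟩, ⟨1, 0⟩, 0, ⟨72, 16⟩⟩,
    ⟨⟨39, 7⟩, ⟨1, 0⟩, 2, ⟨114, 18⟩⟩,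
    ⟨⟨42, 7⟩, ⟨1, 0⟩, 1, ⟨102, 17⟩⟩,
    ⟨⟨45, 7⟩, ⟨1, 0⟩, 0, ⟨90, 16⟩⟩,
    ⟨⟨48, 7⟩, ⟨0, 1⟩, 2, ⟨132, 18⟩⟩,
    ⟨⟨48, 10⟩, ⟨1, 0⟩, 2, ⟨132, 24⟩⟩,
    ⟨⟨51, 10⟩, ⟨1, -2⟩, 1, ⟨120, 23⟩⟩,
    ⟨⟨0, 2⟩, ⟨0, 1⟩, 2, ⟨36, 7⟩⟩,
    ⟨⟨0, 5⟩, ⟨0, 1⟩, 0, ⟨0, 11⟩⟩,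
    ⟨⟨0, 8⟩, ⟨1, -1⟩, 1, ⟨18, 18⟩⟩,
    ⟨⟨3, 5⟩, ⟨0, 1⟩, 2, ⟨42, 13⟩⟩,
    ⟨⟨3, 8⟩, ⟨1, -1⟩, 0, ⟨6, 17⟩⟩,
    ⟨⟨6, 5⟩, ⟨0, 1⟩, 0, ⟨12, 11⟩⟩,
    ⟨⟨6, 8⟩, ⟨1, 0⟩, 2, ⟨48, 19⟩⟩,
    ⟨⟨9, 8⟩, ⟨1, 0⟩, 1, ⟨36, 18⟩⟩,
    ⟨⟨12, 8⟩, ⟨1, 0⟩, 0, ⟨24, 17⟩⟩,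
    ⟨⟨15, 8⟩, ⟨1, 0⟩, 2, ⟨66, 19⟩⟩,
    ⟨⟨18, 8⟩, ⟨1, 0⟩, 1, ⟨54, 18⟩⟩,
    ⟨⟨21, 8⟩, ⟨1, 0⟩, 0, ⟨42, 17⟩⟩,
    ⟨⟨24, 8⟩, ⟨1, 0⟩, 2, ⟨84, 19⟩⟩,
    ⟨⟨27, 8⟩, ⟨1, 0⟩, 1, ⟨72, 18⟩⟩,
    ⟨⟨30, 8⟩, ⟨1, 0⟩, 0, ⟨60, 17⟩⟩,
    ⟨⟨33, 8⟩, ⟨1, 0⟩, 2, ⟨102, 19⟩⟩,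
    ⟨⟨36, 8⟩, ⟨1, 0⟩, 1, ⟨90, 18⟩⟩,
    ⟨⟨39, 8⟩, ⟨1, 0⟩, 0, ⟨78, 17⟩⟩,
    ⟨⟨42, 8⟩, ⟨1, 0⟩, 2, ⟨120, 19⟩⟩,
    ⟨⟨45, 8⟩, ⟨1, 0⟩, 1, ⟨108, 18⟩⟩,
    ⟨⟨48, 8⟩, ⟨0, 1⟩, 0, ⟨96, 17⟩⟩,
    ⟨⟨48, 11⟩, ⟨1, -1⟩, 0, ⟨96, 23⟩⟩,
    ⟨⟨51, 8⟩, ⟨0, 1⟩, 1, ⟨120, 18⟩⟩,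
    ⟨⟨51, 11⟩, ⟨1, -2⟩, 2, ⟨138, 25⟩⟩]

theorem ok3 : famOK ctx base fam3 = true := by decide +kernel

def cover : List (Aff × Aff) := [(⟨0, 0⟩, ⟨0, 23⟩), (⟨0, 18⟩, ⟨6, 17⟩), (⟨6, 12⟩, ⟨12, 11⟩), (⟨12, 7⟩, ⟨18, 1⟩)]

theorem ok : allOK ctx base [fam0, fam1, fam2, fam3] cover = true := by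
  have h : (cov ctx [fam0, fam1, fam2, fam3] cover ⟨0, 0⟩ && pos ctx ctx.k && decide (0 < ctx.P) && baseOK ctx base) = true := by decide +kernel
  simp only [allOK, List.all_cons, List.all_nil, Bool.and_true, ok0, ok1, ok2, ok3, Bool.true_and]
  exact h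

end Pool.Agent.H57.QX.D1
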