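import Pool.Agent.H57.QX.Fam

/-!
# Exact families: `k = 18 t + 11`, `t ≥ 7` (found by helper58)
-/

set_option autoImplicit false

namespace Pool.Agent.H57.QX.D11

def ctx : Ctx := ⟨7, 18, 11, 3⟩

def base : List Arc := [
    ⟨⟨0, 0⟩, ⟨18, 11⟩, 0, ⟨0, 0⟩⟩,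
    ⟨⟨0, 1⟩, ⟨18, 11⟩, 0, ⟨0, 4⟩⟩,
    ⟨⟨0, 2⟩, ⟨18, 11⟩, 0, ⟨0, 8⟩⟩]

def fam0 : Fam where
  ints := [(⟨12, 20⟩, ⟨18, 11⟩)]
  arcs := [
    ⟨⟨0, 0⟩, ⟨0, 1⟩, 1, ⟨18, 11⟩⟩,
    ⟨⟨0, 3⟩, ⟨0, 1⟩, 1, ⟨18, 17⟩⟩,
    ⟨⟨0, 6⟩, ⟨0, 1⟩, 0, ⟨0, 12⟩⟩,
    ⟨⟨0, 9⟩, ⟨2, 0⟩, 2, ⟨36, 40⟩⟩,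
    ⟨⟨6, 9⟩, ⟨0, 1⟩, 1, ⟨30, 29⟩⟩,
    ⟨⟨6, 12⟩, ⟨2, 0⟩, 0, ⟨12, 24⟩⟩,
    ⟨⟨12, 12⟩, ⟨0, 1⟩, 2, ⟨60, 46⟩⟩,
    ⟨⟨12, 15⟩, ⟨2, 0⟩, 1, ⟨42, 41⟩⟩,
    ⟨⟨18, 15⟩, ⟨0, 1⟩, 0, ⟨36, 30⟩⟩,
    ⟨⟨18, 18⟩, ⟨2, 0⟩, 2, ⟨72, 58⟩⟩,
    ⟨⟨24, 18⟩, ⟨0, 1⟩, 1, ⟨66, 47⟩⟩,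
    ⟨⟨24, 21⟩, ⟨2, 1⟩, 0, ⟨48, 42⟩⟩,
    ⟨⟨30, 24⟩, ⟨0, 1⟩, 2, ⟨96, 70⟩⟩,
    ⟨⟨30, 27⟩, ⟨2, 0⟩, 1, ⟨78, 65⟩⟩,
    ⟨⟨36, 27⟩, ⟨0, 1⟩, 0, ⟨72, 54⟩⟩,
    ⟨⟨36, 30⟩, ⟨2, 0⟩, 2, ⟨108, 82⟩⟩,
    ⟨⟨42, 30⟩, ⟨0, 1⟩, 1, ⟨102, 71⟩⟩,
    ⟨⟨42, 33⟩, ⟨2, 0⟩, 0, ⟨84, 66⟩⟩,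
    ⟨⟨48, 33⟩, ⟨0, 1⟩, 2, ⟨132, 88⟩⟩,
    ⟨⟨48, 36⟩, ⟨2, -1⟩, 1, ⟨114, 83⟩⟩,
    ⟨⟨0, 1⟩, ⟨0, 1⟩, 0, ⟨0, 4⟩⟩,
    ⟨⟨0, 4⟩, ⟨0, 1⟩, 2, ⟨36, 32⟩⟩,
    ⟨⟨0, 7⟩, ⟨2, 0⟩, 1, ⟨18, 27⟩⟩,
    ⟨⟨6, 7⟩, ⟨0, 1⟩, 0, ⟨12, 16⟩⟩,
    ⟨⟨6, 10⟩, ⟨2, 0⟩, 2, ⟨48, 44⟩⟩,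
    ⟨⟨12, 10⟩, ⟨0, 1⟩, 1, ⟨42, 33⟩⟩,
    ⟨⟨12, 13⟩, ⟨2, 0⟩, 0, ⟨24, 28⟩⟩,
    ⟨⟨18, 13⟩, ⟨0, 1⟩, 1, ⟨54, 39⟩⟩,
    ⟨⟨18, 16⟩, ⟨0, 1⟩, 0, ⟨36, 34⟩⟩,
    ⟨⟨18, 19⟩, ⟨2, -1⟩, 1, ⟨54, 51⟩⟩,
    ⟨⟨24, 16⟩, ⟨0, 1⟩, 2, ⟨84, 56⟩⟩,
    ⟨⟨24, 19⟩, ⟨0, 1⟩, 1, ⟨66, 51⟩⟩,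
    ⟨⟨24, 22⟩, ⟨2, 0⟩, 2, ⟨84, 68⟩⟩,
    ⟨⟨30, 22⟩, ⟨0, 1⟩, 1, ⟨78, 57⟩⟩,
    ⟨⟨30, 25⟩, ⟨2, 0⟩, 0, ⟨60, 52⟩⟩,
    ⟨⟨36, 25⟩, ⟨0, 1⟩, 2, ⟨108, 74⟩⟩,
    ⟨⟨36, 28⟩, ⟨2, 0⟩, 1, ⟨90, 69⟩⟩,
    ⟨⟨42, 28⟩, ⟨0, 1⟩, 0, ⟨84, 58⟩⟩,
    ⟨⟨42, 31⟩, ⟨0, 1⟩, 2, ⟨120, 86⟩⟩,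
    ⟨⟨42, 34⟩, ⟨2, -1⟩, 2, ⟨120, 92⟩⟩,
    ⟨⟨48, 31⟩, ⟨0, 1⟩, 0, ⟨96, 64⟩⟩,
    ⟨⟨48, 34⟩, ⟨0, 1⟩, 2, ⟨132, 92⟩⟩,
    ⟨⟨48, 37⟩, ⟨2, -1⟩, 0, ⟨96, 76⟩⟩,
    ⟨⟨0, 2⟩, ⟨0, 1⟩, 1, ⟨18, 19⟩⟩,
    ⟨⟨0, 5⟩, ⟨2, 0⟩, 0, ⟨0, 14⟩⟩,
    ⟨⟨6, 5⟩, ⟨0, 1⟩, 2, ⟨48, 36⟩⟩,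
    ⟨⟨6, 8⟩, ⟨2, 0⟩, 1, ⟨30, 31⟩⟩,
    ⟨⟨12, 8⟩, ⟨0, 1⟩, 0, ⟨24, 20⟩⟩,
    ⟨⟨12, 11⟩, ⟨2, 1⟩, 2, ⟨60, 48⟩⟩,
    ⟨⟨18, 14⟩, ⟨0, 1⟩, 1, ⟨54, 43⟩⟩,
    ⟨⟨18, 17⟩, ⟨2, 0⟩, 0, ⟨36, 38⟩⟩,
    ⟨⟨24, 17⟩, ⟨0, 1⟩, 2, ⟨84, 60⟩⟩,
    ⟨⟨24, 20⟩, ⟨2, 0⟩, 1, ⟨66, 55⟩⟩,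
    ⟨⟨30, 20⟩, ⟨0, 1⟩, 0, ⟨60, 44⟩⟩,
    ⟨⟨30, 23⟩, ⟨2, 0⟩, 2, ⟨96, 72⟩⟩,
    ⟨⟨36, 23⟩, ⟨0, 1⟩, 1, ⟨90, 61⟩⟩,
    ⟨⟨36, 26⟩, ⟨2, 0⟩, 0, ⟨72, 56⟩⟩,
    ⟨⟨42, 26⟩, ⟨0, 1⟩, 2, ⟨120, 78⟩⟩,
    ⟨⟨42, 29⟩, ⟨0, 1⟩, 1, ⟨102, 73⟩⟩,
    ⟨⟨42, 32⟩, ⟨2, 0⟩, 1, ⟨102, 79⟩⟩,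
    ⟨⟨48, 32⟩, ⟨0, 1⟩, 0, ⟨96, 68⟩⟩,
    ⟨⟨48, 35⟩, ⟨2, 0⟩, 2, ⟨132, 96⟩⟩]

theorem ok0 : famOK ctx base fam0 = true := by decide +kernel

def fam1 : Fam where
  ints := [(⟨0, 0⟩, ⟨0, 34⟩)]
  arcs := [
    ⟨⟨0, 0⟩, ⟨0, 6⟩, 1, ⟨18, 11⟩⟩,
    ⟨⟨0, 18⟩, ⟨0, 1⟩, 1, ⟨18, 47⟩⟩,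
    ⟨⟨0, 21⟩, ⟨0, 1⟩, 0, ⟨0, 42⟩⟩,
    ⟨⟨0, 24⟩, ⟨2, 0⟩, 2, ⟨36, 70⟩⟩,
    ⟨⟨6, 24⟩, ⟨0, 1⟩, 1, ⟨30, 59⟩⟩,
    ⟨⟨6, 27⟩, ⟨2, 0⟩, 0, ⟨12, 54⟩⟩,
    ⟨⟨12, 27⟩, ⟨0, 1⟩, 2, ⟨60, 76⟩⟩,
    ⟨⟨12, 30⟩, ⟨2, 0⟩, 1, ⟨42, 71⟩⟩,
    ⟨⟨18, 30⟩, ⟨0, 1⟩, 0, ⟨36, 60⟩⟩,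
    ⟨⟨18, 33⟩, ⟨2, 0⟩, 2, ⟨72, 88⟩⟩,
    ⟨⟨24, 33⟩, ⟨0, 1⟩, 1, ⟨66, 77⟩⟩,
    ⟨⟨24, 36⟩, ⟨2, 1⟩, 0, ⟨48, 72⟩⟩,
    ⟨⟨30, 39⟩, ⟨0, 1⟩, 2, ⟨96, 100⟩⟩,
    ⟨⟨30, 42⟩, ⟨2, 0⟩, 1, ⟨78, 95⟩⟩,
    ⟨⟨36, 42⟩, ⟨0, 1⟩, 0, ⟨72, 84⟩⟩,
    ⟨⟨36, 45⟩, ⟨2, 0⟩, 2, ⟨108, 112⟩⟩,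
    ⟨⟨42, 45⟩, ⟨0, 1⟩, 1, ⟨102, 101⟩⟩,
    ⟨⟨42, 48⟩, ⟨2, 0⟩, 0, ⟨84, 96⟩⟩,
    ⟨⟨48, 48⟩, ⟨0, 1⟩, 2, ⟨132, 118⟩⟩,
    ⟨⟨48, 51⟩, ⟨2, -6⟩, 1, ⟨114, 113⟩⟩,
    ⟨⟨0, 1⟩, ⟨0, 5⟩, 0, ⟨0, 4⟩⟩,
    ⟨⟨0, 16⟩, ⟨0, 1⟩, 0, ⟨0, 34⟩⟩,
    ⟨⟨0, 19⟩, ⟨0, 1⟩, 2, ⟨36, 62⟩⟩,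
    ⟨⟨0, 22⟩, ⟨2, 0⟩, 1, ⟨18, 57⟩⟩,
    ⟨⟨6, 22⟩, ⟨0, 1⟩, 0, ⟨12, 46⟩⟩,
    ⟨⟨6, 25⟩, ⟨2, 0⟩, 2, ⟨48, 74⟩⟩,
    ⟨⟨12, 25⟩, ⟨0, 1⟩, 1, ⟨42, 63⟩⟩,
    ⟨⟨12, 28⟩, ⟨2, 0⟩, 0, ⟨24, 58⟩⟩,
    ⟨⟨18, 28⟩, ⟨0, 1⟩, 1, ⟨54, 69⟩⟩,
    ⟨⟨18, 31⟩, ⟨0, 1⟩, 0, ⟨36, 64⟩⟩,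
    ⟨⟨18, 34⟩, ⟨2, -1⟩, 1, ⟨54, 81⟩⟩,
    ⟨⟨24, 31⟩, ⟨0, 1⟩, 2, ⟨84, 86⟩⟩,
    ⟨⟨24, 34⟩, ⟨0, 1⟩, 1, ⟨66, 81⟩⟩,
    ⟨⟨24, 37⟩, ⟨2, 0⟩, 2, ⟨84, 98⟩⟩,
    ⟨⟨30, 37⟩, ⟨0, 1⟩, 1, ⟨78, 87⟩⟩,
    ⟨⟨30, 40⟩, ⟨2, 0⟩, 0, ⟨60, 82⟩⟩,
    ⟨⟨36, 40⟩, ⟨0, 1⟩, 2, ⟨108, 104⟩⟩,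
    ⟨⟨36, 43⟩, ⟨2, 0⟩, 1, ⟨90, 99⟩⟩,
    ⟨⟨42, 43⟩, ⟨0, 1⟩, 0, ⟨84, 88⟩⟩,
    ⟨⟨42, 46⟩, ⟨0, 1⟩, 2, ⟨120, 116⟩⟩,
    ⟨⟨42, 49⟩, ⟨2, -1⟩, 2, ⟨120, 122⟩⟩,
    ⟨⟨48, 46⟩, ⟨0, 1⟩, 0, ⟨96, 94⟩⟩,
    ⟨⟨48, 49⟩, ⟨0, 1⟩, 2, ⟨132, 122⟩⟩,
    ⟨⟨48, 52⟩, ⟨2, -6⟩, 0, ⟨96, 106⟩⟩,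
    ⟨⟨0, 2⟩, ⟨0, 5⟩, 2, ⟨36, 30⟩⟩,
    ⟨⟨0, 17⟩, ⟨0, 1⟩, 1, ⟨18, 49⟩⟩,
    ⟨⟨0, 20⟩, ⟨2, 0⟩, 0, ⟨0, 44⟩⟩,
    ⟨⟨6, 20⟩, ⟨0, 1⟩, 2, ⟨48, 66⟩⟩,
    ⟨⟨6, 23⟩, ⟨2, 0⟩, 1, ⟨30, 61⟩⟩,
    ⟨⟨12, 23⟩, ⟨0, 1⟩, 0, ⟨24, 50⟩⟩,
    ⟨⟨12, 26⟩, ⟨2, 1⟩, 2, ⟨60, 78⟩⟩,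
    ⟨⟨18, 29⟩, ⟨0, 1⟩, 1, ⟨54, 73⟩⟩,
    ⟨⟨18, 32⟩, ⟨2, 0⟩, 0, ⟨36, 68⟩⟩,
    ⟨⟨24, 32⟩, ⟨0, 1⟩, 2, ⟨84, 90⟩⟩,
    ⟨⟨24, 35⟩, ⟨2, 0⟩, 1, ⟨66, 85⟩⟩,
    ⟨⟨30, 35⟩, ⟨0, 1⟩, 0, ⟨60, 74⟩⟩,
    ⟨⟨30, 38⟩, ⟨2, 0⟩, 2, ⟨96, 102⟩⟩,
    ⟨⟨36, 38⟩, ⟨0, 1⟩, 1, ⟨90, 91⟩⟩,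
    ⟨⟨36, 41⟩, ⟨2, 0⟩, 0, ⟨72, 86⟩⟩,
    ⟨⟨42, 41⟩, ⟨0, 1⟩, 2, ⟨120, 108⟩⟩,
    ⟨⟨42, 44⟩, ⟨0, 1⟩, 1, ⟨102, 103⟩⟩,
    ⟨⟨42, 47⟩, ⟨2, 0⟩, 1, ⟨102, 109⟩⟩,
    ⟨⟨48, 47⟩, ⟨0, 1⟩, 0, ⟨96, 98⟩⟩,
    ⟨⟨48, 50⟩, ⟨2, -5⟩, 2, ⟨132, 126⟩⟩]

theorem ok1 : famOK ctx base fam1 = true := by decide +kernel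

def fam2 : Fam where
  ints := [(⟨0, 33⟩, ⟨6, 28⟩)]
  arcs := [
    ⟨⟨0, 0⟩, ⟨1, 5⟩, 1, ⟨18, 11⟩⟩,
    ⟨⟨3, 15⟩, ⟨0, 1⟩, 1, ⟨24, 41⟩⟩,
    ⟨⟨3, 18⟩, ⟨0, 1⟩, 0, ⟨6, 36⟩⟩,
    ⟨⟨3, 21⟩, ⟨2, 0⟩, 2, ⟨42, 64⟩⟩,
    ⟨⟨9, 21⟩, ⟨0, 1⟩, 1, ⟨36, 53⟩⟩,
    ⟨⟨9, 24⟩, ⟨2, 0⟩, 0, ⟨18, 48⟩⟩,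
    ⟨⟨15, 24⟩, ⟨0, 1⟩, 2, ⟨66, 70⟩⟩,
    ⟨⟨15, 27⟩, ⟨2, 0⟩, 1, ⟨48, 65⟩⟩,
    ⟨⟨21, 27⟩, ⟨0, 1⟩, 0, ⟨42, 54⟩⟩,
    ⟨⟨21, 30⟩, ⟨2, 0⟩, 2, ⟨78, 82⟩⟩,
    ⟨⟨27, 30⟩, ⟨0, 1⟩, 1, ⟨72, 71⟩⟩,
    ⟨⟨27, 33⟩, ⟨2, 1⟩, 0, ⟨54, 66⟩⟩,
    ⟨⟨33, 36⟩, ⟨0, 1⟩, 2, ⟨102, 94⟩⟩,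
    ⟨⟨33, 39⟩, ⟨2, 0⟩, 1, ⟨84, 89⟩⟩,
    ⟨⟨39, 39⟩, ⟨0, 1⟩, 0, ⟨78, 78⟩⟩,
    ⟨⟨39, 42⟩, ⟨2, 0⟩, 2, ⟨114, 106⟩⟩,
    ⟨⟨45, 42⟩, ⟨0, 1⟩, 1, ⟨108, 95⟩⟩,
    ⟨⟨45, 45⟩, ⟨2, 0⟩, 0, ⟨90, 90⟩⟩,
    ⟨⟨51, 45⟩, ⟨0, 1⟩, 2, ⟨138, 112⟩⟩,
    ⟨⟨51, 48⟩, ⟨1, -5⟩, 1, ⟨120, 107⟩⟩,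
    ⟨⟨0, 1⟩, ⟨1, 4⟩, 0, ⟨0, 4⟩⟩,
    ⟨⟨3, 13⟩, ⟨0, 1⟩, 0, ⟨6, 28⟩⟩,
    ⟨⟨3, 16⟩, ⟨0, 1⟩, 2, ⟨42, 56⟩⟩,
    ⟨⟨3, 19⟩, ⟨2, 0⟩, 1, ⟨24, 51⟩⟩,
    ⟨⟨9, 19⟩, ⟨0, 1⟩, 0, ⟨18, 40⟩⟩,
    ⟨⟨9, 22⟩, ⟨2, 0⟩, 2, ⟨54, 68⟩⟩,
    ⟨⟨15, 22⟩, ⟨0, 1⟩, 1, ⟨48, 57⟩⟩,
    ⟨⟨15, 25⟩, ⟨2, 0⟩, 0, ⟨30, 52⟩⟩,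
    ⟨⟨21, 25⟩, ⟨0, 1⟩, 1, ⟨60, 63⟩⟩,
    ⟨⟨21, 28⟩, ⟨0, 1⟩, 0, ⟨42, 58⟩⟩,
    ⟨⟨21, 31⟩, ⟨2, -1⟩, 1, ⟨60, 75⟩⟩,
    ⟨⟨27, 28⟩, ⟨0, 1⟩, 2, ⟨90, 80⟩⟩,
    ⟨⟨27, 31⟩, ⟨0, 1⟩, 1, ⟨72, 75⟩⟩,
    ⟨⟨27, 34⟩, ⟨2, 0⟩, 2, ⟨90, 92⟩⟩,
    ⟨⟨33, 34⟩, ⟨0, 1⟩, 1, ⟨84, 81⟩⟩,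
    ⟨⟨33, 37⟩, ⟨2, 0⟩, 0, ⟨66, 76⟩⟩,
    ⟨⟨39, 37⟩, ⟨0, 1⟩, 2, ⟨114, 98⟩⟩,
    ⟨⟨39, 40⟩, ⟨2, 0⟩, 1, ⟨96, 93⟩⟩,
    ⟨⟨45, 40⟩, ⟨0, 1⟩, 0, ⟨90, 82⟩⟩,
    ⟨⟨45, 43⟩, ⟨0, 1⟩, 2, ⟨126, 110⟩⟩,
    ⟨⟨45, 46⟩, ⟨2, -1⟩, 2, ⟨126, 116⟩⟩,
    ⟨⟨51, 43⟩, ⟨0, 1⟩, 0, ⟨102, 88⟩⟩,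
    ⟨⟨51, 46⟩, ⟨0, 1⟩, 2, ⟨138, 116⟩⟩,
    ⟨⟨51, 49⟩, ⟨1, -5⟩, 0, ⟨102, 100⟩⟩,
    ⟨⟨0, 2⟩, ⟨1, 4⟩, 2, ⟨36, 30⟩⟩,
    ⟨⟨3, 14⟩, ⟨0, 1⟩, 1, ⟨24, 43⟩⟩,
    ⟨⟨3, 17⟩, ⟨2, 0⟩, 0, ⟨6, 38⟩⟩,
    ⟨⟨9, 17⟩, ⟨0, 1⟩, 2, ⟨54, 60⟩⟩,
    ⟨⟨9, 20⟩, ⟨2, 0⟩, 1, ⟨36, 55⟩⟩,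
    ⟨⟨15, 20⟩, ⟨0, 1⟩, 0, ⟨30, 44⟩⟩,
    ⟨⟨15, 23⟩, ⟨2, 1⟩, 2, ⟨66, 72⟩⟩,
    ⟨⟨21, 26⟩, ⟨0, 1⟩, 1, ⟨60, 67⟩⟩,
    ⟨⟨21, 29⟩, ⟨2, 0⟩, 0, ⟨42, 62⟩⟩,
    ⟨⟨27, 29⟩, ⟨0, 1⟩, 2, ⟨90, 84⟩⟩,
    ⟨⟨27, 32⟩, ⟨2, 0⟩, 1, ⟨72, 79⟩⟩,
    ⟨⟨33, 32⟩, ⟨0, 1⟩, 0, ⟨66, 68⟩⟩,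
    ⟨⟨33, 35⟩, ⟨2, 0⟩, 2, ⟨102, 96⟩⟩,
    ⟨⟨39, 35⟩, ⟨0, 1⟩, 1, ⟨96, 85⟩⟩,
    ⟨⟨39, 38⟩, ⟨2, 0⟩, 0, ⟨78, 80⟩⟩,
    ⟨⟨45, 38⟩, ⟨0, 1⟩, 2, ⟨126, 102⟩⟩,
    ⟨⟨45, 41⟩, ⟨0, 1⟩, 1, ⟨108, 97⟩⟩,
    ⟨⟨45, 44⟩, ⟨2, 0⟩, 1, ⟨108, 103⟩⟩,
    ⟨⟨51, 44⟩, ⟨0, 1⟩, 0, ⟨102, 92⟩⟩,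
    ⟨⟨51, 47⟩, ⟨1, -4⟩, 2, ⟨138, 120⟩⟩]

theorem ok2 : famOK ctx base fam2 = true := by decide +kernel

def fam3 : Fam where
  ints := [(⟨6, 27⟩, ⟨12, 22⟩)]
  arcs := [
    ⟨⟨0, 0⟩, ⟨0, 3⟩, 0, ⟨0, 0⟩⟩,
    ⟨⟨0, 9⟩, ⟨0, 1⟩, 2, ⟨36, 40⟩⟩,
    ⟨⟨0, 12⟩, ⟨2, 0⟩, 1, ⟨18, 35⟩⟩,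
    ⟨⟨6, 12⟩, ⟨0, 1⟩, 1, ⟨30, 35⟩⟩,
    ⟨⟨6, 15⟩, ⟨0, 1⟩, 0, ⟨12, 30⟩⟩,
    ⟨⟨6, 18⟩, ⟨2, 0⟩, 2, ⟨48, 58⟩⟩,
    ⟨⟨12, 18⟩, ⟨0, 1⟩, 1, ⟨42, 47⟩⟩,
    ⟨⟨12, 21⟩, ⟨2, 0⟩, 0, ⟨24, 42⟩⟩,
    ⟨⟨18, 21⟩, ⟨0, 1⟩, 2, ⟨72, 64⟩⟩,
    ⟨⟨18, 24⟩, ⟨2, 0⟩, 1, ⟨54, 59⟩⟩,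
    ⟨⟨24, 24⟩, ⟨0, 1⟩, 0, ⟨48, 48⟩⟩,
    ⟨⟨24, 27⟩, ⟨2, 0⟩, 2, ⟨84, 76⟩⟩,
    ⟨⟨30, 27⟩, ⟨0, 1⟩, 1, ⟨78, 65⟩⟩,
    ⟨⟨30, 30⟩, ⟨2, 1⟩, 0, ⟨60, 60⟩⟩,
    ⟨⟨36, 33⟩, ⟨0, 1⟩, 2, ⟨108, 88⟩⟩,
    ⟨⟨36, 36⟩, ⟨2, 0⟩, 1, ⟨90, 83⟩⟩,
    ⟨⟨42, 36⟩, ⟨0, 1⟩, 0, ⟨84, 72⟩⟩,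
    ⟨⟨42, 39⟩, ⟨2, 0⟩, 2, ⟨120, 100⟩⟩,
    ⟨⟨48, 39⟩, ⟨0, 1⟩, 1, ⟨114, 89⟩⟩,
    ⟨⟨48, 42⟩, ⟨2, -3⟩, 0, ⟨96, 84⟩⟩,
    ⟨⟨0, 1⟩, ⟨0, 2⟩, 2, ⟨36, 26⟩⟩,
    ⟨⟨0, 7⟩, ⟨0, 1⟩, 0, ⟨0, 16⟩⟩,
    ⟨⟨0, 10⟩, ⟨0, 1⟩, 2, ⟨36, 44⟩⟩,
    ⟨⟨0, 13⟩, ⟨2, -1⟩, 0, ⟨0, 28⟩⟩,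
    ⟨⟨6, 10⟩, ⟨0, 1⟩, 0, ⟨12, 22⟩⟩,
    ⟨⟨6, 13⟩, ⟨0, 1⟩, 2, ⟨48, 50⟩⟩,
    ⟨⟨6, 16⟩, ⟨2, 0⟩, 1, ⟨30, 45⟩⟩,
    ⟨⟨12, 16⟩, ⟨0, 1⟩, 0, ⟨24, 34⟩⟩,
    ⟨⟨12, 19⟩, ⟨2, 0⟩, 2, ⟨60, 62⟩⟩,
    ⟨⟨18, 19⟩, ⟨0, 1⟩, 1, ⟨54, 51⟩⟩,
    ⟨⟨18, 22⟩, ⟨2, 0⟩, 0, ⟨36, 46⟩⟩,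
    ⟨⟨24, 22⟩, ⟨0, 1⟩, 1, ⟨66, 57⟩⟩,
    ⟨⟨24, 25⟩, ⟨0, 1⟩, 0, ⟨48, 52⟩⟩,
    ⟨⟨24, 28⟩, ⟨2, -1⟩, 1, ⟨66, 69⟩⟩,
    ⟨⟨30, 25⟩, ⟨0, 1⟩, 2, ⟨96, 74⟩⟩,
    ⟨⟨30, 28⟩, ⟨0, 1⟩, 1, ⟨78, 69⟩⟩,
    ⟨⟨30, 31⟩, ⟨2, 0⟩, 2, ⟨96, 86⟩⟩,
    ⟨⟨36, 31⟩, ⟨0, 1⟩, 1, ⟨90, 75⟩⟩,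
    ⟨⟨36, 34⟩, ⟨2, 0⟩, 0, ⟨72, 70⟩⟩,
    ⟨⟨42, 34⟩, ⟨0, 1⟩, 2, ⟨120, 92⟩⟩,
    ⟨⟨42, 37⟩, ⟨2, 0⟩, 1, ⟨102, 87⟩⟩,
    ⟨⟨48, 37⟩, ⟨0, 1⟩, 0, ⟨96, 76⟩⟩,
    ⟨⟨48, 40⟩, ⟨0, 1⟩, 2, ⟨132, 104⟩⟩,
    ⟨⟨48, 43⟩, ⟨2, -3⟩, 2, ⟨132, 110⟩⟩,
    ⟨⟨0, 2⟩, ⟨0, 2⟩, 1, ⟨18, 19⟩⟩,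
    ⟨⟨0, 8⟩, ⟨0, 1⟩, 0, ⟨0, 20⟩⟩,
    ⟨⟨0, 11⟩, ⟨2, 0⟩, 2, ⟨36, 48⟩⟩,
    ⟨⟨6, 11⟩, ⟨0, 1⟩, 1, ⟨30, 37⟩⟩,
    ⟨⟨6, 14⟩, ⟨2, 0⟩, 0, ⟨12, 32⟩⟩,
    ⟨⟨12, 14⟩, ⟨0, 1⟩, 2, ⟨60, 54⟩⟩,
    ⟨⟨12, 17⟩, ⟨2, 0⟩, 1, ⟨42, 49⟩⟩,
    ⟨⟨18, 17⟩, ⟨0, 1⟩, 0, ⟨36, 38⟩⟩,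
    ⟨⟨18, 20⟩, ⟨2, 1⟩, 2, ⟨72, 66⟩⟩,
    ⟨⟨24, 23⟩, ⟨0, 1⟩, 1, ⟨66, 61⟩⟩,
    ⟨⟨24, 26⟩, ⟨2, 0⟩, 0, ⟨48, 56⟩⟩,
    ⟨⟨30, 26⟩, ⟨0, 1⟩, 2, ⟨96, 78⟩⟩,
    ⟨⟨30, 29⟩, ⟨2, 0⟩, 1, ⟨78, 73⟩⟩,
    ⟨⟨36, 29⟩, ⟨0, 1⟩, 0, ⟨72, 62⟩⟩,
    ⟨⟨36, 32⟩, ⟨2, 0⟩, 2, ⟨108, 90⟩⟩,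
    ⟨⟨42, 32⟩, ⟨0, 1⟩, 1, ⟨102, 79⟩⟩,
    ⟨⟨42, 35⟩, ⟨2, 0⟩, 0, ⟨84, 74⟩⟩,
    ⟨⟨48, 35⟩, ⟨0, 1⟩, 2, ⟨132, 96⟩⟩,
    ⟨⟨48, 38⟩, ⟨0, 1⟩, 1, ⟨114, 91⟩⟩,
    ⟨⟨48, 41⟩, ⟨2, -2⟩, 1, ⟨114, 97⟩⟩]

theorem ok3 : famOK ctx base fam3 = true := by decide +kernel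

def cover : List (Aff × Aff) := [(⟨0, 0⟩, ⟨0, 34⟩), (⟨0, 33⟩, ⟨6, 28⟩), (⟨6, 27⟩, ⟨12, 22⟩), (⟨12, 20⟩, ⟨18, 11⟩)]

theorem ok : allOK ctx base [fam0, fam1, fam2, fam3] cover = true := by
  have h : (cov ctx [fam0, fam1, fam2, fam3] cover ⟨0, 0⟩ && pos ctx ctx.k && decide (0 < ctx.P) && baseOK ctx base) = true := by decide +kernel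
  simp only [allOK, List.all_cons, List.all_nil, Bool.and_true, ok0, ok1, ok2, ok3, Bool.true_and]
  exact h

end Pool.Agent.H57.QX.D11
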