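import Pool.Agent.H57.QX.Fam

/-!
# Exact families: `k = 18 t + 13`, `t ≥ 3` (found by helper58)
-/

set_option autoImplicit false

namespace Pool.Agent.H57.QX.D13

def ctx : Ctx := ⟨3, 18, 13, 3⟩

def base : List Arc := [
    ⟨⟨0, 0⟩, ⟨18, 13⟩, 0, ⟨0, 0⟩⟩,
    ⟨⟨0, 1⟩, ⟨18, 13⟩, 0, ⟨0, 4⟩⟩,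
    ⟨⟨0, 2⟩, ⟨18, 13⟩, 0, ⟨0, 8⟩⟩]

def fam0 : Fam where
  ints := [(⟨6, 11⟩, ⟨18, 13⟩)]
  arcs := [
    ⟨⟨0, 0⟩, ⟨0, 1⟩, 2, ⟨36, 26⟩⟩,
    ⟨⟨0, 3⟩, ⟨0, 1⟩, 2, ⟨36, 32⟩⟩,
    ⟨⟨0, 6⟩, ⟨2, 1⟩, 0, ⟨0, 12⟩⟩,
    ⟨⟨6, 9⟩, ⟨2, 1⟩, 1, ⟨30, 31⟩⟩,
    ⟨⟨12, 12⟩, ⟨2, 2⟩, 2, ⟨60, 50⟩⟩,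
    ⟨⟨18, 18⟩, ⟨2, 1⟩, 0, ⟨36, 36⟩⟩,
    ⟨⟨24, 21⟩, ⟨2, 2⟩, 1, ⟨66, 55⟩⟩,
    ⟨⟨30, 27⟩, ⟨2, 1⟩, 2, ⟨96, 80⟩⟩,
    ⟨⟨36, 30⟩, ⟨2, 2⟩, 0, ⟨72, 60⟩⟩,
    ⟨⟨42, 36⟩, ⟨2, 1⟩, 1, ⟨102, 85⟩⟩,
    ⟨⟨48, 39⟩, ⟨2, 0⟩, 2, ⟨132, 104⟩⟩,
    ⟨⟨0, 1⟩, ⟨0, 1⟩, 0, ⟨0, 4⟩⟩,
    ⟨⟨0, 4⟩, ⟨2, 1⟩, 1, ⟨18, 23⟩⟩,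
    ⟨⟨6, 7⟩, ⟨2, 1⟩, 2, ⟨48, 42⟩⟩,
    ⟨⟨12, 10⟩, ⟨0, 1⟩, 1, ⟨42, 35⟩⟩,
    ⟨⟨12, 13⟩, ⟨2, 1⟩, 0, ⟨24, 28⟩⟩,
    ⟨⟨18, 16⟩, ⟨2, 1⟩, 1, ⟨54, 47⟩⟩,
    ⟨⟨24, 19⟩, ⟨0, 1⟩, 0, ⟨48, 40⟩⟩,
    ⟨⟨24, 22⟩, ⟨2, 1⟩, 2, ⟨84, 72⟩⟩,
    ⟨⟨30, 25⟩, ⟨2, 1⟩, 0, ⟨60, 52⟩⟩,
    ⟨⟨36, 28⟩, ⟨0, 1⟩, 2, ⟨108, 84⟩⟩,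
    ⟨⟨36, 31⟩, ⟨2, 1⟩, 1, ⟨90, 77⟩⟩,
    ⟨⟨42, 34⟩, ⟨2, 1⟩, 2, ⟨120, 96⟩⟩,
    ⟨⟨48, 37⟩, ⟨0, 1⟩, 0, ⟨96, 76⟩⟩,
    ⟨⟨48, 40⟩, ⟨2, 0⟩, 0, ⟨96, 82⟩⟩,
    ⟨⟨0, 2⟩, ⟨2, 1⟩, 2, ⟨36, 34⟩⟩,
    ⟨⟨6, 5⟩, ⟨2, 2⟩, 0, ⟨12, 14⟩⟩,
    ⟨⟨12, 11⟩, ⟨2, 1⟩, 1, ⟨42, 39⟩⟩,
    ⟨⟨18, 14⟩, ⟨2, 2⟩, 2, ⟨72, 58⟩⟩,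
    ⟨⟨24, 20⟩, ⟨2, 1⟩, 0, ⟨48, 44⟩⟩,
    ⟨⟨30, 23⟩, ⟨2, 2⟩, 1, ⟨78, 63⟩⟩,
    ⟨⟨36, 29⟩, ⟨2, 1⟩, 2, ⟨108, 88⟩⟩,
    ⟨⟨42, 32⟩, ⟨2, 1⟩, 0, ⟨84, 68⟩⟩,
    ⟨⟨48, 35⟩, ⟨0, 1⟩, 1, ⟨114, 87⟩⟩,
    ⟨⟨48, 38⟩, ⟨2, 1⟩, 1, ⟨114, 93⟩⟩]

theorem ok0 : famOK ctx base fam0 = true := by decide +kernel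

def fam1 : Fam where
  ints := [(⟨0, 0⟩, ⟨6, 16⟩)]
  arcs := [
    ⟨⟨0, 0⟩, ⟨1, 3⟩, 2, ⟨36, 26⟩⟩,
    ⟨⟨3, 9⟩, ⟨0, 1⟩, 2, ⟨42, 44⟩⟩,
    ⟨⟨3, 12⟩, ⟨2, 1⟩, 0, ⟨6, 24⟩⟩,
    ⟨⟨9, 15⟩, ⟨2, 1⟩, 1, ⟨36, 43⟩⟩,
    ⟨⟨15, 18⟩, ⟨2, 2⟩, 2, ⟨66, 62⟩⟩,
    ⟨⟨21, 24⟩, ⟨2, 1⟩, 0, ⟨42, 48⟩⟩,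
    ⟨⟨27, 27⟩, ⟨2, 2⟩, 1, ⟨72, 67⟩⟩,
    ⟨⟨33, 33⟩, ⟨2, 1⟩, 2, ⟨102, 92⟩⟩,
    ⟨⟨39, 36⟩, ⟨2, 2⟩, 0, ⟨78, 72⟩⟩,
    ⟨⟨45, 42⟩, ⟨2, 1⟩, 1, ⟨108, 97⟩⟩,
    ⟨⟨51, 45⟩, ⟨1, -2⟩, 2, ⟨138, 116⟩⟩,
    ⟨⟨0, 1⟩, ⟨1, 2⟩, 0, ⟨0, 4⟩⟩,
    ⟨⟨3, 7⟩, ⟨0, 1⟩, 0, ⟨6, 16⟩⟩,
    ⟨⟨3, 10⟩, ⟨2, 1⟩, 1, ⟨24, 35⟩⟩,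
    ⟨⟨9, 13⟩, ⟨2, 1⟩, 2, ⟨54, 54⟩⟩,
    ⟨⟨15, 16⟩, ⟨0, 1⟩, 1, ⟨48, 47⟩⟩,
    ⟨⟨15, 19⟩, ⟨2, 1⟩, 0, ⟨30, 40⟩⟩,
    ⟨⟨21, 22⟩, ⟨2, 1⟩, 1, ⟨60, 59⟩⟩,
    ⟨⟨27, 25⟩, ⟨0, 1⟩, 0, ⟨54, 52⟩⟩,
    ⟨⟨27, 28⟩, ⟨2, 1⟩, 2, ⟨90, 84⟩⟩,
    ⟨⟨33, 31⟩, ⟨2, 1⟩, 0, ⟨66, 64⟩⟩,
    ⟨⟨39, 34⟩, ⟨0, 1⟩, 2, ⟨114, 96⟩⟩,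
    ⟨⟨39, 37⟩, ⟨2, 1⟩, 1, ⟨96, 89⟩⟩,
    ⟨⟨45, 40⟩, ⟨2, 1⟩, 2, ⟨126, 108⟩⟩,
    ⟨⟨51, 43⟩, ⟨0, 1⟩, 0, ⟨102, 88⟩⟩,
    ⟨⟨51, 46⟩, ⟨1, -2⟩, 0, ⟨102, 94⟩⟩,
    ⟨⟨0, 2⟩, ⟨1, 2⟩, 1, ⟨18, 21⟩⟩,
    ⟨⟨3, 8⟩, ⟨2, 1⟩, 2, ⟨42, 46⟩⟩,
    ⟨⟨9, 11⟩, ⟨2, 2⟩, 0, ⟨18, 26⟩⟩,
    ⟨⟨15, 17⟩, ⟨2, 1⟩, 1, ⟨48, 51⟩⟩,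
    ⟨⟨21, 20⟩, ⟨2, 2⟩, 2, ⟨78, 70⟩⟩,
    ⟨⟨27, 26⟩, ⟨2, 1⟩, 0, ⟨54, 56⟩⟩,
    ⟨⟨33, 29⟩, ⟨2, 2⟩, 1, ⟨84, 75⟩⟩,
    ⟨⟨39, 35⟩, ⟨2, 1⟩, 2, ⟨114, 100⟩⟩,
    ⟨⟨45, 38⟩, ⟨2, 1⟩, 0, ⟨90, 80⟩⟩,
    ⟨⟨51, 41⟩, ⟨0, 1⟩, 1, ⟨120, 99⟩⟩,
    ⟨⟨51, 44⟩, ⟨1, -1⟩, 1, ⟨120, 105⟩⟩]

theorem ok1 : famOK ctx base fam1 = true := by decide +kernel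

def cover : List (Aff × Aff) := [(⟨0, 0⟩, ⟨6, 16⟩), (⟨6, 11⟩, ⟨18, 13⟩)]

theorem ok : allOK ctx base [fam0, fam1] cover = true := by
  have h : (cov ctx [fam0, fam1] cover ⟨0, 0⟩ && pos ctx ctx.k && decide (0 < ctx.P) && baseOK ctx base) = true := by decide +kernel
  simp only [allOK, List.all_cons, List.all_nil, Bool.and_true, ok0, ok1, Bool.true_and]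
  exact h

end Pool.Agent.H57.QX.D13
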