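import Pool.Agent.H57.QX.Fam

/-!
# Exact families: `k = 18 t + 17`, `t ≥ 5` (found by helper58)
-/

set_option autoImplicit false

namespace Pool.Agent.H57.QX.D17

def ctx : Ctx := ⟨5, 18, 17, 3⟩

def base : List Arc := [
    ⟨⟨0, 0⟩, ⟨18, 17⟩, 0, ⟨0, 0⟩⟩,
    ⟨⟨0, 1⟩, ⟨18, 17⟩, 0, ⟨0, 10⟩⟩,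
    ⟨⟨0, 2⟩, ⟨18, 17⟩, 0, ⟨0, 8⟩⟩]

def fam0 : Fam where
  ints := [(⟨6, 25⟩, ⟨18, 17⟩)]
  arcs := [
    ⟨⟨0, 0⟩, ⟨0, 2⟩, 2, ⟨36, 34⟩⟩,
    ⟨⟨0, 6⟩, ⟨0, 1⟩, 2, ⟨36, 46⟩⟩,
    ⟨⟨0, 9⟩, ⟨0, 1⟩, 2, ⟨36, 52⟩⟩,
    ⟨⟨0, 12⟩, ⟨2, 1⟩, 0, ⟨0, 24⟩⟩,
    ⟨⟨6, 15⟩, ⟨2, 1⟩, 1, ⟨30, 47⟩⟩,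
    ⟨⟨12, 18⟩, ⟨2, 3⟩, 2, ⟨60, 70⟩⟩,
    ⟨⟨18, 27⟩, ⟨2, 1⟩, 0, ⟨36, 54⟩⟩,
    ⟨⟨24, 30⟩, ⟨2, 3⟩, 1, ⟨66, 77⟩⟩,
    ⟨⟨30, 39⟩, ⟨2, 1⟩, 2, ⟨96, 112⟩⟩,
    ⟨⟨36, 42⟩, ⟨2, 3⟩, 0, ⟨72, 84⟩⟩,
    ⟨⟨42, 51⟩, ⟨2, 1⟩, 1, ⟨102, 119⟩⟩,
    ⟨⟨48, 54⟩, ⟨2, -1⟩, 2, ⟨132, 142⟩⟩,
    ⟨⟨0, 1⟩, ⟨0, 1⟩, 1, ⟨18, 27⟩⟩,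
    ⟨⟨0, 4⟩, ⟨2, 1⟩, 2, ⟨36, 50⟩⟩,
    ⟨⟨6, 7⟩, ⟨2, 3⟩, 0, ⟨12, 22⟩⟩,
    ⟨⟨12, 16⟩, ⟨2, 1⟩, 1, ⟨42, 57⟩⟩,
    ⟨⟨18, 19⟩, ⟨2, 3⟩, 2, ⟨72, 80⟩⟩,
    ⟨⟨24, 28⟩, ⟨2, 1⟩, 0, ⟨48, 64⟩⟩,
    ⟨⟨30, 31⟩, ⟨2, 3⟩, 1, ⟨78, 87⟩⟩,
    ⟨⟨36, 40⟩, ⟨2, 1⟩, 2, ⟨108, 122⟩⟩,
    ⟨⟨42, 43⟩, ⟨2, 1⟩, 0, ⟨84, 94⟩⟩,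
    ⟨⟨48, 46⟩, ⟨0, 1⟩, 1, ⟨114, 117⟩⟩,
    ⟨⟨48, 49⟩, ⟨0, 1⟩, 1, ⟨114, 123⟩⟩,
    ⟨⟨48, 52⟩, ⟨2, 0⟩, 1, ⟨114, 129⟩⟩,
    ⟨⟨0, 2⟩, ⟨0, 1⟩, 0, ⟨0, 8⟩⟩,
    ⟨⟨0, 5⟩, ⟨0, 1⟩, 0, ⟨0, 14⟩⟩,
    ⟨⟨0, 8⟩, ⟨2, 1⟩, 1, ⟨18, 37⟩⟩,
    ⟨⟨6, 11⟩, ⟨2, 1⟩, 2, ⟨48, 60⟩⟩,
    ⟨⟨12, 14⟩, ⟨0, 2⟩, 1, ⟨42, 49⟩⟩,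
    ⟨⟨12, 20⟩, ⟨2, 1⟩, 0, ⟨24, 44⟩⟩,
    ⟨⟨18, 23⟩, ⟨2, 1⟩, 1, ⟨54, 67⟩⟩,
    ⟨⟨24, 26⟩, ⟨0, 2⟩, 0, ⟨48, 56⟩⟩,
    ⟨⟨24, 32⟩, ⟨2, 1⟩, 2, ⟨84, 102⟩⟩,
    ⟨⟨30, 35⟩, ⟨2, 1⟩, 0, ⟨60, 74⟩⟩,
    ⟨⟨36, 38⟩, ⟨0, 2⟩, 2, ⟨108, 114⟩⟩,
    ⟨⟨36, 44⟩, ⟨2, 1⟩, 1, ⟨90, 109⟩⟩,
    ⟨⟨42, 47⟩, ⟨2, 1⟩, 2, ⟨120, 132⟩⟩,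
    ⟨⟨48, 50⟩, ⟨0, 1⟩, 0, ⟨96, 104⟩⟩,
    ⟨⟨48, 53⟩, ⟨0, 1⟩, 0, ⟨96, 110⟩⟩,
    ⟨⟨48, 56⟩, ⟨2, -1⟩, 0, ⟨96, 116⟩⟩]

theorem ok0 : famOK ctx base fam0 = true := by decide +kernel

def fam1 : Fam where
  ints := [(⟨0, 0⟩, ⟨6, 26⟩)]
  arcs := [
    ⟨⟨0, 0⟩, ⟨1, 5⟩, 2, ⟨36, 34⟩⟩,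
    ⟨⟨3, 15⟩, ⟨0, 1⟩, 2, ⟨42, 64⟩⟩,
    ⟨⟨3, 18⟩, ⟨0, 1⟩, 2, ⟨42, 70⟩⟩,
    ⟨⟨3, 21⟩, ⟨2, 1⟩, 0, ⟨6, 42⟩⟩,
    ⟨⟨9, 24⟩, ⟨2, 1⟩, 1, ⟨36, 65⟩⟩,
    ⟨⟨15, 27⟩, ⟨2, 3⟩, 2, ⟨66, 88⟩⟩,
    ⟨⟨21, 36⟩, ⟨2, 1⟩, 0, ⟨42, 72⟩⟩,
    ⟨⟨27, 39⟩, ⟨2, 3⟩, 1, ⟨72, 95⟩⟩,
    ⟨⟨33, 48⟩, ⟨2, 1⟩, 2, ⟨102, 130⟩⟩,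
    ⟨⟨39, 51⟩, ⟨2, 3⟩, 0, ⟨78, 102⟩⟩,
    ⟨⟨45, 60⟩, ⟨2, 1⟩, 1, ⟨108, 137⟩⟩,
    ⟨⟨51, 63⟩, ⟨1, -4⟩, 2, ⟨138, 160⟩⟩,
    ⟨⟨0, 1⟩, ⟨1, 4⟩, 1, ⟨18, 27⟩⟩,
    ⟨⟨3, 13⟩, ⟨2, 1⟩, 2, ⟨42, 68⟩⟩,
    ⟨⟨9, 16⟩, ⟨2, 3⟩, 0, ⟨18, 40⟩⟩,
    ⟨⟨15, 25⟩, ⟨2, 1⟩, 1, ⟨48, 75⟩⟩,
    ⟨⟨21, 28⟩, ⟨2, 3⟩, 2, ⟨78, 98⟩⟩,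
    ⟨⟨27, 37⟩, ⟨2, 1⟩, 0, ⟨54, 82⟩⟩,
    ⟨⟨33, 40⟩, ⟨2, 3⟩, 1, ⟨84, 105⟩⟩,
    ⟨⟨39, 49⟩, ⟨2, 1⟩, 2, ⟨114, 140⟩⟩,
    ⟨⟨45, 52⟩, ⟨2, 1⟩, 0, ⟨90, 112⟩⟩,
    ⟨⟨51, 55⟩, ⟨0, 1⟩, 1, ⟨120, 135⟩⟩,
    ⟨⟨51, 58⟩, ⟨0, 1⟩, 1, ⟨120, 141⟩⟩,
    ⟨⟨51, 61⟩, ⟨1, -3⟩, 1, ⟨120, 147⟩⟩,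
    ⟨⟨0, 2⟩, ⟨1, 3⟩, 0, ⟨0, 8⟩⟩,
    ⟨⟨3, 11⟩, ⟨0, 1⟩, 0, ⟨6, 26⟩⟩,
    ⟨⟨3, 14⟩, ⟨0, 1⟩, 0, ⟨6, 32⟩⟩,
    ⟨⟨3, 17⟩, ⟨2, 1⟩, 1, ⟨24, 55⟩⟩,
    ⟨⟨9, 20⟩, ⟨2, 1⟩, 2, ⟨54, 78⟩⟩,
    ⟨⟨15, 23⟩, ⟨0, 2⟩, 1, ⟨48, 67⟩⟩,
    ⟨⟨15, 29⟩, ⟨2, 1⟩, 0, ⟨30, 62⟩⟩,
    ⟨⟨21, 32⟩, ⟨2, 1⟩, 1, ⟨60, 85⟩⟩,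
    ⟨⟨27, 35⟩, ⟨0, 2⟩, 0, ⟨54, 74⟩⟩,
    ⟨⟨27, 41⟩, ⟨2, 1⟩, 2, ⟨90, 120⟩⟩,
    ⟨⟨33, 44⟩, ⟨2, 1⟩, 0, ⟨66, 92⟩⟩,
    ⟨⟨39, 47⟩, ⟨0, 2⟩, 2, ⟨114, 132⟩⟩,
    ⟨⟨39, 53⟩, ⟨2, 1⟩, 1, ⟨96, 127⟩⟩,
    ⟨⟨45, 56⟩, ⟨2, 1⟩, 2, ⟨126, 150⟩⟩,
    ⟨⟨51, 59⟩, ⟨0, 1⟩, 0, ⟨102, 122⟩⟩,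
    ⟨⟨51, 62⟩, ⟨0, 1⟩, 0, ⟨102, 128⟩⟩,
    ⟨⟨51, 65⟩, ⟨1, -4⟩, 0, ⟨102, 134⟩⟩]

theorem ok1 : famOK ctx base fam1 = true := by decide +kernel

def cover : List (Aff × Aff) := [(⟨0, 0⟩, ⟨6, 26⟩), (⟨6, 25⟩, ⟨18, 17⟩)]

theorem ok : allOK ctx base [fam0, fam1] cover = true := by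
  have h : (cov ctx [fam0, fam1] cover ⟨0, 0⟩ && pos ctx ctx.k && decide (0 < ctx.P) && baseOK ctx base) = true := by decide +kernel
  simp only [allOK, List.all_cons, List.all_nil, Bool.and_true, ok0, ok1, Bool.true_and]
  exact h

end Pool.Agent.H57.QX.D17
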