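import Pool.Agent.H57.QX.Fam

/-!
# Exact families: `k = 18 t + 5`, `t ≥ 6` (found by helper58)
-/

set_option autoImplicit false

namespace Pool.Agent.H57.QX.D5

def ctx : Ctx := ⟨6, 18, 5, 3⟩

def base : List Arc := [
    ⟨⟨0, 0⟩, ⟨18, 5⟩, 0, ⟨0, 0⟩⟩,
    ⟨⟨0, 1⟩, ⟨18, 5⟩, 0, ⟨0, 4⟩⟩,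
    ⟨⟨0, 2⟩, ⟨18, 5⟩, 0, ⟨0, 8⟩⟩]

def fam0 : Fam where
  ints := [(⟨6, 17⟩, ⟨18, 5⟩)]
  arcs := [
    ⟨⟨0, 0⟩, ⟨0, 2⟩, 0, ⟨0, 0⟩⟩,
    ⟨⟨0, 6⟩, ⟨0, 1⟩, 2, ⟨36, 22⟩⟩,
    ⟨⟨0, 9⟩, ⟨2, 0⟩, 1, ⟨18, 23⟩⟩,
    ⟨⟨6, 9⟩, ⟨0, 1⟩, 0, ⟨12, 18⟩⟩,
    ⟨⟨6, 12⟩, ⟨2, -1⟩, 2, ⟨48, 34⟩⟩,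
    ⟨⟨12, 9⟩, ⟨0, 1⟩, 1, ⟨42, 23⟩⟩,
    ⟨⟨12, 12⟩, ⟨2, 0⟩, 0, ⟨24, 24⟩⟩,
    ⟨⟨18, 12⟩, ⟨0, 1⟩, 2, ⟨72, 34⟩⟩,
    ⟨⟨18, 15⟩, ⟨2, -1⟩, 1, ⟨54, 35⟩⟩,
    ⟨⟨24, 12⟩, ⟨0, 1⟩, 0, ⟨48, 24⟩⟩,
    ⟨⟨24, 15⟩, ⟨2, 0⟩, 2, ⟨84, 40⟩⟩,
    ⟨⟨30, 15⟩, ⟨0, 1⟩, 1, ⟨78, 35⟩⟩,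
    ⟨⟨30, 18⟩, ⟨2, -1⟩, 0, ⟨60, 36⟩⟩,
    ⟨⟨36, 15⟩, ⟨0, 1⟩, 2, ⟨108, 40⟩⟩,
    ⟨⟨36, 18⟩, ⟨2, 0⟩, 1, ⟨90, 41⟩⟩,
    ⟨⟨42, 18⟩, ⟨0, 1⟩, 0, ⟨84, 36⟩⟩,
    ⟨⟨42, 21⟩, ⟨2, -1⟩, 2, ⟨120, 52⟩⟩,
    ⟨⟨48, 18⟩, ⟨0, 1⟩, 2, ⟨132, 46⟩⟩,
    ⟨⟨48, 21⟩, ⟨0, 1⟩, 1, ⟨114, 47⟩⟩,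
    ⟨⟨48, 24⟩, ⟨2, -3⟩, 0, ⟨96, 48⟩⟩,
    ⟨⟨0, 1⟩, ⟨0, 1⟩, 2, ⟨36, 14⟩⟩,
    ⟨⟨0, 4⟩, ⟨0, 1⟩, 1, ⟨18, 15⟩⟩,
    ⟨⟨0, 7⟩, ⟨0, 1⟩, 0, ⟨0, 16⟩⟩,
    ⟨⟨0, 10⟩, ⟨2, -1⟩, 0, ⟨0, 22⟩⟩,
    ⟨⟨6, 7⟩, ⟨0, 1⟩, 2, ⟨48, 26⟩⟩,
    ⟨⟨6, 10⟩, ⟨2, -1⟩, 1, ⟨30, 27⟩⟩,
    ⟨⟨12, 7⟩, ⟨0, 1⟩, 2, ⟨60, 26⟩⟩,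
    ⟨⟨12, 10⟩, ⟨0, 1⟩, 1, ⟨42, 27⟩⟩,
    ⟨⟨12, 13⟩, ⟨2, -1⟩, 2, ⟨60, 38⟩⟩,
    ⟨⟨18, 10⟩, ⟨0, 1⟩, 1, ⟨54, 27⟩⟩,
    ⟨⟨18, 13⟩, ⟨2, -1⟩, 0, ⟨36, 28⟩⟩,
    ⟨⟨24, 10⟩, ⟨0, 1⟩, 1, ⟨66, 27⟩⟩,
    ⟨⟨24, 13⟩, ⟨0, 1⟩, 0, ⟨48, 28⟩⟩,
    ⟨⟨24, 16⟩, ⟨2, -1⟩, 1, ⟨66, 39⟩⟩,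
    ⟨⟨30, 13⟩, ⟨0, 1⟩, 0, ⟨60, 28⟩⟩,
    ⟨⟨30, 16⟩, ⟨2, -1⟩, 2, ⟨96, 44⟩⟩,
    ⟨⟨36, 13⟩, ⟨0, 1⟩, 0, ⟨72, 28⟩⟩,
    ⟨⟨36, 16⟩, ⟨0, 1⟩, 2, ⟨108, 44⟩⟩,
    ⟨⟨36, 19⟩, ⟨2, -1⟩, 0, ⟨72, 40⟩⟩,
    ⟨⟨42, 16⟩, ⟨0, 1⟩, 2, ⟨120, 44⟩⟩,
    ⟨⟨42, 19⟩, ⟨2, -1⟩, 1, ⟨102, 45⟩⟩,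
    ⟨⟨48, 16⟩, ⟨0, 1⟩, 1, ⟨114, 39⟩⟩,
    ⟨⟨48, 19⟩, ⟨0, 1⟩, 0, ⟨96, 40⟩⟩,
    ⟨⟨48, 22⟩, ⟨2, -2⟩, 2, ⟨132, 56⟩⟩,
    ⟨⟨0, 2⟩, ⟨0, 1⟩, 0, ⟨0, 8⟩⟩,
    ⟨⟨0, 5⟩, ⟨0, 1⟩, 2, ⟨36, 24⟩⟩,
    ⟨⟨0, 8⟩, ⟨2, -1⟩, 2, ⟨36, 30⟩⟩,
    ⟨⟨6, 5⟩, ⟨0, 1⟩, 1, ⟨30, 19⟩⟩,
    ⟨⟨6, 8⟩, ⟨2, 0⟩, 0, ⟨12, 20⟩⟩,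
    ⟨⟨12, 8⟩, ⟨0, 1⟩, 2, ⟨60, 30⟩⟩,
    ⟨⟨12, 11⟩, ⟨2, -1⟩, 1, ⟨42, 31⟩⟩,
    ⟨⟨18, 8⟩, ⟨0, 1⟩, 0, ⟨36, 20⟩⟩,
    ⟨⟨18, 11⟩, ⟨2, 0⟩, 2, ⟨72, 36⟩⟩,
    ⟨⟨24, 11⟩, ⟨0, 1⟩, 1, ⟨66, 31⟩⟩,
    ⟨⟨24, 14⟩, ⟨2, -1⟩, 0, ⟨48, 32⟩⟩,
    ⟨⟨30, 11⟩, ⟨0, 1⟩, 2, ⟨96, 36⟩⟩,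
    ⟨⟨30, 14⟩, ⟨2, 0⟩, 1, ⟨78, 37⟩⟩,
    ⟨⟨36, 14⟩, ⟨0, 1⟩, 0, ⟨72, 32⟩⟩,
    ⟨⟨36, 17⟩, ⟨2, -1⟩, 2, ⟨108, 48⟩⟩,
    ⟨⟨42, 14⟩, ⟨0, 1⟩, 1, ⟨102, 37⟩⟩,
    ⟨⟨42, 17⟩, ⟨2, 0⟩, 0, ⟨84, 38⟩⟩,
    ⟨⟨48, 17⟩, ⟨0, 1⟩, 2, ⟨132, 48⟩⟩,
    ⟨⟨48, 20⟩, ⟨2, -1⟩, 1, ⟨114, 49⟩⟩]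

theorem ok0 : famOK ctx base fam0 = true := by decide +kernel

def fam1 : Fam where
  ints := [(⟨0, 0⟩, ⟨6, 20⟩)]
  arcs := [
    ⟨⟨0, 0⟩, ⟨1, 4⟩, 0, ⟨0, 0⟩⟩,
    ⟨⟨3, 12⟩, ⟨0, 1⟩, 2, ⟨42, 34⟩⟩,
    ⟨⟨3, 15⟩, ⟨2, 0⟩, 1, ⟨24, 35⟩⟩,
    ⟨⟨9, 15⟩, ⟨0, 1⟩, 0, ⟨18, 30⟩⟩,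
    ⟨⟨9, 18⟩, ⟨2, -1⟩, 2, ⟨54, 46⟩⟩,
    ⟨⟨15, 15⟩, ⟨0, 1⟩, 1, ⟨48, 35⟩⟩,
    ⟨⟨15, 18⟩, ⟨2, 0⟩, 0, ⟨30, 36⟩⟩,
    ⟨⟨21, 18⟩, ⟨0, 1⟩, 2, ⟨78, 46⟩⟩,
    ⟨⟨21, 21⟩, ⟨2, -1⟩, 1, ⟨60, 47⟩⟩,
    ⟨⟨27, 18⟩, ⟨0, 1⟩, 0, ⟨54, 36⟩⟩,
    ⟨⟨27, 21⟩, ⟨2, 0⟩, 2, ⟨90, 52⟩⟩,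
    ⟨⟨33, 21⟩, ⟨0, 1⟩, 1, ⟨84, 47⟩⟩,
    ⟨⟨33, 24⟩, ⟨2, -1⟩, 0, ⟨66, 48⟩⟩,
    ⟨⟨39, 21⟩, ⟨0, 1⟩, 2, ⟨114, 52⟩⟩,
    ⟨⟨39, 24⟩, ⟨2, 0⟩, 1, ⟨96, 53⟩⟩,
    ⟨⟨45, 24⟩, ⟨0, 1⟩, 0, ⟨90, 48⟩⟩,
    ⟨⟨45, 27⟩, ⟨2, -1⟩, 2, ⟨126, 64⟩⟩,
    ⟨⟨51, 24⟩, ⟨0, 1⟩, 2, ⟨138, 58⟩⟩,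
    ⟨⟨51, 27⟩, ⟨0, 1⟩, 1, ⟨120, 59⟩⟩,
    ⟨⟨51, 30⟩, ⟨1, -5⟩, 0, ⟨102, 60⟩⟩,
    ⟨⟨0, 1⟩, ⟨1, 3⟩, 2, ⟨36, 14⟩⟩,
    ⟨⟨3, 10⟩, ⟨0, 1⟩, 1, ⟨24, 27⟩⟩,
    ⟨⟨3, 13⟩, ⟨0, 1⟩, 0, ⟨6, 28⟩⟩,
    ⟨⟨3, 16⟩, ⟨2, -1⟩, 0, ⟨6, 34⟩⟩,
    ⟨⟨9, 13⟩, ⟨0, 1⟩, 2, ⟨54, 38⟩⟩,
    ⟨⟨9, 16⟩, ⟨2, -1⟩, 1, ⟨36, 39⟩⟩,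
    ⟨⟨15, 13⟩, ⟨0, 1⟩, 2, ⟨66, 38⟩⟩,
    ⟨⟨15, 16⟩, ⟨0, 1⟩, 1, ⟨48, 39⟩⟩,
    ⟨⟨15, 19⟩, ⟨2, -1⟩, 2, ⟨66, 50⟩⟩,
    ⟨⟨21, 16⟩, ⟨0, 1⟩, 1, ⟨60, 39⟩⟩,
    ⟨⟨21, 19⟩, ⟨2, -1⟩, 0, ⟨42, 40⟩⟩,
    ⟨⟨27, 16⟩, ⟨0, 1⟩, 1, ⟨72, 39⟩⟩,
    ⟨⟨27, 19⟩, ⟨0, 1⟩, 0, ⟨54, 40⟩⟩,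
    ⟨⟨27, 22⟩, ⟨2, -1⟩, 1, ⟨72, 51⟩⟩,
    ⟨⟨33, 19⟩, ⟨0, 1⟩, 0, ⟨66, 40⟩⟩,
    ⟨⟨33, 22⟩, ⟨2, -1⟩, 2, ⟨102, 56⟩⟩,
    ⟨⟨39, 19⟩, ⟨0, 1⟩, 0, ⟨78, 40⟩⟩,
    ⟨⟨39, 22⟩, ⟨0, 1⟩, 2, ⟨114, 56⟩⟩,
    ⟨⟨39, 25⟩, ⟨2, -1⟩, 0, ⟨78, 52⟩⟩,
    ⟨⟨45, 22⟩, ⟨0, 1⟩, 2, ⟨126, 56⟩⟩,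
    ⟨⟨45, 25⟩, ⟨2, -1⟩, 1, ⟨108, 57⟩⟩,
    ⟨⟨51, 22⟩, ⟨0, 1⟩, 1, ⟨120, 51⟩⟩,
    ⟨⟨51, 25⟩, ⟨0, 1⟩, 0, ⟨102, 52⟩⟩,
    ⟨⟨51, 28⟩, ⟨1, -4⟩, 2, ⟨138, 68⟩⟩,
    ⟨⟨0, 2⟩, ⟨1, 2⟩, 1, ⟨18, 13⟩⟩,
    ⟨⟨3, 8⟩, ⟨0, 1⟩, 0, ⟨6, 20⟩⟩,
    ⟨⟨3, 11⟩, ⟨0, 1⟩, 2, ⟨42, 36⟩⟩,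
    ⟨⟨3, 14⟩, ⟨2, -1⟩, 2, ⟨42, 42⟩⟩,
    ⟨⟨9, 11⟩, ⟨0, 1⟩, 1, ⟨36, 31⟩⟩,
    ⟨⟨9, 14⟩, ⟨2, 0⟩, 0, ⟨18, 32⟩⟩,
    ⟨⟨15, 14⟩, ⟨0, 1⟩, 2, ⟨66, 42⟩⟩,
    ⟨⟨15, 17⟩, ⟨2, -1⟩, 1, ⟨48, 43⟩⟩,
    ⟨⟨21, 14⟩, ⟨0, 1⟩, 0, ⟨42, 32⟩⟩,
    ⟨⟨21, 17⟩, ⟨2, 0⟩, 2, ⟨78, 48⟩⟩,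
    ⟨⟨27, 17⟩, ⟨0, 1⟩, 1, ⟨72, 43⟩⟩,
    ⟨⟨27, 20⟩, ⟨2, -1⟩, 0, ⟨54, 44⟩⟩,
    ⟨⟨33, 17⟩, ⟨0, 1⟩, 2, ⟨102, 48⟩⟩,
    ⟨⟨33, 20⟩, ⟨2, 0⟩, 1, ⟨84, 49⟩⟩,
    ⟨⟨39, 20⟩, ⟨0, 1⟩, 0, ⟨78, 44⟩⟩,
    ⟨⟨39, 23⟩, ⟨2, -1⟩, 2, ⟨114, 60⟩⟩,
    ⟨⟨45, 20⟩, ⟨0, 1⟩, 1, ⟨108, 49⟩⟩,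
    ⟨⟨45, 23⟩, ⟨2, 0⟩, 0, ⟨90, 50⟩⟩,
    ⟨⟨51, 23⟩, ⟨0, 1⟩, 2, ⟨138, 60⟩⟩,
    ⟨⟨51, 26⟩, ⟨1, -3⟩, 1, ⟨120, 61⟩⟩]

theorem ok1 : famOK ctx base fam1 = true := by decide +kernel

def cover : List (Aff × Aff) := [(⟨0, 0⟩, ⟨6, 20⟩), (⟨6, 17⟩, ⟨18, 5⟩)]

theorem ok : allOK ctx base [fam0, fam1] cover = true := by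
  have h : (cov ctx [fam0, fam1] cover ⟨0, 0⟩ && pos ctx ctx.k && decide (0 < ctx.P) && baseOK ctx base) = true := by decide +kernel
  simp only [allOK, List.all_cons, List.all_nil, Bool.and_true, ok0, ok1, Bool.true_and]
  exact h

end Pool.Agent.H57.QX.D5
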