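import Pool.Agent.H57.QX.Fam

/-!
# Exact families: `k = 18 t + 7`, `t ≥ 3` (found by helper58)
-/

set_option autoImplicit false

namespace Pool.Agent.H57.QX.D7

def ctx : Ctx := ⟨3, 18, 7, 3⟩

def base : List Arc := [
    ⟨⟨0, 0⟩, ⟨18, 7⟩, 0, ⟨0, 0⟩⟩,
    ⟨⟨0, 1⟩, ⟨18, 7⟩, 0, ⟨0, 4⟩⟩,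
    ⟨⟨0, 2⟩, ⟨18, 7⟩, 0, ⟨0, 5⟩⟩]

def fam0 : Fam where
  ints := [(⟨6, 7⟩, ⟨18, 7⟩)]
  arcs := [
    ⟨⟨0, 0⟩, ⟨0, 1⟩, 0, ⟨0, 0⟩⟩,
    ⟨⟨0, 3⟩, ⟨1, 1⟩, 2, ⟨36, 20⟩⟩,
    ⟨⟨3, 6⟩, ⟨1, 0⟩, 1, ⟨24, 19⟩⟩,
    ⟨⟨6, 6⟩, ⟨1, 0⟩, 0, ⟨12, 12⟩⟩,
    ⟨⟨9, 6⟩, ⟨1, 1⟩, 2, ⟨54, 26⟩⟩,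
    ⟨⟨12, 9⟩, ⟨1, 0⟩, 1, ⟨42, 25⟩⟩,
    ⟨⟨15, 9⟩, ⟨1, 1⟩, 0, ⟨30, 18⟩⟩,
    ⟨⟨18, 12⟩, ⟨1, 0⟩, 2, ⟨72, 38⟩⟩,
    ⟨⟨21, 12⟩, ⟨1, 0⟩, 1, ⟨60, 31⟩⟩,
    ⟨⟨24, 12⟩, ⟨1, 1⟩, 0, ⟨48, 24⟩⟩,
    ⟨⟨27, 15⟩, ⟨1, 0⟩, 2, ⟨90, 44⟩⟩,
    ⟨⟨30, 15⟩, ⟨1, 1⟩, 1, ⟨78, 37⟩⟩,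
    ⟨⟨33, 18⟩, ⟨1, 0⟩, 0, ⟨66, 36⟩⟩,
    ⟨⟨36, 18⟩, ⟨1, 0⟩, 2, ⟨108, 50⟩⟩,
    ⟨⟨39, 18⟩, ⟨1, 1⟩, 1, ⟨96, 43⟩⟩,
    ⟨⟨42, 21⟩, ⟨1, 0⟩, 0, ⟨84, 42⟩⟩,
    ⟨⟨45, 21⟩, ⟨1, 0⟩, 2, ⟨126, 56⟩⟩,
    ⟨⟨48, 21⟩, ⟨0, 1⟩, 2, ⟨132, 56⟩⟩,
    ⟨⟨48, 24⟩, ⟨1, 0⟩, 1, ⟨114, 55⟩⟩,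
    ⟨⟨51, 24⟩, ⟨1, -1⟩, 0, ⟨102, 48⟩⟩,
    ⟨⟨0, 1⟩, ⟨0, 1⟩, 0, ⟨0, 4⟩⟩,
    ⟨⟨0, 4⟩, ⟨1, 0⟩, 0, ⟨0, 10⟩⟩,
    ⟨⟨3, 4⟩, ⟨1, 0⟩, 2, ⟨42, 24⟩⟩,
    ⟨⟨6, 4⟩, ⟨1, 1⟩, 1, ⟨30, 17⟩⟩,
    ⟨⟨9, 7⟩, ⟨1, 0⟩, 0, ⟨18, 16⟩⟩,
    ⟨⟨12, 7⟩, ⟨1, 0⟩, 2, ⟨60, 30⟩⟩,
    ⟨⟨15, 7⟩, ⟨1, 1⟩, 1, ⟨48, 23⟩⟩,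
    ⟨⟨18, 10⟩, ⟨1, 0⟩, 0, ⟨36, 22⟩⟩,
    ⟨⟨21, 10⟩, ⟨1, 1⟩, 2, ⟨78, 36⟩⟩,
    ⟨⟨24, 13⟩, ⟨1, 0⟩, 1, ⟨66, 35⟩⟩,
    ⟨⟨27, 13⟩, ⟨1, 0⟩, 0, ⟨54, 28⟩⟩,
    ⟨⟨30, 13⟩, ⟨1, 1⟩, 2, ⟨96, 42⟩⟩,
    ⟨⟨33, 16⟩, ⟨1, 0⟩, 1, ⟨84, 41⟩⟩,
    ⟨⟨36, 16⟩, ⟨1, 1⟩, 0, ⟨72, 34⟩⟩,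
    ⟨⟨39, 19⟩, ⟨1, 0⟩, 2, ⟨114, 54⟩⟩,
    ⟨⟨42, 19⟩, ⟨1, 0⟩, 1, ⟨102, 47⟩⟩,
    ⟨⟨45, 19⟩, ⟨1, 1⟩, 0, ⟨90, 40⟩⟩,
    ⟨⟨48, 22⟩, ⟨1, 0⟩, 2, ⟨132, 60⟩⟩,
    ⟨⟨51, 22⟩, ⟨1, 0⟩, 1, ⟨120, 53⟩⟩,
    ⟨⟨0, 2⟩, ⟨0, 1⟩, 1, ⟨18, 12⟩⟩,
    ⟨⟨0, 5⟩, ⟨1, 0⟩, 1, ⟨18, 18⟩⟩,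
    ⟨⟨3, 5⟩, ⟨1, 0⟩, 0, ⟨6, 11⟩⟩,
    ⟨⟨6, 5⟩, ⟨1, 0⟩, 2, ⟨48, 25⟩⟩,
    ⟨⟨9, 5⟩, ⟨0, 1⟩, 0, ⟨18, 11⟩⟩,
    ⟨⟨9, 8⟩, ⟨1, 0⟩, 1, ⟨36, 24⟩⟩,
    ⟨⟨12, 8⟩, ⟨1, 0⟩, 0, ⟨24, 17⟩⟩,
    ⟨⟨15, 8⟩, ⟨1, 1⟩, 2, ⟨66, 31⟩⟩,
    ⟨⟨18, 11⟩, ⟨1, 0⟩, 1, ⟨54, 30⟩⟩,
    ⟨⟨21, 11⟩, ⟨1, 0⟩, 0, ⟨42, 23⟩⟩,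
    ⟨⟨24, 11⟩, ⟨0, 1⟩, 1, ⟨66, 30⟩⟩,
    ⟨⟨24, 14⟩, ⟨1, 0⟩, 2, ⟨84, 43⟩⟩,
    ⟨⟨27, 14⟩, ⟨1, 0⟩, 1, ⟨72, 36⟩⟩,
    ⟨⟨30, 14⟩, ⟨1, 1⟩, 0, ⟨60, 29⟩⟩,
    ⟨⟨33, 17⟩, ⟨1, 0⟩, 2, ⟨102, 49⟩⟩,
    ⟨⟨36, 17⟩, ⟨1, 0⟩, 1, ⟨90, 42⟩⟩,
    ⟨⟨39, 17⟩, ⟨0, 1⟩, 2, ⟨114, 49⟩⟩,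
    ⟨⟨39, 20⟩, ⟨1, 0⟩, 0, ⟨78, 41⟩⟩,
    ⟨⟨42, 20⟩, ⟨1, 0⟩, 2, ⟨120, 55⟩⟩,
    ⟨⟨45, 20⟩, ⟨1, 0⟩, 1, ⟨108, 48⟩⟩,
    ⟨⟨48, 20⟩, ⟨0, 1⟩, 1, ⟨114, 48⟩⟩,
    ⟨⟨48, 23⟩, ⟨1, 0⟩, 0, ⟨96, 47⟩⟩,
    ⟨⟨51, 23⟩, ⟨1, 0⟩, 2, ⟨138, 61⟩⟩]

theorem ok0 : famOK ctx base fam0 = true := by decide +kernel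

def fam1 : Fam where
  ints := [(⟨0, 0⟩, ⟨6, 10⟩)]
  arcs := [
    ⟨⟨0, 0⟩, ⟨0, 2⟩, 1, ⟨18, 7⟩⟩,
    ⟨⟨0, 6⟩, ⟨1, 0⟩, 0, ⟨0, 12⟩⟩,
    ⟨⟨3, 6⟩, ⟨1, 1⟩, 2, ⟨42, 26⟩⟩,
    ⟨⟨6, 9⟩, ⟨1, 0⟩, 1, ⟨30, 25⟩⟩,
    ⟨⟨9, 9⟩, ⟨1, 0⟩, 0, ⟨18, 18⟩⟩,
    ⟨⟨12, 9⟩, ⟨1, 1⟩, 2, ⟨60, 32⟩⟩,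
    ⟨⟨15, 12⟩, ⟨1, 0⟩, 1, ⟨48, 31⟩⟩,
    ⟨⟨18, 12⟩, ⟨1, 1⟩, 0, ⟨36, 24⟩⟩,
    ⟨⟨21, 15⟩, ⟨1, 0⟩, 2, ⟨78, 44⟩⟩,
    ⟨⟨24, 15⟩, ⟨1, 0⟩, 1, ⟨66, 37⟩⟩,
    ⟨⟨27, 15⟩, ⟨1, 1⟩, 0, ⟨54, 30⟩⟩,
    ⟨⟨30, 18⟩, ⟨1, 0⟩, 2, ⟨96, 50⟩⟩,
    ⟨⟨33, 18⟩, ⟨1, 1⟩, 1, ⟨84, 43⟩⟩,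
    ⟨⟨36, 21⟩, ⟨1, 0⟩, 0, ⟨72, 42⟩⟩,
    ⟨⟨39, 21⟩, ⟨1, 0⟩, 2, ⟨114, 56⟩⟩,
    ⟨⟨42, 21⟩, ⟨1, 1⟩, 1, ⟨102, 49⟩⟩,
    ⟨⟨45, 24⟩, ⟨1, 0⟩, 0, ⟨90, 48⟩⟩,
    ⟨⟨48, 24⟩, ⟨1, 0⟩, 2, ⟨132, 62⟩⟩,
    ⟨⟨51, 24⟩, ⟨0, 1⟩, 2, ⟨138, 62⟩⟩,
    ⟨⟨51, 27⟩, ⟨1, -2⟩, 1, ⟨120, 61⟩⟩,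
    ⟨⟨0, 1⟩, ⟨0, 1⟩, 2, ⟨36, 18⟩⟩,
    ⟨⟨0, 4⟩, ⟨1, 0⟩, 1, ⟨18, 17⟩⟩,
    ⟨⟨3, 4⟩, ⟨0, 1⟩, 0, ⟨6, 10⟩⟩,
    ⟨⟨3, 7⟩, ⟨1, 0⟩, 0, ⟨6, 16⟩⟩,
    ⟨⟨6, 7⟩, ⟨1, 0⟩, 2, ⟨48, 30⟩⟩,
    ⟨⟨9, 7⟩, ⟨1, 1⟩, 1, ⟨36, 23⟩⟩,
    ⟨⟨12, 10⟩, ⟨1, 0⟩, 0, ⟨24, 22⟩⟩,
    ⟨⟨15, 10⟩, ⟨1, 0⟩, 2, ⟨66, 36⟩⟩,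
    ⟨⟨18, 10⟩, ⟨1, 1⟩, 1, ⟨54, 29⟩⟩,
    ⟨⟨21, 13⟩, ⟨1, 0⟩, 0, ⟨42, 28⟩⟩,
    ⟨⟨24, 13⟩, ⟨1, 1⟩, 2, ⟨84, 42⟩⟩,
    ⟨⟨27, 16⟩, ⟨1, 0⟩, 1, ⟨72, 41⟩⟩,
    ⟨⟨30, 16⟩, ⟨1, 0⟩, 0, ⟨60, 34⟩⟩,
    ⟨⟨33, 16⟩, ⟨1, 1⟩, 2, ⟨102, 48⟩⟩,
    ⟨⟨36, 19⟩, ⟨1, 0⟩, 1, ⟨90, 47⟩⟩,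
    ⟨⟨39, 19⟩, ⟨1, 1⟩, 0, ⟨78, 40⟩⟩,
    ⟨⟨42, 22⟩, ⟨1, 0⟩, 2, ⟨120, 60⟩⟩,
    ⟨⟨45, 22⟩, ⟨1, 0⟩, 1, ⟨108, 53⟩⟩,
    ⟨⟨48, 22⟩, ⟨1, 1⟩, 0, ⟨96, 46⟩⟩,
    ⟨⟨51, 25⟩, ⟨1, -1⟩, 2, ⟨138, 66⟩⟩,
    ⟨⟨0, 2⟩, ⟨0, 1⟩, 0, ⟨0, 5⟩⟩,
    ⟨⟨0, 5⟩, ⟨1, 0⟩, 2, ⟨36, 25⟩⟩,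
    ⟨⟨3, 5⟩, ⟨0, 1⟩, 1, ⟨24, 18⟩⟩,
    ⟨⟨3, 8⟩, ⟨1, 0⟩, 1, ⟨24, 24⟩⟩,
    ⟨⟨6, 8⟩, ⟨1, 0⟩, 0, ⟨12, 17⟩⟩,
    ⟨⟨9, 8⟩, ⟨1, 0⟩, 2, ⟨54, 31⟩⟩,
    ⟨⟨12, 8⟩, ⟨0, 1⟩, 0, ⟨24, 17⟩⟩,
    ⟨⟨12, 11⟩, ⟨1, 0⟩, 1, ⟨42, 30⟩⟩,
    ⟨⟨15, 11⟩, ⟨1, 0⟩, 0, ⟨30, 23⟩⟩,
    ⟨⟨18, 11⟩, ⟨1, 1⟩, 2, ⟨72, 37⟩⟩,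
    ⟨⟨21, 14⟩, ⟨1, 0⟩, 1, ⟨60, 36⟩⟩,
    ⟨⟨24, 14⟩, ⟨1, 0⟩, 0, ⟨48, 29⟩⟩,
    ⟨⟨27, 14⟩, ⟨0, 1⟩, 1, ⟨72, 36⟩⟩,
    ⟨⟨27, 17⟩, ⟨1, 0⟩, 2, ⟨90, 49⟩⟩,
    ⟨⟨30, 17⟩, ⟨1, 0⟩, 1, ⟨78, 42⟩⟩,
    ⟨⟨33, 17⟩, ⟨1, 1⟩, 0, ⟨66, 35⟩⟩,
    ⟨⟨36, 20⟩, ⟨1, 0⟩, 2, ⟨108, 55⟩⟩,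
    ⟨⟨39, 20⟩, ⟨1, 0⟩, 1, ⟨96, 48⟩⟩,
    ⟨⟨42, 20⟩, ⟨0, 1⟩, 2, ⟨120, 55⟩⟩,
    ⟨⟨42, 23⟩, ⟨1, 0⟩, 0, ⟨84, 47⟩⟩,
    ⟨⟨45, 23⟩, ⟨1, 0⟩, 2, ⟨126, 61⟩⟩,
    ⟨⟨48, 23⟩, ⟨1, 0⟩, 1, ⟨114, 54⟩⟩,
    ⟨⟨51, 23⟩, ⟨0, 1⟩, 1, ⟨120, 54⟩⟩,
    ⟨⟨51, 26⟩, ⟨1, -1⟩, 0, ⟨102, 53⟩⟩]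

theorem ok1 : famOK ctx base fam1 = true := by decide +kernel

def cover : List (Aff × Aff) := [(⟨0, 0⟩, ⟨6, 10⟩), (⟨6, 7⟩, ⟨18, 7⟩)]

theorem ok : allOK ctx base [fam0, fam1] cover = true := by
  have h : (cov ctx [fam0, fam1] cover ⟨0, 0⟩ && pos ctx ctx.k && decide (0 < ctx.P) && baseOK ctx base) = true := by decide +kernel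
  simp only [allOK, List.all_cons, List.all_nil, Bool.and_true, ok0, ok1, Bool.true_and]
  exact h

end Pool.Agent.H57.QX.D7
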