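import Pool.Agent.H57.QX.Fam

/-!
# Exact families: `k = 54 t + 15`, `t ≥ 5` (found by helper58)
-/

set_option autoImplicit false

namespace Pool.Agent.H57.QX.E15

def ctx : Ctx := ⟨5, 54, 15, 9⟩

def base : List Arc := [
    ⟨⟨0, 0⟩, ⟨18, 5⟩, 0, ⟨0, 0⟩⟩,
    ⟨⟨0, 1⟩, ⟨18, 5⟩, 0, ⟨0, -18⟩⟩,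
    ⟨⟨0, 2⟩, ⟨18, 5⟩, 0, ⟨0, 2⟩⟩,
    ⟨⟨0, 3⟩, ⟨18, 5⟩, 0, ⟨0, 40⟩⟩,
    ⟨⟨0, 4⟩, ⟨18, 5⟩, 0, ⟨0, 4⟩⟩,
    ⟨⟨0, 5⟩, ⟨18, 5⟩, 0, ⟨0, 42⟩⟩,
    ⟨⟨0, 6⟩, ⟨18, 5⟩, 0, ⟨0, -4⟩⟩,
    ⟨⟨0, 7⟩, ⟨18, 5⟩, 0, ⟨0, 44⟩⟩,
    ⟨⟨0, 8⟩, ⟨18, 5⟩, 0, ⟨0, -2⟩⟩]

def fam0 : Fam where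
  ints := [(⟨18, 21⟩, ⟨54, 15⟩)]
  arcs := [
    ⟨⟨0, 0⟩, ⟨0, 2⟩, 1, ⟨54, 15⟩⟩,
    ⟨⟨0, 18⟩, ⟨2, 0⟩, 2, ⟨108, 66⟩⟩,
    ⟨⟨18, 18⟩, ⟨2, 1⟩, 0, ⟨36, 36⟩⟩,
    ⟨⟨36, 27⟩, ⟨2, 0⟩, 1, ⟨126, 69⟩⟩,
    ⟨⟨54, 27⟩, ⟨2, 1⟩, 2, ⟨216, 84⟩⟩,
    ⟨⟨72, 36⟩, ⟨2, 0⟩, 0, ⟨144, 72⟩⟩,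
    ⟨⟨90, 36⟩, ⟨2, 1⟩, 1, ⟨234, 87⟩⟩,
    ⟨⟨108, 45⟩, ⟨2, 0⟩, 2, ⟨324, 120⟩⟩,
    ⟨⟨126, 45⟩, ⟨2, 1⟩, 0, ⟨252, 90⟩⟩,
    ⟨⟨144, 54⟩, ⟨2, -1⟩, 1, ⟨342, 123⟩⟩,
    ⟨⟨0, 1⟩, ⟨0, 2⟩, 2, ⟨108, 12⟩⟩,
    ⟨⟨0, 19⟩, ⟨2, 1⟩, 0, ⟨0, 18⟩⟩,
    ⟨⟨18, 28⟩, ⟨2, 0⟩, 1, ⟨90, 51⟩⟩,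
    ⟨⟨36, 28⟩, ⟨2, 1⟩, 2, ⟨180, 66⟩⟩,
    ⟨⟨54, 37⟩, ⟨2, 1⟩, 0, ⟨108, 54⟩⟩,
    ⟨⟨72, 46⟩, ⟨2, 0⟩, 1, ⟨198, 87⟩⟩,
    ⟨⟨90, 46⟩, ⟨2, 1⟩, 2, ⟨288, 102⟩⟩,
    ⟨⟨108, 55⟩, ⟨2, 0⟩, 0, ⟨216, 90⟩⟩,
    ⟨⟨126, 55⟩, ⟨2, 1⟩, 1, ⟨306, 105⟩⟩,
    ⟨⟨144, 64⟩, ⟨2, -2⟩, 2, ⟨396, 138⟩⟩,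
    ⟨⟨0, 2⟩, ⟨0, 1⟩, 0, ⟨0, 2⟩⟩,
    ⟨⟨0, 11⟩, ⟨0, 1⟩, 2, ⟨108, 50⟩⟩,
    ⟨⟨0, 20⟩, ⟨2, -1⟩, 1, ⟨54, 53⟩⟩,
    ⟨⟨18, 11⟩, ⟨0, 1⟩, 0, ⟨36, 20⟩⟩,
    ⟨⟨18, 20⟩, ⟨2, 0⟩, 2, ⟨144, 68⟩⟩,
    ⟨⟨36, 20⟩, ⟨0, 1⟩, 1, ⟨126, 53⟩⟩,
    ⟨⟨36, 29⟩, ⟨2, -1⟩, 0, ⟨72, 56⟩⟩,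
    ⟨⟨54, 20⟩, ⟨0, 1⟩, 2, ⟨216, 68⟩⟩,
    ⟨⟨54, 29⟩, ⟨2, 0⟩, 1, ⟨162, 71⟩⟩,
    ⟨⟨72, 29⟩, ⟨0, 1⟩, 0, ⟨144, 56⟩⟩,
    ⟨⟨72, 38⟩, ⟨2, -1⟩, 2, ⟨252, 104⟩⟩,
    ⟨⟨90, 29⟩, ⟨0, 1⟩, 1, ⟨234, 71⟩⟩,
    ⟨⟨90, 38⟩, ⟨2, 0⟩, 0, ⟨180, 74⟩⟩,
    ⟨⟨108, 38⟩, ⟨0, 1⟩, 2, ⟨324, 104⟩⟩,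
    ⟨⟨108, 47⟩, ⟨2, -1⟩, 1, ⟨270, 107⟩⟩,
    ⟨⟨126, 38⟩, ⟨0, 1⟩, 0, ⟨252, 74⟩⟩,
    ⟨⟨126, 47⟩, ⟨2, 0⟩, 2, ⟨360, 122⟩⟩,
    ⟨⟨144, 47⟩, ⟨0, 1⟩, 1, ⟨342, 107⟩⟩,
    ⟨⟨144, 56⟩, ⟨2, -1⟩, 0, ⟨288, 110⟩⟩,
    ⟨⟨0, 3⟩, ⟨2, 0⟩, 2, ⟨108, 70⟩⟩,
    ⟨⟨18, 3⟩, ⟨2, 0⟩, 0, ⟨36, 40⟩⟩,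
    ⟨⟨36, 3⟩, ⟨2, 1⟩, 1, ⟨126, 55⟩⟩,
    ⟨⟨54, 12⟩, ⟨2, 0⟩, 2, ⟨216, 88⟩⟩,
    ⟨⟨72, 12⟩, ⟨2, 1⟩, 0, ⟨144, 58⟩⟩,
    ⟨⟨90, 21⟩, ⟨2, 0⟩, 1, ⟨234, 91⟩⟩,
    ⟨⟨108, 21⟩, ⟨2, 1⟩, 2, ⟨324, 106⟩⟩,
    ⟨⟨126, 30⟩, ⟨2, 0⟩, 0, ⟨252, 94⟩⟩,
    ⟨⟨144, 30⟩, ⟨0, 1⟩, 1, ⟨342, 109⟩⟩,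
    ⟨⟨144, 39⟩, ⟨2, 0⟩, 1, ⟨342, 127⟩⟩,
    ⟨⟨162, 39⟩, ⟨0, 1⟩, 2, ⟨432, 142⟩⟩,
    ⟨⟨0, 4⟩, ⟨0, 1⟩, 2, ⟨108, 34⟩⟩,
    ⟨⟨0, 13⟩, ⟨2, 0⟩, 0, ⟨0, 22⟩⟩,
    ⟨⟨18, 13⟩, ⟨2, 1⟩, 1, ⟨90, 37⟩⟩,
    ⟨⟨36, 22⟩, ⟨2, 0⟩, 2, ⟨180, 70⟩⟩,
    ⟨⟨54, 22⟩, ⟨2, 1⟩, 0, ⟨108, 40⟩⟩,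
    ⟨⟨72, 31⟩, ⟨2, 0⟩, 1, ⟨198, 73⟩⟩,
    ⟨⟨90, 31⟩, ⟨2, 1⟩, 2, ⟨288, 88⟩⟩,
    ⟨⟨108, 40⟩, ⟨2, 0⟩, 0, ⟨216, 76⟩⟩,
    ⟨⟨126, 40⟩, ⟨2, 1⟩, 1, ⟨306, 91⟩⟩,
    ⟨⟨144, 49⟩, ⟨2, 0⟩, 2, ⟨396, 124⟩⟩,
    ⟨⟨0, 5⟩, ⟨2, 0⟩, 0, ⟨0, 42⟩⟩,
    ⟨⟨18, 5⟩, ⟨2, 0⟩, 1, ⟨90, 57⟩⟩,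
    ⟨⟨36, 5⟩, ⟨2, 1⟩, 2, ⟨180, 72⟩⟩,
    ⟨⟨54, 14⟩, ⟨2, 0⟩, 0, ⟨108, 60⟩⟩,
    ⟨⟨72, 14⟩, ⟨2, 1⟩, 1, ⟨198, 75⟩⟩,
    ⟨⟨90, 23⟩, ⟨2, 0⟩, 2, ⟨288, 108⟩⟩,
    ⟨⟨108, 23⟩, ⟨0, 1⟩, 1, ⟨270, 93⟩⟩,
    ⟨⟨108, 32⟩, ⟨2, 0⟩, 0, ⟨216, 96⟩⟩,
    ⟨⟨126, 32⟩, ⟨2, 0⟩, 1, ⟨306, 111⟩⟩,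
    ⟨⟨144, 32⟩, ⟨0, 1⟩, 0, ⟨288, 96⟩⟩,
    ⟨⟨144, 41⟩, ⟨2, 0⟩, 2, ⟨396, 144⟩⟩,
    ⟨⟨162, 41⟩, ⟨0, 1⟩, 0, ⟨324, 114⟩⟩,
    ⟨⟨0, 6⟩, ⟨0, 1⟩, 0, ⟨0, -4⟩⟩,
    ⟨⟨0, 15⟩, ⟨2, 0⟩, 1, ⟨54, 29⟩⟩,
    ⟨⟨18, 15⟩, ⟨2, 1⟩, 2, ⟨144, 44⟩⟩,
    ⟨⟨36, 24⟩, ⟨2, 1⟩, 0, ⟨72, 32⟩⟩,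
    ⟨⟨54, 33⟩, ⟨2, 0⟩, 1, ⟨162, 65⟩⟩,
    ⟨⟨72, 33⟩, ⟨2, 1⟩, 2, ⟨252, 80⟩⟩,
    ⟨⟨90, 42⟩, ⟨2, 0⟩, 0, ⟨180, 68⟩⟩,
    ⟨⟨108, 42⟩, ⟨2, 1⟩, 1, ⟨270, 83⟩⟩,
    ⟨⟨126, 51⟩, ⟨2, 0⟩, 2, ⟨360, 116⟩⟩,
    ⟨⟨144, 51⟩, ⟨2, 0⟩, 0, ⟨288, 86⟩⟩,
    ⟨⟨0, 7⟩, ⟨2, 0⟩, 1, ⟨54, 59⟩⟩,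
    ⟨⟨18, 7⟩, ⟨2, 0⟩, 2, ⟨144, 74⟩⟩,
    ⟨⟨36, 7⟩, ⟨2, 1⟩, 0, ⟨72, 44⟩⟩,
    ⟨⟨54, 16⟩, ⟨2, 0⟩, 1, ⟨162, 77⟩⟩,
    ⟨⟨72, 16⟩, ⟨2, 1⟩, 2, ⟨252, 92⟩⟩,
    ⟨⟨90, 25⟩, ⟨2, 1⟩, 0, ⟨180, 80⟩⟩,
    ⟨⟨108, 34⟩, ⟨2, 0⟩, 1, ⟨270, 113⟩⟩,
    ⟨⟨126, 34⟩, ⟨2, 1⟩, 2, ⟨360, 128⟩⟩,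
    ⟨⟨144, 43⟩, ⟨2, 0⟩, 0, ⟨288, 116⟩⟩,
    ⟨⟨162, 43⟩, ⟨0, 1⟩, 1, ⟨378, 131⟩⟩,
    ⟨⟨0, 8⟩, ⟨0, 1⟩, 1, ⟨54, 13⟩⟩,
    ⟨⟨0, 17⟩, ⟨2, 0⟩, 2, ⟨108, 46⟩⟩,
    ⟨⟨18, 17⟩, ⟨0, 1⟩, 1, ⟨90, 31⟩⟩,
    ⟨⟨18, 26⟩, ⟨2, 0⟩, 0, ⟨36, 34⟩⟩,
    ⟨⟨36, 26⟩, ⟨2, 1⟩, 1, ⟨126, 49⟩⟩,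
    ⟨⟨54, 35⟩, ⟨2, 0⟩, 2, ⟨216, 82⟩⟩,
    ⟨⟨72, 35⟩, ⟨0, 1⟩, 1, ⟨198, 67⟩⟩,
    ⟨⟨72, 44⟩, ⟨2, 0⟩, 0, ⟨144, 70⟩⟩,
    ⟨⟨90, 44⟩, ⟨2, 0⟩, 1, ⟨234, 85⟩⟩,
    ⟨⟨108, 44⟩, ⟨0, 1⟩, 0, ⟨216, 70⟩⟩,
    ⟨⟨108, 53⟩, ⟨2, 0⟩, 2, ⟨324, 118⟩⟩,
    ⟨⟨126, 53⟩, ⟨2, 0⟩, 0, ⟨252, 88⟩⟩,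
    ⟨⟨144, 53⟩, ⟨0, 1⟩, 2, ⟨396, 118⟩⟩,
    ⟨⟨144, 62⟩, ⟨2, -1⟩, 1, ⟨342, 121⟩⟩]

theorem ok0 : famOK ctx base fam0 = true := by decide +kernel

def fam1 : Fam where
  ints := [(⟨0, 0⟩, ⟨18, 38⟩)]
  arcs := [
    ⟨⟨0, 0⟩, ⟨1, 4⟩, 1, ⟨54, 15⟩⟩,
    ⟨⟨9, 36⟩, ⟨2, 0⟩, 2, ⟨126, 102⟩⟩,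
    ⟨⟨27, 36⟩, ⟨2, 1⟩, 0, ⟨54, 72⟩⟩,
    ⟨⟨45, 45⟩, ⟨2, 0⟩, 1, ⟨144, 105⟩⟩,
    ⟨⟨63, 45⟩, ⟨2, 1⟩, 2, ⟨234, 120⟩⟩,
    ⟨⟨81, 54⟩, ⟨2, 0⟩, 0, ⟨162, 108⟩⟩,
    ⟨⟨99, 54⟩, ⟨2, 1⟩, 1, ⟨252, 123⟩⟩,
    ⟨⟨117, 63⟩, ⟨2, 0⟩, 2, ⟨342, 156⟩⟩,
    ⟨⟨135, 63⟩, ⟨2, 1⟩, 0, ⟨270, 126⟩⟩,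
    ⟨⟨153, 72⟩, ⟨1, -3⟩, 1, ⟨360, 159⟩⟩,
    ⟨⟨0, 1⟩, ⟨1, 4⟩, 2, ⟨108, 12⟩⟩,
    ⟨⟨9, 37⟩, ⟨2, 1⟩, 0, ⟨18, 54⟩⟩,
    ⟨⟨27, 46⟩, ⟨2, 0⟩, 1, ⟨108, 87⟩⟩,
    ⟨⟨45, 46⟩, ⟨2, 1⟩, 2, ⟨198, 102⟩⟩,
    ⟨⟨63, 55⟩, ⟨2, 1⟩, 0, ⟨126, 90⟩⟩,
    ⟨⟨81, 64⟩, ⟨2, 0⟩, 1, ⟨216, 123⟩⟩,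
    ⟨⟨99, 64⟩, ⟨2, 1⟩, 2, ⟨306, 138⟩⟩,
    ⟨⟨117, 73⟩, ⟨2, 0⟩, 0, ⟨234, 126⟩⟩,
    ⟨⟨135, 73⟩, ⟨2, 1⟩, 1, ⟨324, 141⟩⟩,
    ⟨⟨153, 82⟩, ⟨1, -4⟩, 2, ⟨414, 174⟩⟩,
    ⟨⟨0, 2⟩, ⟨1, 2⟩, 0, ⟨0, 2⟩⟩,
    ⟨⟨9, 20⟩, ⟨0, 1⟩, 0, ⟨18, 38⟩⟩,
    ⟨⟨9, 29⟩, ⟨0, 1⟩, 2, ⟨126, 86⟩⟩,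
    ⟨⟨9, 38⟩, ⟨2, -1⟩, 1, ⟨72, 89⟩⟩,
    ⟨⟨27, 29⟩, ⟨0, 1⟩, 0, ⟨54, 56⟩⟩,
    ⟨⟨27, 38⟩, ⟨2, 0⟩, 2, ⟨162, 104⟩⟩,
    ⟨⟨45, 38⟩, ⟨0, 1⟩, 1, ⟨144, 89⟩⟩,
    ⟨⟨45, 47⟩, ⟨2, -1⟩, 0, ⟨90, 92⟩⟩,
    ⟨⟨63, 38⟩, ⟨0, 1⟩, 2, ⟨234, 104⟩⟩,
    ⟨⟨63, 47⟩, ⟨2, 0⟩, 1, ⟨180, 107⟩⟩,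
    ⟨⟨81, 47⟩, ⟨0, 1⟩, 0, ⟨162, 92⟩⟩,
    ⟨⟨81, 56⟩, ⟨2, -1⟩, 2, ⟨270, 140⟩⟩,
    ⟨⟨99, 47⟩, ⟨0, 1⟩, 1, ⟨252, 107⟩⟩,
    ⟨⟨99, 56⟩, ⟨2, 0⟩, 0, ⟨198, 110⟩⟩,
    ⟨⟨117, 56⟩, ⟨0, 1⟩, 2, ⟨342, 140⟩⟩,
    ⟨⟨117, 65⟩, ⟨2, -1⟩, 1, ⟨288, 143⟩⟩,
    ⟨⟨135, 56⟩, ⟨0, 1⟩, 0, ⟨270, 110⟩⟩,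
    ⟨⟨135, 65⟩, ⟨2, 0⟩, 2, ⟨378, 158⟩⟩,
    ⟨⟨153, 65⟩, ⟨0, 1⟩, 1, ⟨360, 143⟩⟩,
    ⟨⟨153, 74⟩, ⟨1, -3⟩, 0, ⟨306, 146⟩⟩,
    ⟨⟨0, 3⟩, ⟨1, 1⟩, 1, ⟨54, 55⟩⟩,
    ⟨⟨9, 12⟩, ⟨2, 1⟩, 2, ⟨126, 88⟩⟩,
    ⟨⟨27, 21⟩, ⟨2, 0⟩, 0, ⟨54, 76⟩⟩,
    ⟨⟨45, 21⟩, ⟨2, 1⟩, 1, ⟨144, 91⟩⟩,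
    ⟨⟨63, 30⟩, ⟨2, 0⟩, 2, ⟨234, 124⟩⟩,
    ⟨⟨81, 30⟩, ⟨2, 1⟩, 0, ⟨162, 94⟩⟩,
    ⟨⟨99, 39⟩, ⟨2, 0⟩, 1, ⟨252, 127⟩⟩,
    ⟨⟨117, 39⟩, ⟨2, 1⟩, 2, ⟨342, 142⟩⟩,
    ⟨⟨135, 48⟩, ⟨2, 0⟩, 0, ⟨270, 130⟩⟩,
    ⟨⟨153, 48⟩, ⟨0, 1⟩, 1, ⟨360, 145⟩⟩,
    ⟨⟨153, 57⟩, ⟨1, -1⟩, 1, ⟨360, 163⟩⟩,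
    ⟨⟨0, 4⟩, ⟨1, 2⟩, 2, ⟨108, 34⟩⟩,
    ⟨⟨9, 22⟩, ⟨0, 1⟩, 2, ⟨126, 70⟩⟩,
    ⟨⟨9, 31⟩, ⟨2, 0⟩, 0, ⟨18, 58⟩⟩,
    ⟨⟨27, 31⟩, ⟨2, 1⟩, 1, ⟨108, 73⟩⟩,
    ⟨⟨45, 40⟩, ⟨2, 0⟩, 2, ⟨198, 106⟩⟩,
    ⟨⟨63, 40⟩, ⟨2, 1⟩, 0, ⟨126, 76⟩⟩,
    ⟨⟨81, 49⟩, ⟨2, 0⟩, 1, ⟨216, 109⟩⟩,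
    ⟨⟨99, 49⟩, ⟨2, 1⟩, 2, ⟨306, 124⟩⟩,
    ⟨⟨117, 58⟩, ⟨2, 0⟩, 0, ⟨234, 112⟩⟩,
    ⟨⟨135, 58⟩, ⟨2, 1⟩, 1, ⟨324, 127⟩⟩,
    ⟨⟨153, 67⟩, ⟨1, -2⟩, 2, ⟨414, 160⟩⟩,
    ⟨⟨0, 5⟩, ⟨1, 1⟩, 2, ⟨108, 72⟩⟩,
    ⟨⟨9, 14⟩, ⟨2, 1⟩, 0, ⟨18, 60⟩⟩,
    ⟨⟨27, 23⟩, ⟨2, 0⟩, 1, ⟨108, 93⟩⟩,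
    ⟨⟨45, 23⟩, ⟨2, 1⟩, 2, ⟨198, 108⟩⟩,
    ⟨⟨63, 32⟩, ⟨2, 0⟩, 0, ⟨126, 96⟩⟩,
    ⟨⟨81, 32⟩, ⟨2, 1⟩, 1, ⟨216, 111⟩⟩,
    ⟨⟨99, 41⟩, ⟨2, 0⟩, 2, ⟨306, 144⟩⟩,
    ⟨⟨117, 41⟩, ⟨0, 1⟩, 1, ⟨288, 129⟩⟩,
    ⟨⟨117, 50⟩, ⟨2, 0⟩, 0, ⟨234, 132⟩⟩,
    ⟨⟨135, 50⟩, ⟨2, 0⟩, 1, ⟨324, 147⟩⟩,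
    ⟨⟨153, 50⟩, ⟨0, 1⟩, 0, ⟨306, 132⟩⟩,
    ⟨⟨153, 59⟩, ⟨1, -1⟩, 2, ⟨414, 180⟩⟩,
    ⟨⟨0, 6⟩, ⟨1, 3⟩, 0, ⟨0, -4⟩⟩,
    ⟨⟨9, 33⟩, ⟨2, 0⟩, 1, ⟨72, 65⟩⟩,
    ⟨⟨27, 33⟩, ⟨2, 1⟩, 2, ⟨162, 80⟩⟩,
    ⟨⟨45, 42⟩, ⟨2, 1⟩, 0, ⟨90, 68⟩⟩,
    ⟨⟨63, 51⟩, ⟨2, 0⟩, 1, ⟨180, 101⟩⟩,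
    ⟨⟨81, 51⟩, ⟨2, 1⟩, 2, ⟨270, 116⟩⟩,
    ⟨⟨99, 60⟩, ⟨2, 0⟩, 0, ⟨198, 104⟩⟩,
    ⟨⟨117, 60⟩, ⟨2, 1⟩, 1, ⟨288, 119⟩⟩,
    ⟨⟨135, 69⟩, ⟨2, 0⟩, 2, ⟨378, 152⟩⟩,
    ⟨⟨153, 69⟩, ⟨1, -2⟩, 0, ⟨306, 122⟩⟩,
    ⟨⟨0, 7⟩, ⟨1, 1⟩, 0, ⟨0, 44⟩⟩,
    ⟨⟨9, 16⟩, ⟨2, 1⟩, 1, ⟨72, 77⟩⟩,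
    ⟨⟨27, 25⟩, ⟨2, 0⟩, 2, ⟨162, 110⟩⟩,
    ⟨⟨45, 25⟩, ⟨2, 1⟩, 0, ⟨90, 80⟩⟩,
    ⟨⟨63, 34⟩, ⟨2, 0⟩, 1, ⟨180, 113⟩⟩,
    ⟨⟨81, 34⟩, ⟨2, 1⟩, 2, ⟨270, 128⟩⟩,
    ⟨⟨99, 43⟩, ⟨2, 1⟩, 0, ⟨198, 116⟩⟩,
    ⟨⟨117, 52⟩, ⟨2, 0⟩, 1, ⟨288, 149⟩⟩,
    ⟨⟨135, 52⟩, ⟨2, 1⟩, 2, ⟨378, 164⟩⟩,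
    ⟨⟨153, 61⟩, ⟨1, -1⟩, 0, ⟨306, 152⟩⟩,
    ⟨⟨0, 8⟩, ⟨1, 3⟩, 1, ⟨54, 13⟩⟩,
    ⟨⟨9, 35⟩, ⟨2, 0⟩, 2, ⟨126, 82⟩⟩,
    ⟨⟨27, 35⟩, ⟨0, 1⟩, 1, ⟨108, 67⟩⟩,
    ⟨⟨27, 44⟩, ⟨2, 0⟩, 0, ⟨54, 70⟩⟩,
    ⟨⟨45, 44⟩, ⟨2, 1⟩, 1, ⟨144, 85⟩⟩,
    ⟨⟨63, 53⟩, ⟨2, 0⟩, 2, ⟨234, 118⟩⟩,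
    ⟨⟨81, 53⟩, ⟨0, 1⟩, 1, ⟨216, 103⟩⟩,
    ⟨⟨81, 62⟩, ⟨2, 0⟩, 0, ⟨162, 106⟩⟩,
    ⟨⟨99, 62⟩, ⟨2, 0⟩, 1, ⟨252, 121⟩⟩,
    ⟨⟨117, 62⟩, ⟨0, 1⟩, 0, ⟨234, 106⟩⟩,
    ⟨⟨117, 71⟩, ⟨2, 0⟩, 2, ⟨342, 154⟩⟩,
    ⟨⟨135, 71⟩, ⟨2, 0⟩, 0, ⟨270, 124⟩⟩,
    ⟨⟨153, 71⟩, ⟨0, 1⟩, 2, ⟨414, 154⟩⟩,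
    ⟨⟨153, 80⟩, ⟨1, -3⟩, 1, ⟨360, 157⟩⟩]

theorem ok1 : famOK ctx base fam1 = true := by decide +kernel

def cover : List (Aff × Aff) := [(⟨0, 0⟩, ⟨18, 38⟩), (⟨18, 21⟩, ⟨54, 15⟩)]

theorem ok : allOK ctx base [fam0, fam1] cover = true := by
  have h : (cov ctx [fam0, fam1] cover ⟨0, 0⟩ && pos ctx ctx.k && decide (0 < ctx.P) && baseOK ctx base) = true := by decide +kernel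
  simp only [allOK, List.all_cons, List.all_nil, Bool.and_true, ok0, ok1, Bool.true_and]
  exact h

end Pool.Agent.H57.QX.E15
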