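import Pool.Agent.H57.QX.Fam

/-!
# Exact families: `k = 54 t + 21`, `t ≥ 1` (found by helper58)
-/

set_option autoImplicit false

namespace Pool.Agent.H57.QX.E21

def ctx : Ctx := ⟨1, 54, 21, 9⟩

def base : List Arc := [
    ⟨⟨0, 0⟩, ⟨18, 7⟩, 0, ⟨0, 0⟩⟩,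
    ⟨⟨0, 1⟩, ⟨18, 7⟩, 0, ⟨0, -16⟩⟩,
    ⟨⟨0, 2⟩, ⟨18, 7⟩, 0, ⟨0, 2⟩⟩,
    ⟨⟨0, 3⟩, ⟨18, 7⟩, 0, ⟨0, 20⟩⟩,
    ⟨⟨0, 4⟩, ⟨18, 7⟩, 0, ⟨0, 4⟩⟩,
    ⟨⟨0, 5⟩, ⟨18, 7⟩, 0, ⟨0, 22⟩⟩,
    ⟨⟨0, 6⟩, ⟨18, 7⟩, 0, ⟨0, -2⟩⟩,
    ⟨⟨0, 7⟩, ⟨18, 7⟩, 0, ⟨0, 24⟩⟩,
    ⟨⟨0, 8⟩, ⟨18, 7⟩, 0, ⟨0, 0⟩⟩]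

def fam0 : Fam where
  ints := [(⟨0, 6⟩, ⟨54, 21⟩)]
  arcs := [
    ⟨⟨0, 0⟩, ⟨0, 1⟩, 0, ⟨0, 0⟩⟩,
    ⟨⟨0, 9⟩, ⟨2, 0⟩, 0, ⟨0, 18⟩⟩,
    ⟨⟨18, 9⟩, ⟨2, 1⟩, 1, ⟨90, 39⟩⟩,
    ⟨⟨36, 18⟩, ⟨2, 1⟩, 2, ⟨180, 78⟩⟩,
    ⟨⟨54, 27⟩, ⟨2, 1⟩, 0, ⟨108, 54⟩⟩,
    ⟨⟨72, 36⟩, ⟨2, 0⟩, 1, ⟨198, 93⟩⟩,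
    ⟨⟨90, 36⟩, ⟨2, 1⟩, 2, ⟨288, 114⟩⟩,
    ⟨⟨108, 45⟩, ⟨2, 1⟩, 0, ⟨216, 90⟩⟩,
    ⟨⟨126, 54⟩, ⟨2, 1⟩, 1, ⟨306, 129⟩⟩,
    ⟨⟨144, 63⟩, ⟨2, 0⟩, 2, ⟨396, 168⟩⟩,
    ⟨⟨0, 1⟩, ⟨0, 1⟩, 2, ⟨108, 26⟩⟩,
    ⟨⟨0, 10⟩, ⟨2, 1⟩, 0, ⟨0, 2⟩⟩,
    ⟨⟨18, 19⟩, ⟨2, 1⟩, 1, ⟨90, 41⟩⟩,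
    ⟨⟨36, 28⟩, ⟨2, 1⟩, 2, ⟨180, 80⟩⟩,
    ⟨⟨54, 37⟩, ⟨2, 1⟩, 0, ⟨108, 56⟩⟩,
    ⟨⟨72, 46⟩, ⟨2, 0⟩, 1, ⟨198, 95⟩⟩,
    ⟨⟨90, 46⟩, ⟨2, 1⟩, 2, ⟨288, 116⟩⟩,
    ⟨⟨108, 55⟩, ⟨2, 1⟩, 0, ⟨216, 92⟩⟩,
    ⟨⟨126, 64⟩, ⟨2, 1⟩, 1, ⟨306, 131⟩⟩,
    ⟨⟨144, 73⟩, ⟨2, -1⟩, 2, ⟨396, 170⟩⟩,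
    ⟨⟨0, 2⟩, ⟨0, 1⟩, 2, ⟨108, 44⟩⟩,
    ⟨⟨0, 11⟩, ⟨2, 0⟩, 1, ⟨54, 41⟩⟩,
    ⟨⟨18, 11⟩, ⟨0, 1⟩, 0, ⟨36, 20⟩⟩,
    ⟨⟨18, 20⟩, ⟨2, 0⟩, 2, ⟨144, 80⟩⟩,
    ⟨⟨36, 20⟩, ⟨2, 1⟩, 0, ⟨72, 38⟩⟩,
    ⟨⟨54, 29⟩, ⟨2, 1⟩, 1, ⟨162, 77⟩⟩,
    ⟨⟨72, 38⟩, ⟨2, 0⟩, 2, ⟨252, 116⟩⟩,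
    ⟨⟨90, 38⟩, ⟨0, 1⟩, 1, ⟨234, 95⟩⟩,
    ⟨⟨90, 47⟩, ⟨2, 0⟩, 0, ⟨180, 92⟩⟩,
    ⟨⟨108, 47⟩, ⟨0, 1⟩, 2, ⟨324, 134⟩⟩,
    ⟨⟨108, 56⟩, ⟨2, 0⟩, 1, ⟨270, 131⟩⟩,
    ⟨⟨126, 56⟩, ⟨2, 1⟩, 2, ⟨360, 152⟩⟩,
    ⟨⟨144, 65⟩, ⟨2, 0⟩, 0, ⟨288, 128⟩⟩,
    ⟨⟨0, 3⟩, ⟨2, 1⟩, 2, ⟨108, 62⟩⟩,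
    ⟨⟨18, 12⟩, ⟨2, 0⟩, 0, ⟨36, 38⟩⟩,
    ⟨⟨36, 12⟩, ⟨2, 1⟩, 1, ⟨126, 59⟩⟩,
    ⟨⟨54, 21⟩, ⟨2, 1⟩, 2, ⟨216, 98⟩⟩,
    ⟨⟨72, 30⟩, ⟨2, 1⟩, 0, ⟨144, 74⟩⟩,
    ⟨⟨90, 39⟩, ⟨2, 1⟩, 1, ⟨234, 113⟩⟩,
    ⟨⟨108, 48⟩, ⟨2, 0⟩, 2, ⟨324, 152⟩⟩,
    ⟨⟨126, 48⟩, ⟨2, 1⟩, 0, ⟨252, 110⟩⟩,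
    ⟨⟨144, 57⟩, ⟨2, 1⟩, 1, ⟨342, 149⟩⟩,
    ⟨⟨0, 4⟩, ⟨0, 1⟩, 1, ⟨54, 25⟩⟩,
    ⟨⟨0, 13⟩, ⟨2, 1⟩, 2, ⟨108, 64⟩⟩,
    ⟨⟨18, 22⟩, ⟨2, 0⟩, 0, ⟨36, 40⟩⟩,
    ⟨⟨36, 22⟩, ⟨2, 1⟩, 1, ⟨126, 61⟩⟩,
    ⟨⟨54, 31⟩, ⟨2, 1⟩, 2, ⟨216, 100⟩⟩,
    ⟨⟨72, 40⟩, ⟨2, 1⟩, 0, ⟨144, 76⟩⟩,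
    ⟨⟨90, 49⟩, ⟨2, 1⟩, 1, ⟨234, 115⟩⟩,
    ⟨⟨108, 58⟩, ⟨2, 0⟩, 2, ⟨324, 154⟩⟩,
    ⟨⟨126, 58⟩, ⟨2, 1⟩, 0, ⟨252, 112⟩⟩,
    ⟨⟨144, 67⟩, ⟨2, 0⟩, 1, ⟨342, 151⟩⟩,
    ⟨⟨0, 5⟩, ⟨2, 0⟩, 1, ⟨54, 43⟩⟩,
    ⟨⟨18, 5⟩, ⟨0, 1⟩, 0, ⟨36, 22⟩⟩,
    ⟨⟨18, 14⟩, ⟨2, 0⟩, 2, ⟨144, 82⟩⟩,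
    ⟨⟨36, 14⟩, ⟨2, 1⟩, 0, ⟨72, 40⟩⟩,
    ⟨⟨54, 23⟩, ⟨2, 1⟩, 1, ⟨162, 79⟩⟩,
    ⟨⟨72, 32⟩, ⟨2, 0⟩, 2, ⟨252, 118⟩⟩,
    ⟨⟨90, 32⟩, ⟨0, 1⟩, 1, ⟨234, 97⟩⟩,
    ⟨⟨90, 41⟩, ⟨2, 0⟩, 0, ⟨180, 94⟩⟩,
    ⟨⟨108, 41⟩, ⟨0, 1⟩, 2, ⟨324, 136⟩⟩,
    ⟨⟨108, 50⟩, ⟨2, 0⟩, 1, ⟨270, 133⟩⟩,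
    ⟨⟨126, 50⟩, ⟨2, 1⟩, 2, ⟨360, 154⟩⟩,
    ⟨⟨144, 59⟩, ⟨2, 0⟩, 0, ⟨288, 130⟩⟩,
    ⟨⟨162, 59⟩, ⟨0, 1⟩, 0, ⟨324, 130⟩⟩,
    ⟨⟨0, 6⟩, ⟨0, 1⟩, 1, ⟨54, 19⟩⟩,
    ⟨⟨0, 15⟩, ⟨2, 1⟩, 2, ⟨108, 58⟩⟩,
    ⟨⟨18, 24⟩, ⟨2, 0⟩, 0, ⟨36, 34⟩⟩,
    ⟨⟨36, 24⟩, ⟨2, 1⟩, 1, ⟨126, 55⟩⟩,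
    ⟨⟨54, 33⟩, ⟨2, 1⟩, 2, ⟨216, 94⟩⟩,
    ⟨⟨72, 42⟩, ⟨2, 1⟩, 0, ⟨144, 70⟩⟩,
    ⟨⟨90, 51⟩, ⟨2, 1⟩, 1, ⟨234, 109⟩⟩,
    ⟨⟨108, 60⟩, ⟨2, 0⟩, 2, ⟨324, 148⟩⟩,
    ⟨⟨126, 60⟩, ⟨2, 1⟩, 0, ⟨252, 106⟩⟩,
    ⟨⟨144, 69⟩, ⟨2, 0⟩, 1, ⟨342, 145⟩⟩,
    ⟨⟨0, 7⟩, ⟨2, 0⟩, 0, ⟨0, 24⟩⟩,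
    ⟨⟨18, 7⟩, ⟨2, 1⟩, 1, ⟨90, 45⟩⟩,
    ⟨⟨36, 16⟩, ⟨2, 1⟩, 2, ⟨180, 84⟩⟩,
    ⟨⟨54, 25⟩, ⟨2, 1⟩, 0, ⟨108, 60⟩⟩,
    ⟨⟨72, 34⟩, ⟨2, 0⟩, 1, ⟨198, 99⟩⟩,
    ⟨⟨90, 34⟩, ⟨2, 1⟩, 2, ⟨288, 120⟩⟩,
    ⟨⟨108, 43⟩, ⟨2, 1⟩, 0, ⟨216, 96⟩⟩,
    ⟨⟨126, 52⟩, ⟨2, 1⟩, 1, ⟨306, 135⟩⟩,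
    ⟨⟨144, 61⟩, ⟨2, 0⟩, 2, ⟨396, 174⟩⟩,
    ⟨⟨162, 61⟩, ⟨0, 1⟩, 2, ⟨432, 174⟩⟩,
    ⟨⟨0, 8⟩, ⟨0, 1⟩, 2, ⟨108, 42⟩⟩,
    ⟨⟨0, 17⟩, ⟨2, 0⟩, 1, ⟨54, 39⟩⟩,
    ⟨⟨18, 17⟩, ⟨0, 1⟩, 0, ⟨36, 18⟩⟩,
    ⟨⟨18, 26⟩, ⟨2, 0⟩, 2, ⟨144, 78⟩⟩,
    ⟨⟨36, 26⟩, ⟨2, 1⟩, 0, ⟨72, 36⟩⟩,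
    ⟨⟨54, 35⟩, ⟨2, 1⟩, 1, ⟨162, 75⟩⟩,
    ⟨⟨72, 44⟩, ⟨2, 0⟩, 2, ⟨252, 114⟩⟩,
    ⟨⟨90, 44⟩, ⟨0, 1⟩, 1, ⟨234, 93⟩⟩,
    ⟨⟨90, 53⟩, ⟨2, 0⟩, 0, ⟨180, 90⟩⟩,
    ⟨⟨108, 53⟩, ⟨0, 1⟩, 2, ⟨324, 132⟩⟩,
    ⟨⟨108, 62⟩, ⟨2, 0⟩, 1, ⟨270, 129⟩⟩,
    ⟨⟨126, 62⟩, ⟨2, 1⟩, 2, ⟨360, 150⟩⟩,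
    ⟨⟨144, 71⟩, ⟨2, 0⟩, 0, ⟨288, 126⟩⟩]

theorem ok0 : famOK ctx base fam0 = true := by decide +kernel

def fam1 : Fam where
  ints := [(⟨0, 0⟩, ⟨0, 20⟩)]
  arcs := [
    ⟨⟨0, 0⟩, ⟨0, 1⟩, 0, ⟨0, 0⟩⟩,
    ⟨⟨0, 9⟩, ⟨2, 1⟩, 1, ⟨54, 39⟩⟩,
    ⟨⟨18, 18⟩, ⟨2, 1⟩, 2, ⟨144, 78⟩⟩,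
    ⟨⟨36, 27⟩, ⟨2, 0⟩, 0, ⟨72, 54⟩⟩,
    ⟨⟨54, 27⟩, ⟨2, 1⟩, 1, ⟨162, 75⟩⟩,
    ⟨⟨72, 36⟩, ⟨2, 1⟩, 2, ⟨252, 114⟩⟩,
    ⟨⟨90, 45⟩, ⟨2, 1⟩, 0, ⟨180, 90⟩⟩,
    ⟨⟨108, 54⟩, ⟨2, 1⟩, 1, ⟨270, 129⟩⟩,
    ⟨⟨126, 63⟩, ⟨2, 0⟩, 2, ⟨360, 168⟩⟩,
    ⟨⟨144, 63⟩, ⟨2, 0⟩, 0, ⟨288, 126⟩⟩,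
    ⟨⟨0, 1⟩, ⟨0, 2⟩, 0, ⟨0, -16⟩⟩,
    ⟨⟨0, 19⟩, ⟨2, 1⟩, 1, ⟨54, 41⟩⟩,
    ⟨⟨18, 28⟩, ⟨2, 1⟩, 2, ⟨144, 80⟩⟩,
    ⟨⟨36, 37⟩, ⟨2, 0⟩, 0, ⟨72, 56⟩⟩,
    ⟨⟨54, 37⟩, ⟨2, 1⟩, 1, ⟨162, 77⟩⟩,
    ⟨⟨72, 46⟩, ⟨2, 1⟩, 2, ⟨252, 116⟩⟩,
    ⟨⟨90, 55⟩, ⟨2, 1⟩, 0, ⟨180, 92⟩⟩,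
    ⟨⟨108, 64⟩, ⟨2, 0⟩, 1, ⟨270, 131⟩⟩,
    ⟨⟨126, 64⟩, ⟨0, 1⟩, 1, ⟨306, 131⟩⟩,
    ⟨⟨126, 73⟩, ⟨2, 0⟩, 2, ⟨360, 170⟩⟩,
    ⟨⟨144, 73⟩, ⟨2, -1⟩, 0, ⟨288, 128⟩⟩,
    ⟨⟨0, 2⟩, ⟨0, 1⟩, 1, ⟨54, 23⟩⟩,
    ⟨⟨0, 11⟩, ⟨2, 1⟩, 2, ⟨108, 62⟩⟩,
    ⟨⟨18, 20⟩, ⟨2, 1⟩, 0, ⟨36, 38⟩⟩,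
    ⟨⟨36, 29⟩, ⟨2, 0⟩, 1, ⟨126, 77⟩⟩,
    ⟨⟨54, 29⟩, ⟨0, 1⟩, 0, ⟨108, 56⟩⟩,
    ⟨⟨54, 38⟩, ⟨2, 0⟩, 2, ⟨216, 116⟩⟩,
    ⟨⟨72, 38⟩, ⟨0, 1⟩, 1, ⟨198, 95⟩⟩,
    ⟨⟨72, 47⟩, ⟨2, 0⟩, 0, ⟨144, 92⟩⟩,
    ⟨⟨90, 47⟩, ⟨2, 1⟩, 1, ⟨234, 113⟩⟩,
    ⟨⟨108, 56⟩, ⟨2, 1⟩, 2, ⟨324, 152⟩⟩,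
    ⟨⟨126, 65⟩, ⟨2, 0⟩, 0, ⟨252, 128⟩⟩,
    ⟨⟨144, 65⟩, ⟨0, 1⟩, 2, ⟨396, 170⟩⟩,
    ⟨⟨144, 74⟩, ⟨2, -1⟩, 1, ⟨342, 167⟩⟩,
    ⟨⟨0, 3⟩, ⟨0, 1⟩, 0, ⟨0, 20⟩⟩,
    ⟨⟨0, 12⟩, ⟨2, 0⟩, 0, ⟨0, 38⟩⟩,
    ⟨⟨18, 12⟩, ⟨2, 1⟩, 1, ⟨90, 59⟩⟩,
    ⟨⟨36, 21⟩, ⟨2, 1⟩, 2, ⟨180, 98⟩⟩,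
    ⟨⟨54, 30⟩, ⟨2, 1⟩, 0, ⟨108, 74⟩⟩,
    ⟨⟨72, 39⟩, ⟨2, 0⟩, 1, ⟨198, 113⟩⟩,
    ⟨⟨90, 39⟩, ⟨2, 1⟩, 2, ⟨288, 134⟩⟩,
    ⟨⟨108, 48⟩, ⟨2, 1⟩, 0, ⟨216, 110⟩⟩,
    ⟨⟨126, 57⟩, ⟨2, 1⟩, 1, ⟨306, 149⟩⟩,
    ⟨⟨144, 66⟩, ⟨2, 0⟩, 2, ⟨396, 188⟩⟩,
    ⟨⟨0, 4⟩, ⟨0, 1⟩, 2, ⟨108, 46⟩⟩,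
    ⟨⟨0, 13⟩, ⟨2, 1⟩, 0, ⟨0, 22⟩⟩,
    ⟨⟨18, 22⟩, ⟨2, 1⟩, 1, ⟨90, 61⟩⟩,
    ⟨⟨36, 31⟩, ⟨2, 1⟩, 2, ⟨180, 100⟩⟩,
    ⟨⟨54, 40⟩, ⟨2, 1⟩, 0, ⟨108, 76⟩⟩,
    ⟨⟨72, 49⟩, ⟨2, 0⟩, 1, ⟨198, 115⟩⟩,
    ⟨⟨90, 49⟩, ⟨2, 1⟩, 2, ⟨288, 136⟩⟩,
    ⟨⟨108, 58⟩, ⟨2, 1⟩, 0, ⟨216, 112⟩⟩,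
    ⟨⟨126, 67⟩, ⟨2, 1⟩, 1, ⟨306, 151⟩⟩,
    ⟨⟨144, 76⟩, ⟨2, -1⟩, 2, ⟨396, 190⟩⟩,
    ⟨⟨0, 5⟩, ⟨0, 1⟩, 2, ⟨108, 64⟩⟩,
    ⟨⟨0, 14⟩, ⟨2, 0⟩, 2, ⟨108, 82⟩⟩,
    ⟨⟨18, 14⟩, ⟨2, 1⟩, 0, ⟨36, 40⟩⟩,
    ⟨⟨36, 23⟩, ⟨2, 0⟩, 1, ⟨126, 79⟩⟩,
    ⟨⟨54, 23⟩, ⟨0, 1⟩, 0, ⟨108, 58⟩⟩,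
    ⟨⟨54, 32⟩, ⟨2, 0⟩, 2, ⟨216, 118⟩⟩,
    ⟨⟨72, 32⟩, ⟨0, 1⟩, 1, ⟨198, 97⟩⟩,
    ⟨⟨72, 41⟩, ⟨2, 0⟩, 0, ⟨144, 94⟩⟩,
    ⟨⟨90, 41⟩, ⟨2, 1⟩, 1, ⟨234, 115⟩⟩,
    ⟨⟨108, 50⟩, ⟨2, 1⟩, 2, ⟨324, 154⟩⟩,
    ⟨⟨126, 59⟩, ⟨2, 0⟩, 0, ⟨252, 130⟩⟩,
    ⟨⟨144, 59⟩, ⟨0, 1⟩, 2, ⟨396, 172⟩⟩,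
    ⟨⟨144, 68⟩, ⟨2, 0⟩, 1, ⟨342, 169⟩⟩,
    ⟨⟨0, 6⟩, ⟨0, 1⟩, 2, ⟨108, 40⟩⟩,
    ⟨⟨0, 15⟩, ⟨2, 1⟩, 0, ⟨0, 16⟩⟩,
    ⟨⟨18, 24⟩, ⟨2, 1⟩, 1, ⟨90, 55⟩⟩,
    ⟨⟨36, 33⟩, ⟨2, 1⟩, 2, ⟨180, 94⟩⟩,
    ⟨⟨54, 42⟩, ⟨2, 1⟩, 0, ⟨108, 70⟩⟩,
    ⟨⟨72, 51⟩, ⟨2, 0⟩, 1, ⟨198, 109⟩⟩,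
    ⟨⟨90, 51⟩, ⟨2, 1⟩, 2, ⟨288, 130⟩⟩,
    ⟨⟨108, 60⟩, ⟨2, 1⟩, 0, ⟨216, 106⟩⟩,
    ⟨⟨126, 69⟩, ⟨2, 1⟩, 1, ⟨306, 145⟩⟩,
    ⟨⟨144, 78⟩, ⟨2, -1⟩, 2, ⟨396, 184⟩⟩,
    ⟨⟨0, 7⟩, ⟨2, 1⟩, 1, ⟨54, 45⟩⟩,
    ⟨⟨18, 16⟩, ⟨2, 1⟩, 2, ⟨144, 84⟩⟩,
    ⟨⟨36, 25⟩, ⟨2, 0⟩, 0, ⟨72, 60⟩⟩,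
    ⟨⟨54, 25⟩, ⟨2, 1⟩, 1, ⟨162, 81⟩⟩,
    ⟨⟨72, 34⟩, ⟨2, 1⟩, 2, ⟨252, 120⟩⟩,
    ⟨⟨90, 43⟩, ⟨2, 1⟩, 0, ⟨180, 96⟩⟩,
    ⟨⟨108, 52⟩, ⟨2, 1⟩, 1, ⟨270, 135⟩⟩,
    ⟨⟨126, 61⟩, ⟨2, 0⟩, 2, ⟨360, 174⟩⟩,
    ⟨⟨144, 61⟩, ⟨2, 1⟩, 0, ⟨288, 132⟩⟩,
    ⟨⟨0, 8⟩, ⟨0, 1⟩, 1, ⟨54, 21⟩⟩,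
    ⟨⟨0, 17⟩, ⟨2, 1⟩, 2, ⟨108, 60⟩⟩,
    ⟨⟨18, 26⟩, ⟨2, 1⟩, 0, ⟨36, 36⟩⟩,
    ⟨⟨36, 35⟩, ⟨2, 0⟩, 1, ⟨126, 75⟩⟩,
    ⟨⟨54, 35⟩, ⟨0, 1⟩, 0, ⟨108, 54⟩⟩,
    ⟨⟨54, 44⟩, ⟨2, 0⟩, 2, ⟨216, 114⟩⟩,
    ⟨⟨72, 44⟩, ⟨0, 1⟩, 1, ⟨198, 93⟩⟩,
    ⟨⟨72, 53⟩, ⟨2, 0⟩, 0, ⟨144, 90⟩⟩,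
    ⟨⟨90, 53⟩, ⟨2, 1⟩, 1, ⟨234, 111⟩⟩,
    ⟨⟨108, 62⟩, ⟨2, 0⟩, 2, ⟨324, 150⟩⟩,
    ⟨⟨126, 62⟩, ⟨0, 1⟩, 2, ⟨360, 150⟩⟩,
    ⟨⟨126, 71⟩, ⟨2, 0⟩, 0, ⟨252, 126⟩⟩,
    ⟨⟨144, 71⟩, ⟨0, 1⟩, 2, ⟨396, 168⟩⟩,
    ⟨⟨144, 80⟩, ⟨2, -1⟩, 1, ⟨342, 165⟩⟩]

theorem ok1 : famOK ctx base fam1 = true := by decide +kernel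

def cover : List (Aff × Aff) := [(⟨0, 0⟩, ⟨0, 20⟩), (⟨0, 6⟩, ⟨54, 21⟩)]

theorem ok : allOK ctx base [fam0, fam1] cover = true := by
  have h : (cov ctx [fam0, fam1] cover ⟨0, 0⟩ && pos ctx ctx.k && decide (0 < ctx.P) && baseOK ctx base) = true := by decide +kernel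
  simp only [allOK, List.all_cons, List.all_nil, Bool.and_true, ok0, ok1, Bool.true_and]
  exact h

end Pool.Agent.H57.QX.E21
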