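import Pool.Agent.H57.QX.Fam

/-!
# Exact families: `k = 54 t + 3`, `t ≥ 3` (found by helper58)
-/

set_option autoImplicit false

namespace Pool.Agent.H57.QX.E3

def ctx : Ctx := ⟨3, 54, 3, 9⟩

def base : List Arc := [
    ⟨⟨0, 0⟩, ⟨18, 1⟩, 0, ⟨0, 0⟩⟩,
    ⟨⟨0, 1⟩, ⟨18, 1⟩, 0, ⟨0, 8⟩⟩,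
    ⟨⟨0, 2⟩, ⟨18, 1⟩, 0, ⟨0, 2⟩⟩,
    ⟨⟨0, 3⟩, ⟨18, 1⟩, 0, ⟨0, 2⟩⟩,
    ⟨⟨0, 4⟩, ⟨18, 1⟩, 0, ⟨0, 4⟩⟩,
    ⟨⟨0, 5⟩, ⟨18, 1⟩, 0, ⟨0, 4⟩⟩,
    ⟨⟨0, 6⟩, ⟨18, 1⟩, 0, ⟨0, 22⟩⟩,
    ⟨⟨0, 7⟩, ⟨18, 1⟩, 0, ⟨0, 6⟩⟩,
    ⟨⟨0, 8⟩, ⟨18, 1⟩, 0, ⟨0, 24⟩⟩]

def fam0 : Fam where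
  ints := [(⟨18, 9⟩, ⟨54, 3⟩)]
  arcs := [
    ⟨⟨0, 0⟩, ⟨0, 1⟩, 1, ⟨54, 3⟩⟩,
    ⟨⟨0, 9⟩, ⟨2, 0⟩, 2, ⟨108, 24⟩⟩,
    ⟨⟨18, 9⟩, ⟨2, 0⟩, 0, ⟨36, 18⟩⟩,
    ⟨⟨36, 9⟩, ⟨2, 0⟩, 1, ⟨126, 21⟩⟩,
    ⟨⟨54, 9⟩, ⟨2, 0⟩, 2, ⟨216, 24⟩⟩,
    ⟨⟨72, 9⟩, ⟨2, 0⟩, 0, ⟨144, 18⟩⟩,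
    ⟨⟨90, 9⟩, ⟨2, 1⟩, 1, ⟨234, 21⟩⟩,
    ⟨⟨108, 18⟩, ⟨2, 0⟩, 2, ⟨324, 42⟩⟩,
    ⟨⟨126, 18⟩, ⟨2, 0⟩, 0, ⟨252, 36⟩⟩,
    ⟨⟨144, 18⟩, ⟨2, -1⟩, 1, ⟨342, 39⟩⟩,
    ⟨⟨0, 1⟩, ⟨0, 1⟩, 2, ⟨108, 14⟩⟩,
    ⟨⟨0, 10⟩, ⟨2, 0⟩, 0, ⟨0, 26⟩⟩,
    ⟨⟨18, 10⟩, ⟨2, 0⟩, 1, ⟨90, 29⟩⟩,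
    ⟨⟨36, 10⟩, ⟨2, 0⟩, 2, ⟨180, 32⟩⟩,
    ⟨⟨54, 10⟩, ⟨2, 0⟩, 0, ⟨108, 26⟩⟩,
    ⟨⟨72, 10⟩, ⟨2, 0⟩, 1, ⟨198, 29⟩⟩,
    ⟨⟨90, 10⟩, ⟨2, 0⟩, 2, ⟨288, 32⟩⟩,
    ⟨⟨108, 10⟩, ⟨2, 0⟩, 0, ⟨216, 26⟩⟩,
    ⟨⟨126, 10⟩, ⟨2, 0⟩, 1, ⟨306, 29⟩⟩,
    ⟨⟨144, 10⟩, ⟨2, 0⟩, 2, ⟨396, 32⟩⟩,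
    ⟨⟨0, 2⟩, ⟨0, 1⟩, 0, ⟨0, 2⟩⟩,
    ⟨⟨0, 11⟩, ⟨2, 0⟩, 1, ⟨54, 23⟩⟩,
    ⟨⟨18, 11⟩, ⟨2, 0⟩, 2, ⟨144, 26⟩⟩,
    ⟨⟨36, 11⟩, ⟨2, 0⟩, 0, ⟨72, 20⟩⟩,
    ⟨⟨54, 11⟩, ⟨2, 0⟩, 1, ⟨162, 23⟩⟩,
    ⟨⟨72, 11⟩, ⟨2, 0⟩, 2, ⟨252, 26⟩⟩,
    ⟨⟨90, 11⟩, ⟨2, 0⟩, 0, ⟨180, 20⟩⟩,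
    ⟨⟨108, 11⟩, ⟨0, 1⟩, 2, ⟨324, 26⟩⟩,
    ⟨⟨108, 20⟩, ⟨2, -1⟩, 1, ⟨270, 41⟩⟩,
    ⟨⟨126, 11⟩, ⟨0, 1⟩, 0, ⟨252, 20⟩⟩,
    ⟨⟨126, 20⟩, ⟨2, -1⟩, 2, ⟨360, 44⟩⟩,
    ⟨⟨144, 11⟩, ⟨0, 1⟩, 1, ⟨342, 23⟩⟩,
    ⟨⟨144, 20⟩, ⟨2, -1⟩, 0, ⟨288, 38⟩⟩,
    ⟨⟨0, 3⟩, ⟨0, 1⟩, 2, ⟨108, 8⟩⟩,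
    ⟨⟨0, 12⟩, ⟨2, 0⟩, 0, ⟨0, 20⟩⟩,
    ⟨⟨18, 12⟩, ⟨2, 0⟩, 1, ⟨90, 23⟩⟩,
    ⟨⟨36, 12⟩, ⟨2, 0⟩, 2, ⟨180, 26⟩⟩,
    ⟨⟨54, 12⟩, ⟨2, 0⟩, 0, ⟨108, 20⟩⟩,
    ⟨⟨72, 12⟩, ⟨2, 0⟩, 1, ⟨198, 23⟩⟩,
    ⟨⟨90, 12⟩, ⟨2, 0⟩, 2, ⟨288, 26⟩⟩,
    ⟨⟨108, 12⟩, ⟨2, 0⟩, 0, ⟨216, 20⟩⟩,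
    ⟨⟨126, 12⟩, ⟨2, 0⟩, 1, ⟨306, 23⟩⟩,
    ⟨⟨144, 12⟩, ⟨2, 0⟩, 2, ⟨396, 26⟩⟩,
    ⟨⟨0, 4⟩, ⟨0, 1⟩, 2, ⟨108, 10⟩⟩,
    ⟨⟨0, 13⟩, ⟨2, 0⟩, 0, ⟨0, 22⟩⟩,
    ⟨⟨18, 13⟩, ⟨2, 0⟩, 1, ⟨90, 25⟩⟩,
    ⟨⟨36, 13⟩, ⟨2, 0⟩, 2, ⟨180, 28⟩⟩,
    ⟨⟨54, 13⟩, ⟨2, 0⟩, 0, ⟨108, 22⟩⟩,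
    ⟨⟨72, 13⟩, ⟨2, 0⟩, 1, ⟨198, 25⟩⟩,
    ⟨⟨90, 13⟩, ⟨2, 0⟩, 2, ⟨288, 28⟩⟩,
    ⟨⟨108, 13⟩, ⟨2, 0⟩, 0, ⟨216, 22⟩⟩,
    ⟨⟨126, 13⟩, ⟨2, 0⟩, 1, ⟨306, 25⟩⟩,
    ⟨⟨144, 13⟩, ⟨2, 0⟩, 2, ⟨396, 28⟩⟩,
    ⟨⟨0, 5⟩, ⟨0, 1⟩, 0, ⟨0, 4⟩⟩,
    ⟨⟨0, 14⟩, ⟨2, 0⟩, 1, ⟨54, 25⟩⟩,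
    ⟨⟨18, 14⟩, ⟨2, 0⟩, 2, ⟨144, 28⟩⟩,
    ⟨⟨36, 14⟩, ⟨2, 0⟩, 0, ⟨72, 22⟩⟩,
    ⟨⟨54, 14⟩, ⟨2, 0⟩, 1, ⟨162, 25⟩⟩,
    ⟨⟨72, 14⟩, ⟨2, 0⟩, 2, ⟨252, 28⟩⟩,
    ⟨⟨90, 14⟩, ⟨2, 0⟩, 0, ⟨180, 22⟩⟩,
    ⟨⟨108, 14⟩, ⟨2, 0⟩, 1, ⟨270, 25⟩⟩,
    ⟨⟨126, 14⟩, ⟨2, 0⟩, 2, ⟨360, 28⟩⟩,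
    ⟨⟨144, 14⟩, ⟨2, 0⟩, 0, ⟨288, 22⟩⟩,
    ⟨⟨0, 6⟩, ⟨2, 0⟩, 2, ⟨108, 28⟩⟩,
    ⟨⟨18, 6⟩, ⟨2, 0⟩, 0, ⟨36, 22⟩⟩,
    ⟨⟨36, 6⟩, ⟨2, 0⟩, 1, ⟨126, 25⟩⟩,
    ⟨⟨54, 6⟩, ⟨2, 0⟩, 2, ⟨216, 28⟩⟩,
    ⟨⟨72, 6⟩, ⟨2, 0⟩, 0, ⟨144, 22⟩⟩,
    ⟨⟨90, 6⟩, ⟨2, 0⟩, 1, ⟨234, 25⟩⟩,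
    ⟨⟨108, 6⟩, ⟨2, 0⟩, 2, ⟨324, 28⟩⟩,
    ⟨⟨126, 6⟩, ⟨2, 0⟩, 0, ⟨252, 22⟩⟩,
    ⟨⟨144, 6⟩, ⟨0, 1⟩, 1, ⟨342, 25⟩⟩,
    ⟨⟨144, 15⟩, ⟨2, 0⟩, 1, ⟨342, 43⟩⟩,
    ⟨⟨0, 7⟩, ⟨0, 1⟩, 1, ⟨54, 9⟩⟩,
    ⟨⟨0, 16⟩, ⟨2, 0⟩, 2, ⟨108, 30⟩⟩,
    ⟨⟨18, 16⟩, ⟨2, 0⟩, 0, ⟨36, 24⟩⟩,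
    ⟨⟨36, 16⟩, ⟨2, 0⟩, 1, ⟨126, 27⟩⟩,
    ⟨⟨54, 16⟩, ⟨2, 0⟩, 2, ⟨216, 30⟩⟩,
    ⟨⟨72, 16⟩, ⟨2, 0⟩, 0, ⟨144, 24⟩⟩,
    ⟨⟨90, 16⟩, ⟨2, 0⟩, 1, ⟨234, 27⟩⟩,
    ⟨⟨108, 16⟩, ⟨2, 0⟩, 2, ⟨324, 30⟩⟩,
    ⟨⟨126, 16⟩, ⟨2, 0⟩, 0, ⟨252, 24⟩⟩,
    ⟨⟨144, 16⟩, ⟨2, 0⟩, 1, ⟨342, 27⟩⟩,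
    ⟨⟨0, 8⟩, ⟨2, 0⟩, 1, ⟨54, 27⟩⟩,
    ⟨⟨18, 8⟩, ⟨2, 0⟩, 2, ⟨144, 30⟩⟩,
    ⟨⟨36, 8⟩, ⟨2, 0⟩, 0, ⟨72, 24⟩⟩,
    ⟨⟨54, 8⟩, ⟨2, 0⟩, 1, ⟨162, 27⟩⟩,
    ⟨⟨72, 8⟩, ⟨2, 0⟩, 2, ⟨252, 30⟩⟩,
    ⟨⟨90, 8⟩, ⟨2, 0⟩, 0, ⟨180, 24⟩⟩,
    ⟨⟨108, 8⟩, ⟨2, 0⟩, 1, ⟨270, 27⟩⟩,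
    ⟨⟨126, 8⟩, ⟨2, 0⟩, 2, ⟨360, 30⟩⟩,
    ⟨⟨144, 8⟩, ⟨0, 1⟩, 0, ⟨288, 24⟩⟩,
    ⟨⟨144, 17⟩, ⟨2, 0⟩, 0, ⟨288, 42⟩⟩]

theorem ok0 : famOK ctx base fam0 = true := by decide +kernel

def fam1 : Fam where
  ints := [(⟨0, 0⟩, ⟨18, 20⟩)]
  arcs := [
    ⟨⟨0, 0⟩, ⟨1, 2⟩, 1, ⟨54, 3⟩⟩,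
    ⟨⟨9, 18⟩, ⟨2, 0⟩, 2, ⟨126, 42⟩⟩,
    ⟨⟨27, 18⟩, ⟨2, 0⟩, 0, ⟨54, 36⟩⟩,
    ⟨⟨45, 18⟩, ⟨2, 0⟩, 1, ⟨144, 39⟩⟩,
    ⟨⟨63, 18⟩, ⟨2, 0⟩, 2, ⟨234, 42⟩⟩,
    ⟨⟨81, 18⟩, ⟨2, 0⟩, 0, ⟨162, 36⟩⟩,
    ⟨⟨99, 18⟩, ⟨2, 1⟩, 1, ⟨252, 39⟩⟩,
    ⟨⟨117, 27⟩, ⟨2, 0⟩, 2, ⟨342, 60⟩⟩,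
    ⟨⟨135, 27⟩, ⟨2, 0⟩, 0, ⟨270, 54⟩⟩,
    ⟨⟨153, 27⟩, ⟨1, -2⟩, 1, ⟨360, 57⟩⟩,
    ⟨⟨0, 1⟩, ⟨1, 2⟩, 2, ⟨108, 14⟩⟩,
    ⟨⟨9, 19⟩, ⟨2, 0⟩, 0, ⟨18, 44⟩⟩,
    ⟨⟨27, 19⟩, ⟨2, 0⟩, 1, ⟨108, 47⟩⟩,
    ⟨⟨45, 19⟩, ⟨2, 0⟩, 2, ⟨198, 50⟩⟩,
    ⟨⟨63, 19⟩, ⟨2, 0⟩, 0, ⟨126, 44⟩⟩,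
    ⟨⟨81, 19⟩, ⟨2, 0⟩, 1, ⟨216, 47⟩⟩,
    ⟨⟨99, 19⟩, ⟨2, 0⟩, 2, ⟨306, 50⟩⟩,
    ⟨⟨117, 19⟩, ⟨2, 0⟩, 0, ⟨234, 44⟩⟩,
    ⟨⟨135, 19⟩, ⟨2, 0⟩, 1, ⟨324, 47⟩⟩,
    ⟨⟨153, 19⟩, ⟨1, -1⟩, 2, ⟨414, 50⟩⟩,
    ⟨⟨0, 2⟩, ⟨1, 1⟩, 0, ⟨0, 2⟩⟩,
    ⟨⟨9, 11⟩, ⟨0, 1⟩, 0, ⟨18, 20⟩⟩,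
    ⟨⟨9, 20⟩, ⟨2, 0⟩, 1, ⟨72, 41⟩⟩,
    ⟨⟨27, 20⟩, ⟨2, 0⟩, 2, ⟨162, 44⟩⟩,
    ⟨⟨45, 20⟩, ⟨2, 0⟩, 0, ⟨90, 38⟩⟩,
    ⟨⟨63, 20⟩, ⟨2, 0⟩, 1, ⟨180, 41⟩⟩,
    ⟨⟨81, 20⟩, ⟨2, 0⟩, 2, ⟨270, 44⟩⟩,
    ⟨⟨99, 20⟩, ⟨2, 0⟩, 0, ⟨198, 38⟩⟩,
    ⟨⟨117, 20⟩, ⟨0, 1⟩, 2, ⟨342, 44⟩⟩,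
    ⟨⟨117, 29⟩, ⟨2, -1⟩, 1, ⟨288, 59⟩⟩,
    ⟨⟨135, 20⟩, ⟨0, 1⟩, 0, ⟨270, 38⟩⟩,
    ⟨⟨135, 29⟩, ⟨2, -1⟩, 2, ⟨378, 62⟩⟩,
    ⟨⟨153, 20⟩, ⟨0, 1⟩, 1, ⟨360, 41⟩⟩,
    ⟨⟨153, 29⟩, ⟨1, -2⟩, 0, ⟨306, 56⟩⟩,
    ⟨⟨0, 3⟩, ⟨1, 2⟩, 2, ⟨108, 8⟩⟩,
    ⟨⟨9, 21⟩, ⟨2, 0⟩, 0, ⟨18, 38⟩⟩,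
    ⟨⟨27, 21⟩, ⟨2, 0⟩, 1, ⟨108, 41⟩⟩,
    ⟨⟨45, 21⟩, ⟨2, 0⟩, 2, ⟨198, 44⟩⟩,
    ⟨⟨63, 21⟩, ⟨2, 0⟩, 0, ⟨126, 38⟩⟩,
    ⟨⟨81, 21⟩, ⟨2, 0⟩, 1, ⟨216, 41⟩⟩,
    ⟨⟨99, 21⟩, ⟨2, 0⟩, 2, ⟨306, 44⟩⟩,
    ⟨⟨117, 21⟩, ⟨2, 0⟩, 0, ⟨234, 38⟩⟩,
    ⟨⟨135, 21⟩, ⟨2, 0⟩, 1, ⟨324, 41⟩⟩,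
    ⟨⟨153, 21⟩, ⟨1, -1⟩, 2, ⟨414, 44⟩⟩,
    ⟨⟨0, 4⟩, ⟨1, 1⟩, 2, ⟨108, 10⟩⟩,
    ⟨⟨9, 13⟩, ⟨0, 1⟩, 2, ⟨126, 28⟩⟩,
    ⟨⟨9, 22⟩, ⟨2, 0⟩, 0, ⟨18, 40⟩⟩,
    ⟨⟨27, 22⟩, ⟨2, 0⟩, 1, ⟨108, 43⟩⟩,
    ⟨⟨45, 22⟩, ⟨2, 0⟩, 2, ⟨198, 46⟩⟩,
    ⟨⟨63, 22⟩, ⟨2, 0⟩, 0, ⟨126, 40⟩⟩,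
    ⟨⟨81, 22⟩, ⟨2, 0⟩, 1, ⟨216, 43⟩⟩,
    ⟨⟨99, 22⟩, ⟨2, 0⟩, 2, ⟨306, 46⟩⟩,
    ⟨⟨117, 22⟩, ⟨2, 0⟩, 0, ⟨234, 40⟩⟩,
    ⟨⟨135, 22⟩, ⟨2, 0⟩, 1, ⟨324, 43⟩⟩,
    ⟨⟨153, 22⟩, ⟨1, -1⟩, 2, ⟨414, 46⟩⟩,
    ⟨⟨0, 5⟩, ⟨1, 2⟩, 0, ⟨0, 4⟩⟩,
    ⟨⟨9, 23⟩, ⟨2, 0⟩, 1, ⟨72, 43⟩⟩,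
    ⟨⟨27, 23⟩, ⟨2, 0⟩, 2, ⟨162, 46⟩⟩,
    ⟨⟨45, 23⟩, ⟨2, 0⟩, 0, ⟨90, 40⟩⟩,
    ⟨⟨63, 23⟩, ⟨2, 0⟩, 1, ⟨180, 43⟩⟩,
    ⟨⟨81, 23⟩, ⟨2, 0⟩, 2, ⟨270, 46⟩⟩,
    ⟨⟨99, 23⟩, ⟨2, 0⟩, 0, ⟨198, 40⟩⟩,
    ⟨⟨117, 23⟩, ⟨2, 0⟩, 1, ⟨288, 43⟩⟩,
    ⟨⟨135, 23⟩, ⟨2, 0⟩, 2, ⟨378, 46⟩⟩,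
    ⟨⟨153, 23⟩, ⟨1, -1⟩, 0, ⟨306, 40⟩⟩,
    ⟨⟨0, 6⟩, ⟨1, 1⟩, 1, ⟨54, 25⟩⟩,
    ⟨⟨9, 15⟩, ⟨2, 0⟩, 2, ⟨126, 46⟩⟩,
    ⟨⟨27, 15⟩, ⟨2, 0⟩, 0, ⟨54, 40⟩⟩,
    ⟨⟨45, 15⟩, ⟨2, 0⟩, 1, ⟨144, 43⟩⟩,
    ⟨⟨63, 15⟩, ⟨2, 0⟩, 2, ⟨234, 46⟩⟩,
    ⟨⟨81, 15⟩, ⟨2, 0⟩, 0, ⟨162, 40⟩⟩,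
    ⟨⟨99, 15⟩, ⟨2, 0⟩, 1, ⟨252, 43⟩⟩,
    ⟨⟨117, 15⟩, ⟨2, 0⟩, 2, ⟨342, 46⟩⟩,
    ⟨⟨135, 15⟩, ⟨2, 0⟩, 0, ⟨270, 40⟩⟩,
    ⟨⟨153, 15⟩, ⟨0, 1⟩, 1, ⟨360, 43⟩⟩,
    ⟨⟨153, 24⟩, ⟨1, -1⟩, 1, ⟨360, 61⟩⟩,
    ⟨⟨0, 7⟩, ⟨1, 2⟩, 1, ⟨54, 9⟩⟩,
    ⟨⟨9, 25⟩, ⟨2, 0⟩, 2, ⟨126, 48⟩⟩,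
    ⟨⟨27, 25⟩, ⟨2, 0⟩, 0, ⟨54, 42⟩⟩,
    ⟨⟨45, 25⟩, ⟨2, 0⟩, 1, ⟨144, 45⟩⟩,
    ⟨⟨63, 25⟩, ⟨2, 0⟩, 2, ⟨234, 48⟩⟩,
    ⟨⟨81, 25⟩, ⟨2, 0⟩, 0, ⟨162, 42⟩⟩,
    ⟨⟨99, 25⟩, ⟨2, 0⟩, 1, ⟨252, 45⟩⟩,
    ⟨⟨117, 25⟩, ⟨2, 0⟩, 2, ⟨342, 48⟩⟩,
    ⟨⟨135, 25⟩, ⟨2, 0⟩, 0, ⟨270, 42⟩⟩,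
    ⟨⟨153, 25⟩, ⟨1, -1⟩, 1, ⟨360, 45⟩⟩,
    ⟨⟨0, 8⟩, ⟨1, 1⟩, 0, ⟨0, 24⟩⟩,
    ⟨⟨9, 17⟩, ⟨2, 0⟩, 1, ⟨72, 45⟩⟩,
    ⟨⟨27, 17⟩, ⟨2, 0⟩, 2, ⟨162, 48⟩⟩,
    ⟨⟨45, 17⟩, ⟨2, 0⟩, 0, ⟨90, 42⟩⟩,
    ⟨⟨63, 17⟩, ⟨2, 0⟩, 1, ⟨180, 45⟩⟩,
    ⟨⟨81, 17⟩, ⟨2, 0⟩, 2, ⟨270, 48⟩⟩,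
    ⟨⟨99, 17⟩, ⟨2, 0⟩, 0, ⟨198, 42⟩⟩,
    ⟨⟨117, 17⟩, ⟨2, 0⟩, 1, ⟨288, 45⟩⟩,
    ⟨⟨135, 17⟩, ⟨2, 0⟩, 2, ⟨378, 48⟩⟩,
    ⟨⟨153, 17⟩, ⟨0, 1⟩, 0, ⟨306, 42⟩⟩,
    ⟨⟨153, 26⟩, ⟨1, -1⟩, 0, ⟨306, 60⟩⟩]

theorem ok1 : famOK ctx base fam1 = true := by decide +kernel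

def cover : List (Aff × Aff) := [(⟨0, 0⟩, ⟨18, 20⟩), (⟨18, 9⟩, ⟨54, 3⟩)]

theorem ok : allOK ctx base [fam0, fam1] cover = true := by
  have h : (cov ctx [fam0, fam1] cover ⟨0, 0⟩ && pos ctx ctx.k && decide (0 < ctx.P) && baseOK ctx base) = true := by decide +kernel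
  simp only [allOK, List.all_cons, List.all_nil, Bool.and_true, ok0, ok1, Bool.true_and]
  exact h

end Pool.Agent.H57.QX.E3
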