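import Pool.Agent.H57.QX.Fam

/-!
# Exact families: `k = 54 t + 33`, `t ≥ 1` (found by helper58)
-/

set_option autoImplicit false

namespace Pool.Agent.H57.QX.E33

def ctx : Ctx := ⟨1, 54, 33, 9⟩

def base : List Arc := [
    ⟨⟨0, 0⟩, ⟨18, 11⟩, 0, ⟨0, 0⟩⟩,
    ⟨⟨0, 1⟩, ⟨18, 11⟩, 0, ⟨0, 30⟩⟩,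
    ⟨⟨0, 2⟩, ⟨18, 11⟩, 0, ⟨0, 2⟩⟩,
    ⟨⟨0, 3⟩, ⟨18, 11⟩, 0, ⟨0, 22⟩⟩,
    ⟨⟨0, 4⟩, ⟨18, 11⟩, 0, ⟨0, 4⟩⟩,
    ⟨⟨0, 5⟩, ⟨18, 11⟩, 0, ⟨0, 24⟩⟩,
    ⟨⟨0, 6⟩, ⟨18, 11⟩, 0, ⟨0, 44⟩⟩,
    ⟨⟨0, 7⟩, ⟨18, 11⟩, 0, ⟨0, 26⟩⟩,
    ⟨⟨0, 8⟩, ⟨18, 11⟩, 0, ⟨0, 46⟩⟩]

def fam0 : Fam where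
  ints := [(⟨0, 12⟩, ⟨54, 33⟩)]
  arcs := [
    ⟨⟨0, 0⟩, ⟨0, 1⟩, 0, ⟨0, 0⟩⟩,
    ⟨⟨0, 9⟩, ⟨2, 1⟩, 0, ⟨0, 18⟩⟩,
    ⟨⟨18, 18⟩, ⟨2, 1⟩, 1, ⟨90, 69⟩⟩,
    ⟨⟨36, 27⟩, ⟨2, 1⟩, 2, ⟨180, 120⟩⟩,
    ⟨⟨54, 36⟩, ⟨2, 1⟩, 0, ⟨108, 72⟩⟩,
    ⟨⟨72, 45⟩, ⟨2, 2⟩, 1, ⟨198, 123⟩⟩,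
    ⟨⟨90, 63⟩, ⟨2, 1⟩, 2, ⟨288, 192⟩⟩,
    ⟨⟨108, 72⟩, ⟨2, 1⟩, 0, ⟨216, 144⟩⟩,
    ⟨⟨126, 81⟩, ⟨2, 1⟩, 1, ⟨306, 195⟩⟩,
    ⟨⟨144, 90⟩, ⟨2, 1⟩, 2, ⟨396, 246⟩⟩,
    ⟨⟨0, 1⟩, ⟨2, 1⟩, 0, ⟨0, 30⟩⟩,
    ⟨⟨18, 10⟩, ⟨2, 1⟩, 1, ⟨90, 81⟩⟩,
    ⟨⟨36, 19⟩, ⟨2, 1⟩, 2, ⟨180, 132⟩⟩,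
    ⟨⟨54, 28⟩, ⟨2, 1⟩, 0, ⟨108, 84⟩⟩,
    ⟨⟨72, 37⟩, ⟨2, 2⟩, 1, ⟨198, 135⟩⟩,
    ⟨⟨90, 55⟩, ⟨2, 1⟩, 2, ⟨288, 204⟩⟩,
    ⟨⟨108, 64⟩, ⟨2, 1⟩, 0, ⟨216, 156⟩⟩,
    ⟨⟨126, 73⟩, ⟨2, 1⟩, 1, ⟨306, 207⟩⟩,
    ⟨⟨144, 82⟩, ⟨2, 1⟩, 2, ⟨396, 258⟩⟩,
    ⟨⟨162, 91⟩, ⟨0, 1⟩, 2, ⟨432, 276⟩⟩,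
    ⟨⟨0, 2⟩, ⟨0, 1⟩, 2, ⟨108, 68⟩⟩,
    ⟨⟨0, 11⟩, ⟨2, 1⟩, 1, ⟨54, 53⟩⟩,
    ⟨⟨18, 20⟩, ⟨2, 1⟩, 2, ⟨144, 104⟩⟩,
    ⟨⟨36, 29⟩, ⟨2, 1⟩, 0, ⟨72, 56⟩⟩,
    ⟨⟨54, 38⟩, ⟨2, 1⟩, 1, ⟨162, 107⟩⟩,
    ⟨⟨72, 47⟩, ⟨0, 1⟩, 0, ⟨144, 92⟩⟩,
    ⟨⟨72, 56⟩, ⟨2, 1⟩, 2, ⟨252, 176⟩⟩,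
    ⟨⟨90, 65⟩, ⟨2, 1⟩, 0, ⟨180, 128⟩⟩,
    ⟨⟨108, 74⟩, ⟨2, 1⟩, 1, ⟨270, 179⟩⟩,
    ⟨⟨126, 83⟩, ⟨2, 1⟩, 2, ⟨360, 230⟩⟩,
    ⟨⟨144, 92⟩, ⟨2, 1⟩, 0, ⟨288, 182⟩⟩,
    ⟨⟨0, 3⟩, ⟨2, 1⟩, 1, ⟨54, 55⟩⟩,
    ⟨⟨18, 12⟩, ⟨2, 1⟩, 2, ⟨144, 106⟩⟩,
    ⟨⟨36, 21⟩, ⟨2, 2⟩, 0, ⟨72, 58⟩⟩,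
    ⟨⟨54, 39⟩, ⟨2, 1⟩, 1, ⟨162, 127⟩⟩,
    ⟨⟨72, 48⟩, ⟨2, 1⟩, 2, ⟨252, 178⟩⟩,
    ⟨⟨90, 57⟩, ⟨2, 1⟩, 0, ⟨180, 130⟩⟩,
    ⟨⟨108, 66⟩, ⟨2, 1⟩, 1, ⟨270, 181⟩⟩,
    ⟨⟨126, 75⟩, ⟨2, 2⟩, 2, ⟨360, 232⟩⟩,
    ⟨⟨144, 93⟩, ⟨2, 1⟩, 0, ⟨288, 202⟩⟩,
    ⟨⟨0, 4⟩, ⟨0, 1⟩, 1, ⟨54, 37⟩⟩,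
    ⟨⟨0, 13⟩, ⟨2, 1⟩, 2, ⟨108, 88⟩⟩,
    ⟨⟨18, 22⟩, ⟨2, 1⟩, 0, ⟨36, 40⟩⟩,
    ⟨⟨36, 31⟩, ⟨2, 1⟩, 1, ⟨126, 91⟩⟩,
    ⟨⟨54, 40⟩, ⟨2, 2⟩, 2, ⟨216, 142⟩⟩,
    ⟨⟨72, 58⟩, ⟨2, 1⟩, 0, ⟨144, 112⟩⟩,
    ⟨⟨90, 67⟩, ⟨2, 1⟩, 1, ⟨234, 163⟩⟩,
    ⟨⟨108, 76⟩, ⟨2, 1⟩, 2, ⟨324, 214⟩⟩,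
    ⟨⟨126, 85⟩, ⟨2, 1⟩, 0, ⟨252, 166⟩⟩,
    ⟨⟨144, 94⟩, ⟨2, 1⟩, 1, ⟨342, 217⟩⟩,
    ⟨⟨0, 5⟩, ⟨2, 0⟩, 0, ⟨0, 24⟩⟩,
    ⟨⟨18, 5⟩, ⟨0, 1⟩, 2, ⟨144, 90⟩⟩,
    ⟨⟨18, 14⟩, ⟨2, 1⟩, 1, ⟨90, 75⟩⟩,
    ⟨⟨36, 23⟩, ⟨2, 1⟩, 2, ⟨180, 126⟩⟩,
    ⟨⟨54, 32⟩, ⟨0, 1⟩, 1, ⟨162, 111⟩⟩,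
    ⟨⟨54, 41⟩, ⟨2, 0⟩, 0, ⟨108, 96⟩⟩,
    ⟨⟨72, 41⟩, ⟨0, 1⟩, 2, ⟨252, 162⟩⟩,
    ⟨⟨72, 50⟩, ⟨2, 0⟩, 1, ⟨198, 147⟩⟩,
    ⟨⟨90, 50⟩, ⟨0, 1⟩, 0, ⟨180, 114⟩⟩,
    ⟨⟨90, 59⟩, ⟨2, 0⟩, 2, ⟨288, 198⟩⟩,
    ⟨⟨108, 59⟩, ⟨0, 1⟩, 1, ⟨270, 165⟩⟩,
    ⟨⟨108, 68⟩, ⟨2, 1⟩, 0, ⟨216, 150⟩⟩,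
    ⟨⟨126, 77⟩, ⟨2, 1⟩, 1, ⟨306, 201⟩⟩,
    ⟨⟨144, 86⟩, ⟨0, 1⟩, 0, ⟨288, 186⟩⟩,
    ⟨⟨144, 95⟩, ⟨2, 0⟩, 2, ⟨396, 270⟩⟩,
    ⟨⟨162, 95⟩, ⟨0, 1⟩, 1, ⟨378, 237⟩⟩,
    ⟨⟨0, 6⟩, ⟨2, 0⟩, 1, ⟨54, 77⟩⟩,
    ⟨⟨18, 6⟩, ⟨2, 1⟩, 2, ⟨144, 110⟩⟩,
    ⟨⟨36, 15⟩, ⟨2, 1⟩, 0, ⟨72, 62⟩⟩,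
    ⟨⟨54, 24⟩, ⟨2, 1⟩, 1, ⟨162, 113⟩⟩,
    ⟨⟨72, 33⟩, ⟨2, 1⟩, 2, ⟨252, 164⟩⟩,
    ⟨⟨90, 42⟩, ⟨2, 2⟩, 0, ⟨180, 116⟩⟩,
    ⟨⟨108, 60⟩, ⟨2, 1⟩, 1, ⟨270, 185⟩⟩,
    ⟨⟨126, 69⟩, ⟨2, 1⟩, 2, ⟨360, 236⟩⟩,
    ⟨⟨144, 78⟩, ⟨2, 1⟩, 0, ⟨288, 188⟩⟩,
    ⟨⟨162, 87⟩, ⟨0, 2⟩, 1, ⟨378, 239⟩⟩,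
    ⟨⟨0, 7⟩, ⟨2, 0⟩, 2, ⟨108, 92⟩⟩,
    ⟨⟨18, 7⟩, ⟨2, 2⟩, 0, ⟨36, 26⟩⟩,
    ⟨⟨36, 25⟩, ⟨2, 1⟩, 1, ⟨126, 95⟩⟩,
    ⟨⟨54, 34⟩, ⟨2, 1⟩, 2, ⟨216, 146⟩⟩,
    ⟨⟨72, 43⟩, ⟨2, 1⟩, 0, ⟨144, 98⟩⟩,
    ⟨⟨90, 52⟩, ⟨2, 1⟩, 1, ⟨234, 149⟩⟩,
    ⟨⟨108, 61⟩, ⟨2, 2⟩, 2, ⟨324, 200⟩⟩,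
    ⟨⟨126, 79⟩, ⟨2, 1⟩, 0, ⟨252, 170⟩⟩,
    ⟨⟨144, 88⟩, ⟨2, 1⟩, 1, ⟨342, 221⟩⟩,
    ⟨⟨162, 97⟩, ⟨0, 1⟩, 2, ⟨432, 272⟩⟩,
    ⟨⟨0, 8⟩, ⟨2, 0⟩, 2, ⟨108, 112⟩⟩,
    ⟨⟨18, 8⟩, ⟨2, 1⟩, 0, ⟨36, 46⟩⟩,
    ⟨⟨36, 17⟩, ⟨2, 1⟩, 1, ⟨126, 97⟩⟩,
    ⟨⟨54, 26⟩, ⟨2, 1⟩, 2, ⟨216, 148⟩⟩,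
    ⟨⟨72, 35⟩, ⟨2, 1⟩, 0, ⟨144, 100⟩⟩,
    ⟨⟨90, 44⟩, ⟨0, 1⟩, 2, ⟨288, 184⟩⟩,
    ⟨⟨90, 53⟩, ⟨2, 1⟩, 1, ⟨234, 169⟩⟩,
    ⟨⟨108, 62⟩, ⟨2, 1⟩, 2, ⟨324, 220⟩⟩,
    ⟨⟨126, 71⟩, ⟨2, 1⟩, 0, ⟨252, 172⟩⟩,
    ⟨⟨144, 80⟩, ⟨2, 1⟩, 1, ⟨342, 223⟩⟩,
    ⟨⟨162, 89⟩, ⟨0, 1⟩, 0, ⟨324, 208⟩⟩,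
    ⟨⟨162, 98⟩, ⟨0, 1⟩, 2, ⟨432, 292⟩⟩]

theorem ok0 : famOK ctx base fam0 = true := by decide +kernel

def fam1 : Fam where
  ints := [(⟨0, 0⟩, ⟨0, 20⟩)]
  arcs := [
    ⟨⟨0, 0⟩, ⟨0, 1⟩, 0, ⟨0, 0⟩⟩,
    ⟨⟨0, 9⟩, ⟨2, 2⟩, 1, ⟨54, 51⟩⟩,
    ⟨⟨18, 27⟩, ⟨2, 1⟩, 2, ⟨144, 120⟩⟩,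
    ⟨⟨36, 36⟩, ⟨2, 1⟩, 0, ⟨72, 72⟩⟩,
    ⟨⟨54, 45⟩, ⟨2, 1⟩, 1, ⟨162, 123⟩⟩,
    ⟨⟨72, 54⟩, ⟨2, 1⟩, 2, ⟨252, 174⟩⟩,
    ⟨⟨90, 63⟩, ⟨2, 2⟩, 0, ⟨180, 126⟩⟩,
    ⟨⟨108, 81⟩, ⟨2, 1⟩, 1, ⟨270, 195⟩⟩,
    ⟨⟨126, 90⟩, ⟨2, 1⟩, 2, ⟨360, 246⟩⟩,
    ⟨⟨144, 99⟩, ⟨2, 0⟩, 0, ⟨288, 198⟩⟩,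
    ⟨⟨0, 1⟩, ⟨2, 2⟩, 1, ⟨54, 63⟩⟩,
    ⟨⟨18, 19⟩, ⟨2, 1⟩, 2, ⟨144, 132⟩⟩,
    ⟨⟨36, 28⟩, ⟨2, 1⟩, 0, ⟨72, 84⟩⟩,
    ⟨⟨54, 37⟩, ⟨2, 1⟩, 1, ⟨162, 135⟩⟩,
    ⟨⟨72, 46⟩, ⟨2, 1⟩, 2, ⟨252, 186⟩⟩,
    ⟨⟨90, 55⟩, ⟨2, 2⟩, 0, ⟨180, 138⟩⟩,
    ⟨⟨108, 73⟩, ⟨2, 1⟩, 1, ⟨270, 207⟩⟩,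
    ⟨⟨126, 82⟩, ⟨2, 1⟩, 2, ⟨360, 258⟩⟩,
    ⟨⟨144, 91⟩, ⟨2, 1⟩, 0, ⟨288, 210⟩⟩,
    ⟨⟨0, 2⟩, ⟨0, 1⟩, 1, ⟨54, 35⟩⟩,
    ⟨⟨0, 11⟩, ⟨0, 1⟩, 0, ⟨0, 20⟩⟩,
    ⟨⟨0, 20⟩, ⟨2, 1⟩, 2, ⟨108, 104⟩⟩,
    ⟨⟨18, 29⟩, ⟨2, 1⟩, 0, ⟨36, 56⟩⟩,
    ⟨⟨36, 38⟩, ⟨2, 1⟩, 1, ⟨126, 107⟩⟩,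
    ⟨⟨54, 47⟩, ⟨2, 1⟩, 2, ⟨216, 158⟩⟩,
    ⟨⟨72, 56⟩, ⟨2, 1⟩, 0, ⟨144, 110⟩⟩,
    ⟨⟨90, 65⟩, ⟨0, 1⟩, 2, ⟨288, 194⟩⟩,
    ⟨⟨90, 74⟩, ⟨2, 1⟩, 1, ⟨234, 179⟩⟩,
    ⟨⟨108, 83⟩, ⟨2, 1⟩, 2, ⟨324, 230⟩⟩,
    ⟨⟨126, 92⟩, ⟨2, 1⟩, 0, ⟨252, 182⟩⟩,
    ⟨⟨144, 101⟩, ⟨2, 0⟩, 1, ⟨342, 233⟩⟩,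
    ⟨⟨0, 3⟩, ⟨0, 1⟩, 1, ⟨54, 55⟩⟩,
    ⟨⟨0, 12⟩, ⟨2, 1⟩, 2, ⟨108, 106⟩⟩,
    ⟨⟨18, 21⟩, ⟨2, 1⟩, 0, ⟨36, 58⟩⟩,
    ⟨⟨36, 30⟩, ⟨2, 1⟩, 1, ⟨126, 109⟩⟩,
    ⟨⟨54, 39⟩, ⟨2, 2⟩, 2, ⟨216, 160⟩⟩,
    ⟨⟨72, 57⟩, ⟨2, 1⟩, 0, ⟨144, 130⟩⟩,
    ⟨⟨90, 66⟩, ⟨2, 1⟩, 1, ⟨234, 181⟩⟩,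
    ⟨⟨108, 75⟩, ⟨2, 1⟩, 2, ⟨324, 232⟩⟩,
    ⟨⟨126, 84⟩, ⟨2, 1⟩, 0, ⟨252, 184⟩⟩,
    ⟨⟨144, 93⟩, ⟨0, 1⟩, 1, ⟨342, 235⟩⟩,
    ⟨⟨144, 102⟩, ⟨2, 0⟩, 1, ⟨342, 253⟩⟩,
    ⟨⟨0, 4⟩, ⟨0, 1⟩, 2, ⟨108, 70⟩⟩,
    ⟨⟨0, 13⟩, ⟨0, 1⟩, 2, ⟨108, 88⟩⟩,
    ⟨⟨0, 22⟩, ⟨2, 1⟩, 0, ⟨0, 40⟩⟩,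
    ⟨⟨18, 31⟩, ⟨2, 1⟩, 1, ⟨90, 91⟩⟩,
    ⟨⟨36, 40⟩, ⟨2, 1⟩, 2, ⟨180, 142⟩⟩,
    ⟨⟨54, 49⟩, ⟨2, 1⟩, 0, ⟨108, 94⟩⟩,
    ⟨⟨72, 58⟩, ⟨2, 2⟩, 1, ⟨198, 145⟩⟩,
    ⟨⟨90, 76⟩, ⟨2, 1⟩, 2, ⟨288, 214⟩⟩,
    ⟨⟨108, 85⟩, ⟨2, 1⟩, 0, ⟨216, 166⟩⟩,
    ⟨⟨126, 94⟩, ⟨2, 1⟩, 1, ⟨306, 217⟩⟩,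
    ⟨⟨144, 103⟩, ⟨2, 0⟩, 2, ⟨396, 268⟩⟩,
    ⟨⟨0, 5⟩, ⟨0, 1⟩, 2, ⟨108, 90⟩⟩,
    ⟨⟨0, 14⟩, ⟨2, 0⟩, 1, ⟨54, 75⟩⟩,
    ⟨⟨18, 14⟩, ⟨0, 1⟩, 0, ⟨36, 42⟩⟩,
    ⟨⟨18, 23⟩, ⟨2, 0⟩, 2, ⟨144, 126⟩⟩,
    ⟨⟨36, 23⟩, ⟨0, 1⟩, 1, ⟨126, 93⟩⟩,
    ⟨⟨36, 32⟩, ⟨2, 1⟩, 0, ⟨72, 78⟩⟩,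
    ⟨⟨54, 41⟩, ⟨2, 1⟩, 1, ⟨162, 129⟩⟩,
    ⟨⟨72, 50⟩, ⟨0, 1⟩, 0, ⟨144, 114⟩⟩,
    ⟨⟨72, 59⟩, ⟨2, 0⟩, 2, ⟨252, 198⟩⟩,
    ⟨⟨90, 59⟩, ⟨0, 1⟩, 1, ⟨234, 165⟩⟩,
    ⟨⟨90, 68⟩, ⟨2, 0⟩, 0, ⟨180, 150⟩⟩,
    ⟨⟨108, 68⟩, ⟨0, 1⟩, 2, ⟨324, 216⟩⟩,
    ⟨⟨108, 77⟩, ⟨2, 1⟩, 1, ⟨270, 201⟩⟩,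
    ⟨⟨126, 86⟩, ⟨2, 1⟩, 2, ⟨360, 252⟩⟩,
    ⟨⟨144, 95⟩, ⟨0, 1⟩, 0, ⟨288, 204⟩⟩,
    ⟨⟨144, 104⟩, ⟨2, 0⟩, 0, ⟨288, 222⟩⟩,
    ⟨⟨0, 6⟩, ⟨2, 0⟩, 2, ⟨108, 110⟩⟩,
    ⟨⟨18, 6⟩, ⟨2, 2⟩, 0, ⟨36, 44⟩⟩,
    ⟨⟨36, 24⟩, ⟨2, 1⟩, 1, ⟨126, 113⟩⟩,
    ⟨⟨54, 33⟩, ⟨2, 1⟩, 2, ⟨216, 164⟩⟩,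
    ⟨⟨72, 42⟩, ⟨2, 1⟩, 0, ⟨144, 116⟩⟩,
    ⟨⟨90, 51⟩, ⟨2, 2⟩, 1, ⟨234, 167⟩⟩,
    ⟨⟨108, 69⟩, ⟨2, 1⟩, 2, ⟨324, 236⟩⟩,
    ⟨⟨126, 78⟩, ⟨2, 1⟩, 0, ⟨252, 188⟩⟩,
    ⟨⟨144, 87⟩, ⟨2, 1⟩, 1, ⟨342, 239⟩⟩,
    ⟨⟨162, 96⟩, ⟨0, 1⟩, 2, ⟨432, 290⟩⟩,
    ⟨⟨0, 7⟩, ⟨2, 1⟩, 0, ⟨0, 26⟩⟩,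
    ⟨⟨18, 16⟩, ⟨2, 1⟩, 1, ⟨90, 77⟩⟩,
    ⟨⟨36, 25⟩, ⟨2, 2⟩, 2, ⟨180, 128⟩⟩,
    ⟨⟨54, 43⟩, ⟨2, 1⟩, 0, ⟨108, 98⟩⟩,
    ⟨⟨72, 52⟩, ⟨2, 1⟩, 1, ⟨198, 149⟩⟩,
    ⟨⟨90, 61⟩, ⟨2, 1⟩, 2, ⟨288, 200⟩⟩,
    ⟨⟨108, 70⟩, ⟨2, 2⟩, 0, ⟨216, 152⟩⟩,
    ⟨⟨126, 88⟩, ⟨2, 1⟩, 1, ⟨306, 221⟩⟩,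
    ⟨⟨144, 97⟩, ⟨2, 1⟩, 2, ⟨396, 272⟩⟩,
    ⟨⟨0, 8⟩, ⟨2, 0⟩, 0, ⟨0, 46⟩⟩,
    ⟨⟨18, 8⟩, ⟨0, 1⟩, 2, ⟨144, 112⟩⟩,
    ⟨⟨18, 17⟩, ⟨2, 1⟩, 1, ⟨90, 97⟩⟩,
    ⟨⟨36, 26⟩, ⟨2, 1⟩, 2, ⟨180, 148⟩⟩,
    ⟨⟨54, 35⟩, ⟨2, 1⟩, 0, ⟨108, 100⟩⟩,
    ⟨⟨72, 44⟩, ⟨2, 1⟩, 1, ⟨198, 151⟩⟩,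
    ⟨⟨90, 53⟩, ⟨2, 2⟩, 2, ⟨288, 202⟩⟩,
    ⟨⟨108, 71⟩, ⟨2, 1⟩, 0, ⟨216, 172⟩⟩,
    ⟨⟨126, 80⟩, ⟨2, 1⟩, 1, ⟨306, 223⟩⟩,
    ⟨⟨144, 89⟩, ⟨2, 1⟩, 2, ⟨396, 274⟩⟩,
    ⟨⟨162, 98⟩, ⟨0, 1⟩, 0, ⟨324, 226⟩⟩]

theorem ok1 : famOK ctx base fam1 = true := by decide +kernel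

def cover : List (Aff × Aff) := [(⟨0, 0⟩, ⟨0, 20⟩), (⟨0, 12⟩, ⟨54, 33⟩)]

theorem ok : allOK ctx base [fam0, fam1] cover = true := by
  have h : (cov ctx [fam0, fam1] cover ⟨0, 0⟩ && pos ctx ctx.k && decide (0 < ctx.P) && baseOK ctx base) = true := by decide +kernel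
  simp only [allOK, List.all_cons, List.all_nil, Bool.and_true, ok0, ok1, Bool.true_and]
  exact h

end Pool.Agent.H57.QX.E33
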