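import Pool.Agent.H57.QX.Fam

/-!
# Exact families: `k = 54 t + 39`, `t ≥ 1` (found by helper58)
-/

set_option autoImplicit false

namespace Pool.Agent.H57.QX.E39

def ctx : Ctx := ⟨1, 54, 39, 9⟩

def base : List Arc := [
    ⟨⟨0, 0⟩, ⟨18, 13⟩, 0, ⟨0, 0⟩⟩,
    ⟨⟨0, 1⟩, ⟨18, 13⟩, 0, ⟨0, 26⟩⟩,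
    ⟨⟨0, 2⟩, ⟨18, 13⟩, 0, ⟨0, 2⟩⟩,
    ⟨⟨0, 3⟩, ⟨18, 13⟩, 0, ⟨0, 20⟩⟩,
    ⟨⟨0, 4⟩, ⟨18, 13⟩, 0, ⟨0, 4⟩⟩,
    ⟨⟨0, 5⟩, ⟨18, 13⟩, 0, ⟨0, 22⟩⟩,
    ⟨⟨0, 6⟩, ⟨18, 13⟩, 0, ⟨0, 40⟩⟩,
    ⟨⟨0, 7⟩, ⟨18, 13⟩, 0, ⟨0, 24⟩⟩,
    ⟨⟨0, 8⟩, ⟨18, 13⟩, 0, ⟨0, 42⟩⟩]

def fam0 : Fam where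
  ints := [(⟨0, 6⟩, ⟨54, 39⟩)]
  arcs := [
    ⟨⟨0, 0⟩, ⟨0, 1⟩, 0, ⟨0, 0⟩⟩,
    ⟨⟨0, 9⟩, ⟨2, 1⟩, 0, ⟨0, 18⟩⟩,
    ⟨⟨18, 18⟩, ⟨2, 1⟩, 1, ⟨90, 75⟩⟩,
    ⟨⟨36, 27⟩, ⟨2, 2⟩, 2, ⟨180, 132⟩⟩,
    ⟨⟨54, 45⟩, ⟨2, 1⟩, 0, ⟨108, 90⟩⟩,
    ⟨⟨72, 54⟩, ⟨2, 2⟩, 1, ⟨198, 147⟩⟩,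
    ⟨⟨90, 72⟩, ⟨2, 1⟩, 2, ⟨288, 222⟩⟩,
    ⟨⟨108, 81⟩, ⟨2, 2⟩, 0, ⟨216, 162⟩⟩,
    ⟨⟨126, 99⟩, ⟨2, 1⟩, 1, ⟨306, 237⟩⟩,
    ⟨⟨144, 108⟩, ⟨2, 1⟩, 2, ⟨396, 294⟩⟩,
    ⟨⟨0, 1⟩, ⟨2, 1⟩, 1, ⟨54, 65⟩⟩,
    ⟨⟨18, 10⟩, ⟨2, 1⟩, 2, ⟨144, 122⟩⟩,
    ⟨⟨36, 19⟩, ⟨2, 1⟩, 0, ⟨72, 62⟩⟩,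
    ⟨⟨54, 28⟩, ⟨2, 2⟩, 1, ⟨162, 119⟩⟩,
    ⟨⟨72, 46⟩, ⟨2, 1⟩, 2, ⟨252, 194⟩⟩,
    ⟨⟨90, 55⟩, ⟨2, 2⟩, 0, ⟨180, 134⟩⟩,
    ⟨⟨108, 73⟩, ⟨2, 1⟩, 1, ⟨270, 209⟩⟩,
    ⟨⟨126, 82⟩, ⟨2, 2⟩, 2, ⟨360, 266⟩⟩,
    ⟨⟨144, 100⟩, ⟨2, 1⟩, 0, ⟨288, 224⟩⟩,
    ⟨⟨162, 109⟩, ⟨0, 1⟩, 1, ⟨378, 281⟩⟩,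
    ⟨⟨0, 2⟩, ⟨0, 1⟩, 2, ⟨108, 80⟩⟩,
    ⟨⟨0, 11⟩, ⟨2, 1⟩, 2, ⟨108, 98⟩⟩,
    ⟨⟨18, 20⟩, ⟨2, 1⟩, 0, ⟨36, 38⟩⟩,
    ⟨⟨36, 29⟩, ⟨2, 1⟩, 1, ⟨126, 95⟩⟩,
    ⟨⟨54, 38⟩, ⟨0, 1⟩, 0, ⟨108, 74⟩⟩,
    ⟨⟨54, 47⟩, ⟨2, 1⟩, 2, ⟨216, 170⟩⟩,
    ⟨⟨72, 56⟩, ⟨2, 1⟩, 0, ⟨144, 110⟩⟩,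
    ⟨⟨90, 65⟩, ⟨0, 1⟩, 2, ⟨288, 206⟩⟩,
    ⟨⟨90, 74⟩, ⟨2, 1⟩, 1, ⟨234, 185⟩⟩,
    ⟨⟨108, 83⟩, ⟨2, 1⟩, 2, ⟨324, 242⟩⟩,
    ⟨⟨126, 92⟩, ⟨0, 1⟩, 1, ⟨306, 221⟩⟩,
    ⟨⟨126, 101⟩, ⟨2, 1⟩, 0, ⟨252, 200⟩⟩,
    ⟨⟨144, 110⟩, ⟨2, 1⟩, 1, ⟨342, 257⟩⟩,
    ⟨⟨0, 3⟩, ⟨2, 1⟩, 1, ⟨54, 59⟩⟩,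
    ⟨⟨18, 12⟩, ⟨2, 1⟩, 2, ⟨144, 116⟩⟩,
    ⟨⟨36, 21⟩, ⟨2, 1⟩, 0, ⟨72, 56⟩⟩,
    ⟨⟨54, 30⟩, ⟨2, 2⟩, 1, ⟨162, 113⟩⟩,
    ⟨⟨72, 48⟩, ⟨2, 1⟩, 2, ⟨252, 188⟩⟩,
    ⟨⟨90, 57⟩, ⟨2, 2⟩, 0, ⟨180, 128⟩⟩,
    ⟨⟨108, 75⟩, ⟨2, 1⟩, 1, ⟨270, 203⟩⟩,
    ⟨⟨126, 84⟩, ⟨2, 2⟩, 2, ⟨360, 260⟩⟩,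
    ⟨⟨144, 102⟩, ⟨2, 1⟩, 0, ⟨288, 218⟩⟩,
    ⟨⟨162, 111⟩, ⟨0, 1⟩, 1, ⟨378, 275⟩⟩,
    ⟨⟨0, 4⟩, ⟨2, 2⟩, 1, ⟨54, 43⟩⟩,
    ⟨⟨18, 22⟩, ⟨2, 1⟩, 2, ⟨144, 118⟩⟩,
    ⟨⟨36, 31⟩, ⟨2, 1⟩, 0, ⟨72, 58⟩⟩,
    ⟨⟨54, 40⟩, ⟨2, 2⟩, 1, ⟨162, 115⟩⟩,
    ⟨⟨72, 58⟩, ⟨2, 1⟩, 2, ⟨252, 190⟩⟩,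
    ⟨⟨90, 67⟩, ⟨2, 2⟩, 0, ⟨180, 130⟩⟩,
    ⟨⟨108, 85⟩, ⟨2, 1⟩, 1, ⟨270, 205⟩⟩,
    ⟨⟨126, 94⟩, ⟨2, 2⟩, 2, ⟨360, 262⟩⟩,
    ⟨⟨144, 112⟩, ⟨2, 1⟩, 0, ⟨288, 220⟩⟩,
    ⟨⟨0, 5⟩, ⟨2, 1⟩, 2, ⟨108, 100⟩⟩,
    ⟨⟨18, 14⟩, ⟨2, 1⟩, 0, ⟨36, 40⟩⟩,
    ⟨⟨36, 23⟩, ⟨2, 1⟩, 1, ⟨126, 97⟩⟩,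
    ⟨⟨54, 32⟩, ⟨0, 1⟩, 0, ⟨108, 76⟩⟩,
    ⟨⟨54, 41⟩, ⟨2, 1⟩, 2, ⟨216, 172⟩⟩,
    ⟨⟨72, 50⟩, ⟨2, 1⟩, 0, ⟨144, 112⟩⟩,
    ⟨⟨90, 59⟩, ⟨0, 1⟩, 2, ⟨288, 208⟩⟩,
    ⟨⟨90, 68⟩, ⟨2, 1⟩, 1, ⟨234, 187⟩⟩,
    ⟨⟨108, 77⟩, ⟨2, 1⟩, 2, ⟨324, 244⟩⟩,
    ⟨⟨126, 86⟩, ⟨0, 1⟩, 1, ⟨306, 223⟩⟩,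
    ⟨⟨126, 95⟩, ⟨2, 1⟩, 0, ⟨252, 202⟩⟩,
    ⟨⟨144, 104⟩, ⟨2, 1⟩, 1, ⟨342, 259⟩⟩,
    ⟨⟨162, 113⟩, ⟨0, 1⟩, 0, ⟨324, 238⟩⟩,
    ⟨⟨0, 6⟩, ⟨2, 0⟩, 0, ⟨0, 40⟩⟩,
    ⟨⟨18, 6⟩, ⟨2, 1⟩, 1, ⟨90, 79⟩⟩,
    ⟨⟨36, 15⟩, ⟨2, 2⟩, 2, ⟨180, 136⟩⟩,
    ⟨⟨54, 33⟩, ⟨2, 1⟩, 0, ⟨108, 94⟩⟩,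
    ⟨⟨72, 42⟩, ⟨2, 2⟩, 1, ⟨198, 151⟩⟩,
    ⟨⟨90, 60⟩, ⟨2, 1⟩, 2, ⟨288, 226⟩⟩,
    ⟨⟨108, 69⟩, ⟨2, 2⟩, 0, ⟨216, 166⟩⟩,
    ⟨⟨126, 87⟩, ⟨2, 1⟩, 1, ⟨306, 241⟩⟩,
    ⟨⟨144, 96⟩, ⟨2, 2⟩, 2, ⟨396, 298⟩⟩,
    ⟨⟨162, 114⟩, ⟨0, 1⟩, 0, ⟨324, 256⟩⟩,
    ⟨⟨0, 7⟩, ⟨2, 1⟩, 0, ⟨0, 24⟩⟩,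
    ⟨⟨18, 16⟩, ⟨2, 1⟩, 1, ⟨90, 81⟩⟩,
    ⟨⟨36, 25⟩, ⟨2, 2⟩, 2, ⟨180, 138⟩⟩,
    ⟨⟨54, 43⟩, ⟨2, 1⟩, 0, ⟨108, 96⟩⟩,
    ⟨⟨72, 52⟩, ⟨2, 2⟩, 1, ⟨198, 153⟩⟩,
    ⟨⟨90, 70⟩, ⟨2, 1⟩, 2, ⟨288, 228⟩⟩,
    ⟨⟨108, 79⟩, ⟨2, 2⟩, 0, ⟨216, 168⟩⟩,
    ⟨⟨126, 97⟩, ⟨2, 1⟩, 1, ⟨306, 243⟩⟩,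
    ⟨⟨144, 106⟩, ⟨2, 1⟩, 2, ⟨396, 300⟩⟩,
    ⟨⟨162, 115⟩, ⟨0, 1⟩, 2, ⟨432, 318⟩⟩,
    ⟨⟨0, 8⟩, ⟨2, 0⟩, 2, ⟨108, 120⟩⟩,
    ⟨⟨18, 8⟩, ⟨2, 1⟩, 0, ⟨36, 42⟩⟩,
    ⟨⟨36, 17⟩, ⟨2, 1⟩, 1, ⟨126, 99⟩⟩,
    ⟨⟨54, 26⟩, ⟨0, 1⟩, 0, ⟨108, 78⟩⟩,
    ⟨⟨54, 35⟩, ⟨2, 1⟩, 2, ⟨216, 174⟩⟩,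
    ⟨⟨72, 44⟩, ⟨2, 1⟩, 0, ⟨144, 114⟩⟩,
    ⟨⟨90, 53⟩, ⟨0, 1⟩, 2, ⟨288, 210⟩⟩,
    ⟨⟨90, 62⟩, ⟨2, 1⟩, 1, ⟨234, 189⟩⟩,
    ⟨⟨108, 71⟩, ⟨2, 1⟩, 2, ⟨324, 246⟩⟩,
    ⟨⟨126, 80⟩, ⟨0, 1⟩, 1, ⟨306, 225⟩⟩,
    ⟨⟨126, 89⟩, ⟨2, 1⟩, 0, ⟨252, 204⟩⟩,
    ⟨⟨144, 98⟩, ⟨2, 1⟩, 1, ⟨342, 261⟩⟩,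
    ⟨⟨162, 107⟩, ⟨0, 1⟩, 0, ⟨324, 240⟩⟩,
    ⟨⟨162, 116⟩, ⟨0, 1⟩, 2, ⟨432, 336⟩⟩]

theorem ok0 : famOK ctx base fam0 = true := by decide +kernel

def fam1 : Fam where
  ints := [(⟨0, 0⟩, ⟨0, 20⟩)]
  arcs := [
    ⟨⟨0, 0⟩, ⟨0, 2⟩, 1, ⟨54, 39⟩⟩,
    ⟨⟨0, 18⟩, ⟨2, 1⟩, 2, ⟨108, 114⟩⟩,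
    ⟨⟨18, 27⟩, ⟨2, 2⟩, 0, ⟨36, 54⟩⟩,
    ⟨⟨36, 45⟩, ⟨2, 1⟩, 1, ⟨126, 129⟩⟩,
    ⟨⟨54, 54⟩, ⟨2, 2⟩, 2, ⟨216, 186⟩⟩,
    ⟨⟨72, 72⟩, ⟨2, 1⟩, 0, ⟨144, 144⟩⟩,
    ⟨⟨90, 81⟩, ⟨2, 2⟩, 1, ⟨234, 201⟩⟩,
    ⟨⟨108, 99⟩, ⟨2, 1⟩, 2, ⟨324, 276⟩⟩,
    ⟨⟨126, 108⟩, ⟨2, 1⟩, 0, ⟨252, 216⟩⟩,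
    ⟨⟨144, 117⟩, ⟨2, 0⟩, 1, ⟨342, 273⟩⟩,
    ⟨⟨0, 1⟩, ⟨0, 1⟩, 2, ⟨108, 104⟩⟩,
    ⟨⟨0, 10⟩, ⟨2, 1⟩, 0, ⟨0, 44⟩⟩,
    ⟨⟨18, 19⟩, ⟨2, 1⟩, 1, ⟨90, 101⟩⟩,
    ⟨⟨36, 28⟩, ⟨2, 2⟩, 2, ⟨180, 158⟩⟩,
    ⟨⟨54, 46⟩, ⟨2, 1⟩, 0, ⟨108, 116⟩⟩,
    ⟨⟨72, 55⟩, ⟨2, 2⟩, 1, ⟨198, 173⟩⟩,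
    ⟨⟨90, 73⟩, ⟨2, 1⟩, 2, ⟨288, 248⟩⟩,
    ⟨⟨108, 82⟩, ⟨2, 2⟩, 0, ⟨216, 188⟩⟩,
    ⟨⟨126, 100⟩, ⟨2, 1⟩, 1, ⟨306, 263⟩⟩,
    ⟨⟨144, 109⟩, ⟨2, 1⟩, 2, ⟨396, 320⟩⟩,
    ⟨⟨0, 2⟩, ⟨0, 1⟩, 0, ⟨0, 2⟩⟩,
    ⟨⟨0, 11⟩, ⟨0, 1⟩, 0, ⟨0, 20⟩⟩,
    ⟨⟨0, 20⟩, ⟨2, 1⟩, 1, ⟨54, 77⟩⟩,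
    ⟨⟨18, 29⟩, ⟨2, 1⟩, 2, ⟨144, 134⟩⟩,
    ⟨⟨36, 38⟩, ⟨0, 1⟩, 1, ⟨126, 113⟩⟩,
    ⟨⟨36, 47⟩, ⟨2, 1⟩, 0, ⟨72, 92⟩⟩,
    ⟨⟨54, 56⟩, ⟨2, 1⟩, 1, ⟨162, 149⟩⟩,
    ⟨⟨72, 65⟩, ⟨0, 1⟩, 0, ⟨144, 128⟩⟩,
    ⟨⟨72, 74⟩, ⟨2, 1⟩, 2, ⟨252, 224⟩⟩,
    ⟨⟨90, 83⟩, ⟨2, 1⟩, 0, ⟨180, 164⟩⟩,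
    ⟨⟨108, 92⟩, ⟨0, 1⟩, 2, ⟨324, 260⟩⟩,
    ⟨⟨108, 101⟩, ⟨2, 1⟩, 1, ⟨270, 239⟩⟩,
    ⟨⟨126, 110⟩, ⟨2, 1⟩, 2, ⟨360, 296⟩⟩,
    ⟨⟨144, 119⟩, ⟨2, 0⟩, 0, ⟨288, 236⟩⟩,
    ⟨⟨0, 3⟩, ⟨0, 1⟩, 2, ⟨108, 98⟩⟩,
    ⟨⟨0, 12⟩, ⟨2, 1⟩, 0, ⟨0, 38⟩⟩,
    ⟨⟨18, 21⟩, ⟨2, 1⟩, 1, ⟨90, 95⟩⟩,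
    ⟨⟨36, 30⟩, ⟨2, 2⟩, 2, ⟨180, 152⟩⟩,
    ⟨⟨54, 48⟩, ⟨2, 1⟩, 0, ⟨108, 110⟩⟩,
    ⟨⟨72, 57⟩, ⟨2, 2⟩, 1, ⟨198, 167⟩⟩,
    ⟨⟨90, 75⟩, ⟨2, 1⟩, 2, ⟨288, 242⟩⟩,
    ⟨⟨108, 84⟩, ⟨2, 2⟩, 0, ⟨216, 182⟩⟩,
    ⟨⟨126, 102⟩, ⟨2, 1⟩, 1, ⟨306, 257⟩⟩,
    ⟨⟨144, 111⟩, ⟨2, 1⟩, 2, ⟨396, 314⟩⟩,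
    ⟨⟨0, 4⟩, ⟨0, 1⟩, 2, ⟨108, 82⟩⟩,
    ⟨⟨0, 13⟩, ⟨0, 1⟩, 2, ⟨108, 100⟩⟩,
    ⟨⟨0, 22⟩, ⟨2, 1⟩, 0, ⟨0, 40⟩⟩,
    ⟨⟨18, 31⟩, ⟨2, 1⟩, 1, ⟨90, 97⟩⟩,
    ⟨⟨36, 40⟩, ⟨2, 2⟩, 2, ⟨180, 154⟩⟩,
    ⟨⟨54, 58⟩, ⟨2, 1⟩, 0, ⟨108, 112⟩⟩,
    ⟨⟨72, 67⟩, ⟨2, 2⟩, 1, ⟨198, 169⟩⟩,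
    ⟨⟨90, 85⟩, ⟨2, 1⟩, 2, ⟨288, 244⟩⟩,
    ⟨⟨108, 94⟩, ⟨2, 2⟩, 0, ⟨216, 184⟩⟩,
    ⟨⟨126, 112⟩, ⟨2, 1⟩, 1, ⟨306, 259⟩⟩,
    ⟨⟨144, 121⟩, ⟨2, 0⟩, 2, ⟨396, 316⟩⟩,
    ⟨⟨0, 5⟩, ⟨0, 1⟩, 0, ⟨0, 22⟩⟩,
    ⟨⟨0, 14⟩, ⟨2, 1⟩, 1, ⟨54, 79⟩⟩,
    ⟨⟨18, 23⟩, ⟨2, 1⟩, 2, ⟨144, 136⟩⟩,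
    ⟨⟨36, 32⟩, ⟨0, 1⟩, 1, ⟨126, 115⟩⟩,
    ⟨⟨36, 41⟩, ⟨2, 1⟩, 0, ⟨72, 94⟩⟩,
    ⟨⟨54, 50⟩, ⟨2, 1⟩, 1, ⟨162, 151⟩⟩,
    ⟨⟨72, 59⟩, ⟨0, 1⟩, 0, ⟨144, 130⟩⟩,
    ⟨⟨72, 68⟩, ⟨2, 1⟩, 2, ⟨252, 226⟩⟩,
    ⟨⟨90, 77⟩, ⟨2, 1⟩, 0, ⟨180, 166⟩⟩,
    ⟨⟨108, 86⟩, ⟨0, 1⟩, 2, ⟨324, 262⟩⟩,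
    ⟨⟨108, 95⟩, ⟨2, 1⟩, 1, ⟨270, 241⟩⟩,
    ⟨⟨126, 104⟩, ⟨2, 1⟩, 2, ⟨360, 298⟩⟩,
    ⟨⟨144, 113⟩, ⟨2, 1⟩, 0, ⟨288, 238⟩⟩,
    ⟨⟨0, 6⟩, ⟨2, 1⟩, 2, ⟨108, 118⟩⟩,
    ⟨⟨18, 15⟩, ⟨2, 2⟩, 0, ⟨36, 58⟩⟩,
    ⟨⟨36, 33⟩, ⟨2, 1⟩, 1, ⟨126, 133⟩⟩,
    ⟨⟨54, 42⟩, ⟨2, 2⟩, 2, ⟨216, 190⟩⟩,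
    ⟨⟨72, 60⟩, ⟨2, 1⟩, 0, ⟨144, 148⟩⟩,
    ⟨⟨90, 69⟩, ⟨2, 2⟩, 1, ⟨234, 205⟩⟩,
    ⟨⟨108, 87⟩, ⟨2, 1⟩, 2, ⟨324, 280⟩⟩,
    ⟨⟨126, 96⟩, ⟨2, 1⟩, 0, ⟨252, 220⟩⟩,
    ⟨⟨144, 105⟩, ⟨0, 1⟩, 1, ⟨342, 277⟩⟩,
    ⟨⟨144, 114⟩, ⟨2, 1⟩, 1, ⟨342, 295⟩⟩,
    ⟨⟨0, 7⟩, ⟨0, 1⟩, 1, ⟨54, 63⟩⟩,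
    ⟨⟨0, 16⟩, ⟨2, 1⟩, 2, ⟨108, 120⟩⟩,
    ⟨⟨18, 25⟩, ⟨2, 2⟩, 0, ⟨36, 60⟩⟩,
    ⟨⟨36, 43⟩, ⟨2, 1⟩, 1, ⟨126, 135⟩⟩,
    ⟨⟨54, 52⟩, ⟨2, 2⟩, 2, ⟨216, 192⟩⟩,
    ⟨⟨72, 70⟩, ⟨2, 1⟩, 0, ⟨144, 150⟩⟩,
    ⟨⟨90, 79⟩, ⟨2, 2⟩, 1, ⟨234, 207⟩⟩,
    ⟨⟨108, 97⟩, ⟨2, 1⟩, 2, ⟨324, 282⟩⟩,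
    ⟨⟨126, 106⟩, ⟨2, 1⟩, 0, ⟨252, 222⟩⟩,
    ⟨⟨144, 115⟩, ⟨2, 1⟩, 1, ⟨342, 279⟩⟩,
    ⟨⟨0, 8⟩, ⟨2, 1⟩, 1, ⟨54, 81⟩⟩,
    ⟨⟨18, 17⟩, ⟨2, 1⟩, 2, ⟨144, 138⟩⟩,
    ⟨⟨36, 26⟩, ⟨0, 1⟩, 1, ⟨126, 117⟩⟩,
    ⟨⟨36, 35⟩, ⟨2, 1⟩, 0, ⟨72, 96⟩⟩,
    ⟨⟨54, 44⟩, ⟨2, 1⟩, 1, ⟨162, 153⟩⟩,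
    ⟨⟨72, 53⟩, ⟨0, 1⟩, 0, ⟨144, 132⟩⟩,
    ⟨⟨72, 62⟩, ⟨2, 1⟩, 2, ⟨252, 228⟩⟩,
    ⟨⟨90, 71⟩, ⟨2, 1⟩, 0, ⟨180, 168⟩⟩,
    ⟨⟨108, 80⟩, ⟨0, 1⟩, 2, ⟨324, 264⟩⟩,
    ⟨⟨108, 89⟩, ⟨2, 1⟩, 1, ⟨270, 243⟩⟩,
    ⟨⟨126, 98⟩, ⟨2, 1⟩, 2, ⟨360, 300⟩⟩,
    ⟨⟨144, 107⟩, ⟨0, 1⟩, 0, ⟨288, 240⟩⟩,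
    ⟨⟨144, 116⟩, ⟨2, 1⟩, 0, ⟨288, 258⟩⟩]

theorem ok1 : famOK ctx base fam1 = true := by decide +kernel

def cover : List (Aff × Aff) := [(⟨0, 0⟩, ⟨0, 20⟩), (⟨0, 6⟩, ⟨54, 39⟩)]

theorem ok : allOK ctx base [fam0, fam1] cover = true := by
  have h : (cov ctx [fam0, fam1] cover ⟨0, 0⟩ && pos ctx ctx.k && decide (0 < ctx.P) && baseOK ctx base) = true := by decide +kernel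
  simp only [allOK, List.all_cons, List.all_nil, Bool.and_true, ok0, ok1, Bool.true_and]
  exact h

end Pool.Agent.H57.QX.E39
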