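import Pool.Agent.H57.QX.Fam

/-!
# Exact families: `k = 54 t + 51`, `t ≥ 1` (found by helper58)
-/

set_option autoImplicit false

namespace Pool.Agent.H57.QX.E51

def ctx : Ctx := ⟨1, 54, 51, 9⟩

def base : List Arc := [
    ⟨⟨0, 0⟩, ⟨18, 17⟩, 0, ⟨0, 0⟩⟩,
    ⟨⟨0, 1⟩, ⟨18, 17⟩, 0, ⟨0, 30⟩⟩,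
    ⟨⟨0, 2⟩, ⟨18, 17⟩, 0, ⟨0, 2⟩⟩,
    ⟨⟨0, 3⟩, ⟨18, 17⟩, 0, ⟨0, 22⟩⟩,
    ⟨⟨0, 4⟩, ⟨18, 17⟩, 0, ⟨0, 4⟩⟩,
    ⟨⟨0, 5⟩, ⟨18, 17⟩, 0, ⟨0, 24⟩⟩,
    ⟨⟨0, 6⟩, ⟨18, 17⟩, 0, ⟨0, 44⟩⟩,
    ⟨⟨0, 7⟩, ⟨18, 17⟩, 0, ⟨0, 26⟩⟩,
    ⟨⟨0, 8⟩, ⟨18, 17⟩, 0, ⟨0, 46⟩⟩]

def fam0 : Fam where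
  ints := [(⟨0, 12⟩, ⟨54, 51⟩)]
  arcs := [
    ⟨⟨0, 0⟩, ⟨0, 1⟩, 0, ⟨0, 0⟩⟩,
    ⟨⟨0, 9⟩, ⟨2, 1⟩, 0, ⟨0, 18⟩⟩,
    ⟨⟨18, 18⟩, ⟨2, 2⟩, 1, ⟨90, 87⟩⟩,
    ⟨⟨36, 36⟩, ⟨2, 2⟩, 2, ⟨180, 174⟩⟩,
    ⟨⟨54, 54⟩, ⟨2, 2⟩, 0, ⟨108, 108⟩⟩,
    ⟨⟨72, 72⟩, ⟨2, 2⟩, 1, ⟨198, 195⟩⟩,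
    ⟨⟨90, 90⟩, ⟨2, 2⟩, 2, ⟨288, 282⟩⟩,
    ⟨⟨108, 108⟩, ⟨2, 2⟩, 0, ⟨216, 216⟩⟩,
    ⟨⟨126, 126⟩, ⟨2, 2⟩, 1, ⟨306, 303⟩⟩,
    ⟨⟨144, 144⟩, ⟨2, 1⟩, 2, ⟨396, 390⟩⟩,
    ⟨⟨0, 1⟩, ⟨2, 1⟩, 0, ⟨0, 30⟩⟩,
    ⟨⟨18, 10⟩, ⟨2, 2⟩, 1, ⟨90, 99⟩⟩,
    ⟨⟨36, 28⟩, ⟨2, 2⟩, 2, ⟨180, 186⟩⟩,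
    ⟨⟨54, 46⟩, ⟨2, 2⟩, 0, ⟨108, 120⟩⟩,
    ⟨⟨72, 64⟩, ⟨2, 2⟩, 1, ⟨198, 207⟩⟩,
    ⟨⟨90, 82⟩, ⟨2, 2⟩, 2, ⟨288, 294⟩⟩,
    ⟨⟨108, 100⟩, ⟨2, 2⟩, 0, ⟨216, 228⟩⟩,
    ⟨⟨126, 118⟩, ⟨2, 2⟩, 1, ⟨306, 315⟩⟩,
    ⟨⟨144, 136⟩, ⟨2, 1⟩, 2, ⟨396, 402⟩⟩,
    ⟨⟨162, 145⟩, ⟨0, 1⟩, 2, ⟨432, 420⟩⟩,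
    ⟨⟨0, 2⟩, ⟨0, 1⟩, 2, ⟨108, 104⟩⟩,
    ⟨⟨0, 11⟩, ⟨2, 1⟩, 1, ⟨54, 71⟩⟩,
    ⟨⟨18, 20⟩, ⟨0, 1⟩, 0, ⟨36, 38⟩⟩,
    ⟨⟨18, 29⟩, ⟨2, 1⟩, 2, ⟨144, 158⟩⟩,
    ⟨⟨36, 38⟩, ⟨2, 2⟩, 0, ⟨72, 74⟩⟩,
    ⟨⟨54, 56⟩, ⟨2, 2⟩, 1, ⟨162, 161⟩⟩,
    ⟨⟨72, 74⟩, ⟨2, 2⟩, 2, ⟨252, 248⟩⟩,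
    ⟨⟨90, 92⟩, ⟨2, 2⟩, 0, ⟨180, 182⟩⟩,
    ⟨⟨108, 110⟩, ⟨2, 2⟩, 1, ⟨270, 269⟩⟩,
    ⟨⟨126, 128⟩, ⟨2, 2⟩, 2, ⟨360, 356⟩⟩,
    ⟨⟨144, 146⟩, ⟨2, 1⟩, 0, ⟨288, 290⟩⟩,
    ⟨⟨0, 3⟩, ⟨2, 2⟩, 1, ⟨54, 73⟩⟩,
    ⟨⟨18, 21⟩, ⟨2, 2⟩, 2, ⟨144, 160⟩⟩,
    ⟨⟨36, 39⟩, ⟨2, 2⟩, 0, ⟨72, 94⟩⟩,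
    ⟨⟨54, 57⟩, ⟨2, 1⟩, 1, ⟨162, 181⟩⟩,
    ⟨⟨72, 66⟩, ⟨2, 2⟩, 2, ⟨252, 250⟩⟩,
    ⟨⟨90, 84⟩, ⟨2, 2⟩, 0, ⟨180, 184⟩⟩,
    ⟨⟨108, 102⟩, ⟨2, 2⟩, 1, ⟨270, 271⟩⟩,
    ⟨⟨126, 120⟩, ⟨2, 2⟩, 2, ⟨360, 358⟩⟩,
    ⟨⟨144, 138⟩, ⟨2, 2⟩, 0, ⟨288, 292⟩⟩,
    ⟨⟨0, 4⟩, ⟨0, 1⟩, 1, ⟨54, 55⟩⟩,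
    ⟨⟨0, 13⟩, ⟨2, 2⟩, 2, ⟨108, 124⟩⟩,
    ⟨⟨18, 31⟩, ⟨2, 1⟩, 0, ⟨36, 58⟩⟩,
    ⟨⟨36, 40⟩, ⟨2, 2⟩, 1, ⟨126, 127⟩⟩,
    ⟨⟨54, 58⟩, ⟨2, 2⟩, 2, ⟨216, 214⟩⟩,
    ⟨⟨72, 76⟩, ⟨2, 2⟩, 0, ⟨144, 148⟩⟩,
    ⟨⟨90, 94⟩, ⟨2, 2⟩, 1, ⟨234, 235⟩⟩,
    ⟨⟨108, 112⟩, ⟨2, 2⟩, 2, ⟨324, 322⟩⟩,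
    ⟨⟨126, 130⟩, ⟨2, 2⟩, 0, ⟨252, 256⟩⟩,
    ⟨⟨144, 148⟩, ⟨2, 1⟩, 1, ⟨342, 343⟩⟩,
    ⟨⟨0, 5⟩, ⟨2, 1⟩, 0, ⟨0, 24⟩⟩,
    ⟨⟨18, 14⟩, ⟨0, 1⟩, 2, ⟨144, 144⟩⟩,
    ⟨⟨18, 23⟩, ⟨2, 1⟩, 1, ⟨90, 111⟩⟩,
    ⟨⟨36, 32⟩, ⟨0, 1⟩, 0, ⟨72, 78⟩⟩,
    ⟨⟨36, 41⟩, ⟨2, 1⟩, 2, ⟨180, 198⟩⟩,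
    ⟨⟨54, 50⟩, ⟨0, 1⟩, 1, ⟨162, 165⟩⟩,
    ⟨⟨54, 59⟩, ⟨2, 1⟩, 0, ⟨108, 132⟩⟩,
    ⟨⟨72, 68⟩, ⟨2, 2⟩, 1, ⟨198, 201⟩⟩,
    ⟨⟨90, 86⟩, ⟨2, 1⟩, 2, ⟨288, 288⟩⟩,
    ⟨⟨108, 95⟩, ⟨0, 1⟩, 1, ⟨270, 255⟩⟩,
    ⟨⟨108, 104⟩, ⟨2, 1⟩, 0, ⟨216, 222⟩⟩,
    ⟨⟨126, 113⟩, ⟨0, 1⟩, 2, ⟨360, 342⟩⟩,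
    ⟨⟨126, 122⟩, ⟨2, 1⟩, 1, ⟨306, 309⟩⟩,
    ⟨⟨144, 131⟩, ⟨0, 1⟩, 0, ⟨288, 276⟩⟩,
    ⟨⟨144, 140⟩, ⟨2, 1⟩, 2, ⟨396, 396⟩⟩,
    ⟨⟨162, 149⟩, ⟨0, 1⟩, 1, ⟨378, 363⟩⟩,
    ⟨⟨0, 6⟩, ⟨2, 0⟩, 1, ⟨54, 95⟩⟩,
    ⟨⟨18, 6⟩, ⟨2, 2⟩, 2, ⟨144, 146⟩⟩,
    ⟨⟨36, 24⟩, ⟨2, 2⟩, 0, ⟨72, 80⟩⟩,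
    ⟨⟨54, 42⟩, ⟨2, 2⟩, 1, ⟨162, 167⟩⟩,
    ⟨⟨72, 60⟩, ⟨2, 2⟩, 2, ⟨252, 254⟩⟩,
    ⟨⟨90, 78⟩, ⟨2, 2⟩, 0, ⟨180, 188⟩⟩,
    ⟨⟨108, 96⟩, ⟨2, 2⟩, 1, ⟨270, 275⟩⟩,
    ⟨⟨126, 114⟩, ⟨2, 1⟩, 2, ⟨360, 362⟩⟩,
    ⟨⟨144, 123⟩, ⟨2, 2⟩, 0, ⟨288, 278⟩⟩,
    ⟨⟨162, 141⟩, ⟨0, 2⟩, 1, ⟨378, 365⟩⟩,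
    ⟨⟨0, 7⟩, ⟨2, 1⟩, 2, ⟨108, 128⟩⟩,
    ⟨⟨18, 16⟩, ⟨2, 2⟩, 0, ⟨36, 44⟩⟩,
    ⟨⟨36, 34⟩, ⟨2, 2⟩, 1, ⟨126, 131⟩⟩,
    ⟨⟨54, 52⟩, ⟨2, 2⟩, 2, ⟨216, 218⟩⟩,
    ⟨⟨72, 70⟩, ⟨2, 2⟩, 0, ⟨144, 152⟩⟩,
    ⟨⟨90, 88⟩, ⟨2, 1⟩, 1, ⟨234, 239⟩⟩,
    ⟨⟨108, 97⟩, ⟨2, 2⟩, 2, ⟨324, 308⟩⟩,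
    ⟨⟨126, 115⟩, ⟨2, 2⟩, 0, ⟨252, 242⟩⟩,
    ⟨⟨144, 133⟩, ⟨2, 2⟩, 1, ⟨342, 329⟩⟩,
    ⟨⟨162, 151⟩, ⟨0, 1⟩, 2, ⟨432, 416⟩⟩,
    ⟨⟨0, 8⟩, ⟨2, 0⟩, 2, ⟨108, 148⟩⟩,
    ⟨⟨18, 8⟩, ⟨2, 2⟩, 0, ⟨36, 46⟩⟩,
    ⟨⟨36, 26⟩, ⟨2, 2⟩, 1, ⟨126, 133⟩⟩,
    ⟨⟨54, 44⟩, ⟨2, 2⟩, 2, ⟨216, 220⟩⟩,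
    ⟨⟨72, 62⟩, ⟨2, 2⟩, 0, ⟨144, 154⟩⟩,
    ⟨⟨90, 80⟩, ⟨2, 2⟩, 1, ⟨234, 241⟩⟩,
    ⟨⟨108, 98⟩, ⟨2, 2⟩, 2, ⟨324, 328⟩⟩,
    ⟨⟨126, 116⟩, ⟨2, 1⟩, 0, ⟨252, 262⟩⟩,
    ⟨⟨144, 125⟩, ⟨0, 1⟩, 2, ⟨396, 382⟩⟩,
    ⟨⟨144, 134⟩, ⟨2, 1⟩, 1, ⟨342, 349⟩⟩,
    ⟨⟨162, 143⟩, ⟨0, 1⟩, 0, ⟨324, 316⟩⟩,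
    ⟨⟨162, 152⟩, ⟨0, 1⟩, 2, ⟨432, 436⟩⟩]

theorem ok0 : famOK ctx base fam0 = true := by decide +kernel

def fam1 : Fam where
  ints := [(⟨0, 0⟩, ⟨0, 22⟩)]
  arcs := [
    ⟨⟨0, 0⟩, ⟨0, 1⟩, 1, ⟨54, 51⟩⟩,
    ⟨⟨0, 9⟩, ⟨2, 2⟩, 2, ⟨108, 120⟩⟩,
    ⟨⟨18, 27⟩, ⟨2, 2⟩, 0, ⟨36, 54⟩⟩,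
    ⟨⟨36, 45⟩, ⟨2, 2⟩, 1, ⟨126, 141⟩⟩,
    ⟨⟨54, 63⟩, ⟨2, 2⟩, 2, ⟨216, 228⟩⟩,
    ⟨⟨72, 81⟩, ⟨2, 2⟩, 0, ⟨144, 162⟩⟩,
    ⟨⟨90, 99⟩, ⟨2, 1⟩, 1, ⟨234, 249⟩⟩,
    ⟨⟨108, 108⟩, ⟨2, 2⟩, 2, ⟨324, 318⟩⟩,
    ⟨⟨126, 126⟩, ⟨2, 2⟩, 0, ⟨252, 252⟩⟩,
    ⟨⟨144, 144⟩, ⟨2, 1⟩, 1, ⟨342, 339⟩⟩,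
    ⟨⟨0, 1⟩, ⟨2, 2⟩, 2, ⟨108, 132⟩⟩,
    ⟨⟨18, 19⟩, ⟨2, 2⟩, 0, ⟨36, 66⟩⟩,
    ⟨⟨36, 37⟩, ⟨2, 2⟩, 1, ⟨126, 153⟩⟩,
    ⟨⟨54, 55⟩, ⟨2, 2⟩, 2, ⟨216, 240⟩⟩,
    ⟨⟨72, 73⟩, ⟨2, 2⟩, 0, ⟨144, 174⟩⟩,
    ⟨⟨90, 91⟩, ⟨2, 1⟩, 1, ⟨234, 261⟩⟩,
    ⟨⟨108, 100⟩, ⟨2, 2⟩, 2, ⟨324, 330⟩⟩,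
    ⟨⟨126, 118⟩, ⟨2, 2⟩, 0, ⟨252, 264⟩⟩,
    ⟨⟨144, 136⟩, ⟨2, 2⟩, 1, ⟨342, 351⟩⟩,
    ⟨⟨0, 2⟩, ⟨0, 1⟩, 2, ⟨108, 104⟩⟩,
    ⟨⟨0, 11⟩, ⟨2, 2⟩, 0, ⟨0, 20⟩⟩,
    ⟨⟨18, 29⟩, ⟨2, 2⟩, 1, ⟨90, 107⟩⟩,
    ⟨⟨36, 47⟩, ⟨2, 2⟩, 2, ⟨180, 194⟩⟩,
    ⟨⟨54, 65⟩, ⟨2, 2⟩, 0, ⟨108, 128⟩⟩,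
    ⟨⟨72, 83⟩, ⟨2, 2⟩, 1, ⟨198, 215⟩⟩,
    ⟨⟨90, 101⟩, ⟨2, 1⟩, 2, ⟨288, 302⟩⟩,
    ⟨⟨108, 110⟩, ⟨0, 1⟩, 1, ⟨270, 269⟩⟩,
    ⟨⟨108, 119⟩, ⟨2, 1⟩, 0, ⟨216, 236⟩⟩,
    ⟨⟨126, 128⟩, ⟨0, 1⟩, 2, ⟨360, 356⟩⟩,
    ⟨⟨126, 137⟩, ⟨2, 1⟩, 1, ⟨306, 323⟩⟩,
    ⟨⟨144, 146⟩, ⟨2, 1⟩, 2, ⟨396, 392⟩⟩,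
    ⟨⟨0, 3⟩, ⟨0, 1⟩, 0, ⟨0, 22⟩⟩,
    ⟨⟨0, 12⟩, ⟨2, 1⟩, 0, ⟨0, 40⟩⟩,
    ⟨⟨18, 21⟩, ⟨2, 2⟩, 1, ⟨90, 109⟩⟩,
    ⟨⟨36, 39⟩, ⟨2, 2⟩, 2, ⟨180, 196⟩⟩,
    ⟨⟨54, 57⟩, ⟨2, 2⟩, 0, ⟨108, 130⟩⟩,
    ⟨⟨72, 75⟩, ⟨2, 2⟩, 1, ⟨198, 217⟩⟩,
    ⟨⟨90, 93⟩, ⟨2, 2⟩, 2, ⟨288, 304⟩⟩,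
    ⟨⟨108, 111⟩, ⟨2, 2⟩, 0, ⟨216, 238⟩⟩,
    ⟨⟨126, 129⟩, ⟨2, 2⟩, 1, ⟨306, 325⟩⟩,
    ⟨⟨144, 147⟩, ⟨2, 1⟩, 2, ⟨396, 412⟩⟩,
    ⟨⟨0, 4⟩, ⟨0, 1⟩, 0, ⟨0, 4⟩⟩,
    ⟨⟨0, 13⟩, ⟨2, 2⟩, 1, ⟨54, 73⟩⟩,
    ⟨⟨18, 31⟩, ⟨2, 2⟩, 2, ⟨144, 160⟩⟩,
    ⟨⟨36, 49⟩, ⟨2, 2⟩, 0, ⟨72, 94⟩⟩,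
    ⟨⟨54, 67⟩, ⟨2, 2⟩, 1, ⟨162, 181⟩⟩,
    ⟨⟨72, 85⟩, ⟨2, 2⟩, 2, ⟨252, 268⟩⟩,
    ⟨⟨90, 103⟩, ⟨2, 2⟩, 0, ⟨180, 202⟩⟩,
    ⟨⟨108, 121⟩, ⟨2, 1⟩, 1, ⟨270, 289⟩⟩,
    ⟨⟨126, 130⟩, ⟨0, 1⟩, 1, ⟨306, 307⟩⟩,
    ⟨⟨126, 139⟩, ⟨2, 1⟩, 2, ⟨360, 376⟩⟩,
    ⟨⟨144, 148⟩, ⟨2, 1⟩, 0, ⟨288, 292⟩⟩,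
    ⟨⟨0, 5⟩, ⟨0, 1⟩, 2, ⟨108, 126⟩⟩,
    ⟨⟨0, 14⟩, ⟨2, 1⟩, 2, ⟨108, 144⟩⟩,
    ⟨⟨18, 23⟩, ⟨2, 2⟩, 0, ⟨36, 60⟩⟩,
    ⟨⟨36, 41⟩, ⟨2, 1⟩, 1, ⟨126, 147⟩⟩,
    ⟨⟨54, 50⟩, ⟨0, 1⟩, 0, ⟨108, 114⟩⟩,
    ⟨⟨54, 59⟩, ⟨2, 1⟩, 2, ⟨216, 234⟩⟩,
    ⟨⟨72, 68⟩, ⟨0, 1⟩, 1, ⟨198, 201⟩⟩,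
    ⟨⟨72, 77⟩, ⟨2, 1⟩, 0, ⟨144, 168⟩⟩,
    ⟨⟨90, 86⟩, ⟨0, 1⟩, 2, ⟨288, 288⟩⟩,
    ⟨⟨90, 95⟩, ⟨2, 1⟩, 1, ⟨234, 255⟩⟩,
    ⟨⟨108, 104⟩, ⟨0, 1⟩, 0, ⟨216, 222⟩⟩,
    ⟨⟨108, 113⟩, ⟨2, 1⟩, 2, ⟨324, 342⟩⟩,
    ⟨⟨126, 122⟩, ⟨0, 1⟩, 1, ⟨306, 309⟩⟩,
    ⟨⟨126, 131⟩, ⟨2, 1⟩, 0, ⟨252, 276⟩⟩,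
    ⟨⟨144, 140⟩, ⟨0, 1⟩, 2, ⟨396, 396⟩⟩,
    ⟨⟨144, 149⟩, ⟨2, 1⟩, 1, ⟨342, 363⟩⟩,
    ⟨⟨0, 6⟩, ⟨2, 1⟩, 0, ⟨0, 44⟩⟩,
    ⟨⟨18, 15⟩, ⟨2, 2⟩, 1, ⟨90, 113⟩⟩,
    ⟨⟨36, 33⟩, ⟨2, 2⟩, 2, ⟨180, 200⟩⟩,
    ⟨⟨54, 51⟩, ⟨2, 2⟩, 0, ⟨108, 134⟩⟩,
    ⟨⟨72, 69⟩, ⟨2, 1⟩, 1, ⟨198, 221⟩⟩,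
    ⟨⟨90, 78⟩, ⟨2, 2⟩, 2, ⟨288, 290⟩⟩,
    ⟨⟨108, 96⟩, ⟨2, 2⟩, 0, ⟨216, 224⟩⟩,
    ⟨⟨126, 114⟩, ⟨2, 2⟩, 1, ⟨306, 311⟩⟩,
    ⟨⟨144, 132⟩, ⟨2, 2⟩, 2, ⟨396, 398⟩⟩,
    ⟨⟨162, 150⟩, ⟨0, 1⟩, 0, ⟨324, 332⟩⟩,
    ⟨⟨0, 7⟩, ⟨2, 2⟩, 1, ⟨54, 77⟩⟩,
    ⟨⟨18, 25⟩, ⟨2, 2⟩, 2, ⟨144, 164⟩⟩,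
    ⟨⟨36, 43⟩, ⟨2, 1⟩, 0, ⟨72, 98⟩⟩,
    ⟨⟨54, 52⟩, ⟨2, 2⟩, 1, ⟨162, 167⟩⟩,
    ⟨⟨72, 70⟩, ⟨2, 2⟩, 2, ⟨252, 254⟩⟩,
    ⟨⟨90, 88⟩, ⟨2, 2⟩, 0, ⟨180, 188⟩⟩,
    ⟨⟨108, 106⟩, ⟨2, 2⟩, 1, ⟨270, 275⟩⟩,
    ⟨⟨126, 124⟩, ⟨2, 2⟩, 2, ⟨360, 362⟩⟩,
    ⟨⟨144, 142⟩, ⟨2, 2⟩, 0, ⟨288, 296⟩⟩,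
    ⟨⟨0, 8⟩, ⟨2, 1⟩, 1, ⟨54, 97⟩⟩,
    ⟨⟨18, 17⟩, ⟨2, 2⟩, 2, ⟨144, 166⟩⟩,
    ⟨⟨36, 35⟩, ⟨2, 2⟩, 0, ⟨72, 100⟩⟩,
    ⟨⟨54, 53⟩, ⟨2, 2⟩, 1, ⟨162, 187⟩⟩,
    ⟨⟨72, 71⟩, ⟨2, 1⟩, 2, ⟨252, 274⟩⟩,
    ⟨⟨90, 80⟩, ⟨0, 1⟩, 1, ⟨234, 241⟩⟩,
    ⟨⟨90, 89⟩, ⟨2, 1⟩, 0, ⟨180, 208⟩⟩,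
    ⟨⟨108, 98⟩, ⟨2, 2⟩, 1, ⟨270, 277⟩⟩,
    ⟨⟨126, 116⟩, ⟨2, 2⟩, 2, ⟨360, 364⟩⟩,
    ⟨⟨144, 134⟩, ⟨2, 2⟩, 0, ⟨288, 298⟩⟩,
    ⟨⟨162, 152⟩, ⟨0, 1⟩, 1, ⟨378, 385⟩⟩]

theorem ok1 : famOK ctx base fam1 = true := by decide +kernel

def cover : List (Aff × Aff) := [(⟨0, 0⟩, ⟨0, 22⟩), (⟨0, 12⟩, ⟨54, 51⟩)]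

theorem ok : allOK ctx base [fam0, fam1] cover = true := by
  have h : (cov ctx [fam0, fam1] cover ⟨0, 0⟩ && pos ctx ctx.k && decide (0 < ctx.P) && baseOK ctx base) = true := by decide +kernel
  simp only [allOK, List.all_cons, List.all_nil, Bool.and_true, ok0, ok1, Bool.true_and]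
  exact h

end Pool.Agent.H57.QX.E51
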