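import Pool.Agent.H57.QX.D1
import Pool.Agent.H57.QX.D5
import Pool.Agent.H57.QX.D7
import Pool.Agent.H57.QX.D11
import Pool.Agent.H57.QX.D13
import Pool.Agent.H57.QX.D17

/-!
# `Q (3 k) = 3 k` for all `k ≥ 139` prime to `6`
-/

set_option autoImplicit false

namespace Pool.Agent.H57.QX

open Pool.Agent.H44.NQ

theorem q_large (k : ℕ) (h2 : k % 2 = 1) (h3 : k % 3 ≠ 0) (hk : 139 ≤ k) : Q (3 * k) = 3 * k := by
  have hr : k % 18 = 1 ∨ k % 18 = 5 ∨ k % 18 = 7 ∨ k % 18 = 11 ∨ k % 18 = 13 ∨ k % 18 = 17 := by omega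
  have hdiv := Nat.div_add_mod k 18
  rcases hr with hr | hr | hr | hr | hr | hr
  · exact q_eq D1.ok (t := (k / 18 : ℕ)) (by show (5 : ℤ) ≤ _; omega)
      (by simp only [Ctx.n, D1.ctx, Aff.ev]; push_cast; omega)
  · exact q_eq D5.ok (t := (k / 18 : ℕ)) (by show (6 : ℤ) ≤ _; omega)
      (by simp only [Ctx.n, D5.ctx, Aff.ev]; push_cast; omega)
  · exact q_eq D7.ok (t := (k / 18 : ℕ)) (by show (3 : ℤ) ≤ _; omega)
      (by simp only [Ctx.n, D7.ctx, Aff.ev]; push_cast; omega)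
  · exact q_eq D11.ok (t := (k / 18 : ℕ)) (by show (7 : ℤ) ≤ _; omega)
      (by simp only [Ctx.n, D11.ctx, Aff.ev]; push_cast; omega)
  · exact q_eq D13.ok (t := (k / 18 : ℕ)) (by show (3 : ℤ) ≤ _; omega)
      (by simp only [Ctx.n, D13.ctx, Aff.ev]; push_cast; omega)
  · exact q_eq D17.ok (t := (k / 18 : ℕ)) (by show (5 : ℤ) ≤ _; omega)
      (by simp only [Ctx.n, D17.ctx, Aff.ev]; push_cast; omega)

end Pool.Agent.H57.QX
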