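import Pool.Agent.H57.QX.E3
import Pool.Agent.H57.QX.E15
import Pool.Agent.H57.QX.E21
import Pool.Agent.H57.QX.E33
import Pool.Agent.H57.QX.E39
import Pool.Agent.H57.QX.E51

/-!
# `Q (3 k) = 3 k` for all odd `k ≥ 232` divisible by `3` and not by `9`
-/

set_option autoImplicit false

namespace Pool.Agent.H57.QX

open Pool.Agent.H44.NQ

theorem q_large9 (k : ℕ) (h2 : k % 2 = 1) (h3 : k % 3 = 0) (h9 : k % 9 ≠ 0) (hk : 232 ≤ k) :
    Q (3 * k) = 3 * k := by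
  have hr : k % 54 = 3 ∨ k % 54 = 15 ∨ k % 54 = 21 ∨ k % 54 = 33 ∨ k % 54 = 39 ∨ k % 54 = 51 := by omega
  have hdiv := Nat.div_add_mod k 54
  rcases hr with hr | hr | hr | hr | hr | hr
  · exact q_eq E3.ok (t := (k / 54 : ℕ)) (by show (3 : ℤ) ≤ _; omega)
      (by simp only [Ctx.n, E3.ctx, Aff.ev]; push_cast; omega)
  · exact q_eq E15.ok (t := (k / 54 : ℕ)) (by show (5 : ℤ) ≤ _; omega)
      (by simp only [Ctx.n, E15.ctx, Aff.ev]; push_cast; omega)
  · exact q_eq E21.ok (t := (k / 54 : ℕ)) (by show (1 : ℤ) ≤ _; omega)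
      (by simp only [Ctx.n, E21.ctx, Aff.ev]; push_cast; omega)
  · exact q_eq E33.ok (t := (k / 54 : ℕ)) (by show (1 : ℤ) ≤ _; omega)
      (by simp only [Ctx.n, E33.ctx, Aff.ev]; push_cast; omega)
  · exact q_eq E39.ok (t := (k / 54 : ℕ)) (by show (1 : ℤ) ≤ _; omega)
      (by simp only [Ctx.n, E39.ctx, Aff.ev]; push_cast; omega)
  · exact q_eq E51.ok (t := (k / 54 : ℕ)) (by show (1 : ℤ) ≤ _; omega)
      (by simp only [Ctx.n, E51.ctx, Aff.ev]; push_cast; omega)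

end Pool.Agent.H57.QX
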